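import Pool.Agent.H76.BC.Defs

/-!
# The supremum over a unit interval is at most the integral of `|g| + |g'|`

* `sup_le`: `g y - g x = ∫ x..y g' ≤ ∫ c..c+1 |g'|` for `x, y ∈ [c, c + 1]`; integrate over `x ∈ [c, c + 1]`.
* `hasDerivAt_psi`: `psi' t = - sin t / 2`, `|psi'| ≤ 1/2 ≤ 1`.
* `prod_deriv`: the derivative of `∏ i ∈ range n, psi (s i + y * w i)` (`0 ≤ w i`) in `y` exists and is bounded in absolute value by `∑ i, w i * ∏ j ≠ i, psi (s j + y * w j)` (`HasDerivAt.finset_prod`), and is continuous in `y`.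
* `cs_int`: Cauchy-Schwarz for the integral over an interval of nonnegative continuous functions: `∫ f g ≤ √X √Y` if `∫ f² ≤ X`, `∫ g² ≤ Y` (e.g. from `∫ (t f - g / t)² ≥ 0` for all `t > 0`, or `MeasureTheory.integral_mul_le_Lp_mul_Lq_of_nonneg`).
-/

set_option autoImplicit false

open Finset

namespace Pool.Agent.H76.BC

theorem SupInt_hasDerivAt_psi (t : ℝ) : HasDerivAt psi (-(Real.sin t / 2)) t := by
  have h : psi = fun t => (1 + Real.cos t) / 2 := funext psi_eq
  rw [h]
  refine (((Real.hasDerivAt_cos t).const_add 1).div_const 2).congr_deriv ?_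
  ring

theorem sup_le {g g' : ℝ → ℝ} (hg : ∀ y, HasDerivAt g (g' y) y) (hc : Continuous g') {h : ℝ → ℝ} (hh : Continuous h)
    (hle : ∀ y, |g y| + |g' y| ≤ h y) {c y : ℝ} (h1 : c ≤ y) (h2 : y ≤ c + 1) : g y ≤ ∫ x in c..(c + 1), h x := by
  have hgc : Continuous g := continuous_iff_continuousAt.2 fun x => (hg x).continuousAt
  have hcc : c ≤ c + 1 := by linarith
  set J : ℝ := ∫ x in c..(c + 1), |g' x| with hJ
  have hJ0 : 0 ≤ J := intervalIntegral.integral_nonneg hcc fun x _ => abs_nonneg _
  have key : ∀ x ∈ Set.Icc c (c + 1), g y ≤ |g x| + J := by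
    intro x hx
    have e1 : ∫ u in x..y, g' u = g y - g x :=
      intervalIntegral.integral_eq_sub_of_hasDerivAt (fun u _ => hg u) (hc.intervalIntegrable _ _)
    have e2 : |∫ u in x..y, g' u| ≤ |∫ u in x..y, ‖g' u‖| := by
      have := intervalIntegral.norm_integral_le_abs_integral_norm (f := g') (a := x) (b := y)
        (μ := MeasureTheory.volume)
      simpa only [Real.norm_eq_abs] using this
    have e3 : |∫ u in x..y, ‖g' u‖| ≤ |∫ u in c..(c + 1), ‖g' u‖| := by
      refine intervalIntegral.abs_integral_mono_interval ?_ ?_ ?_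
      · rw [Set.uIoc, Set.uIoc]
        refine Set.Ioc_subset_Ioc ?_ ?_
        · rw [min_eq_left hcc]
          exact le_min hx.1 h1
        · rw [max_eq_right hcc]
          exact max_le hx.2 h2
      · exact Filter.Eventually.of_forall fun u => norm_nonneg _
      · exact hc.norm.intervalIntegrable _ _
    simp only [Real.norm_eq_abs] at e2 e3
    rw [← hJ, abs_of_nonneg hJ0] at e3
    have e4 : g y - g x ≤ J := by
      rw [← e1]
      exact (le_abs_self _).trans (e2.trans e3)
    linarith [le_abs_self (g x)]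
  have e5 : ∫ x in c..(c + 1), g y ≤ ∫ x in c..(c + 1), (|g x| + J) :=
    intervalIntegral.integral_mono_on hcc (continuous_const.intervalIntegrable _ _)
      ((hgc.abs.add continuous_const).intervalIntegrable _ _) key
  rw [intervalIntegral.integral_const, intervalIntegral.integral_add (hgc.abs.intervalIntegrable _ _)
    (continuous_const.intervalIntegrable _ _), intervalIntegral.integral_const] at e5
  have e6 : ∫ x in c..(c + 1), (|g x| + |g' x|) ≤ ∫ x in c..(c + 1), h x :=
    intervalIntegral.integral_mono_on hcc ((hgc.abs.add hc.abs).intervalIntegrable _ _)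
      (hh.intervalIntegrable _ _) fun x _ => hle x
  rw [intervalIntegral.integral_add (hgc.abs.intervalIntegrable _ _) (hc.abs.intervalIntegrable _ _),
    ← hJ] at e6
  simp only [add_sub_cancel_left, one_smul] at e5
  linarith

theorem prod_deriv {ι : Type} [DecidableEq ι] (S : Finset ι) (s w : ι → ℝ) (hw : ∀ i ∈ S, 0 ≤ w i) :
    ∃ g' : ℝ → ℝ, Continuous g' ∧ (∀ y, HasDerivAt (fun y => ∏ i ∈ S, psi (s i + y * w i)) (g' y) y) ∧
      ∀ y, |g' y| ≤ ∑ i ∈ S, w i * ∏ j ∈ S.erase i, psi (s j + y * w j) := by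
  refine ⟨fun y => ∑ i ∈ S, (∏ j ∈ S.erase i, psi (s j + y * w j)) *
    (-(Real.sin (s i + y * w i) / 2) * w i), ?_, ?_, ?_⟩
  · have hp := continuous_psi
    refine continuous_finsetSum _ fun i _ => Continuous.mul ?_ (by fun_prop)
    exact continuous_finsetProd _ fun j _ => hp.comp (by fun_prop)
  · intro y
    have h1 : ∀ i ∈ S, HasDerivAt (fun y => psi (s i + y * w i)) (-(Real.sin (s i + y * w i) / 2) * w i) y := by
      intro i _
      have h2 : HasDerivAt (fun y : ℝ => s i + y * w i) (w i) y := by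
        simpa using ((hasDerivAt_id y).mul_const (w i)).const_add (s i)
      exact (SupInt_hasDerivAt_psi (s i + y * w i)).comp y h2
    have h3 := HasDerivAt.fun_finsetProd h1
    simpa only [smul_eq_mul] using h3
  · intro y
    refine (Finset.abs_sum_le_sum_abs _ _).trans (Finset.sum_le_sum fun i hi => ?_)
    have hP : 0 ≤ ∏ j ∈ S.erase i, psi (s j + y * w j) := Finset.prod_nonneg fun j _ => psi_nonneg _
    have hs : |Real.sin (s i + y * w i)| ≤ 1 := Real.abs_sin_le_one _
    rw [abs_mul, abs_of_nonneg hP, abs_mul, abs_of_nonneg (hw i hi), abs_neg, abs_div,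
      abs_of_pos (two_pos : (0 : ℝ) < 2), mul_comm]
    refine mul_le_mul_of_nonneg_right ?_ hP
    nlinarith [hw i hi, abs_nonneg (Real.sin (s i + y * w i))]

theorem cs_int {f g : ℝ → ℝ} (hf : Continuous f) (hg : Continuous g) {a b : ℝ} (hab : a ≤ b) {X Y : ℝ} (hX0 : 0 ≤ X) (hY0 : 0 ≤ Y)
    (hX : ∫ x in a..b, f x ^ 2 ≤ X) (hY : ∫ x in a..b, g x ^ 2 ≤ Y) : ∫ x in a..b, f x * g x ≤ √X * √Y := by
  have hff : IntervalIntegrable (fun x => f x ^ 2) MeasureTheory.volume a b :=
    (hf.pow 2).intervalIntegrable _ _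
  have hgg : IntervalIntegrable (fun x => g x ^ 2) MeasureTheory.volume a b :=
    (hg.pow 2).intervalIntegrable _ _
  have hfg : IntervalIntegrable (fun x => f x * g x) MeasureTheory.volume a b :=
    (hf.mul hg).intervalIntegrable _ _
  have hq : ∀ t : ℝ, 0 ≤ (∫ x in a..b, f x ^ 2) * (t * t) + (2 * ∫ x in a..b, f x * g x) * t +
      ∫ x in a..b, g x ^ 2 := by
    intro t
    have e : ∫ x in a..b, (t * f x + g x) ^ 2 = (∫ x in a..b, f x ^ 2) * (t * t) +
        (2 * ∫ x in a..b, f x * g x) * t + ∫ x in a..b, g x ^ 2 := by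
      have e1 : (fun x => (t * f x + g x) ^ 2) =
          fun x => ((t * t) * f x ^ 2 + (2 * t) * (f x * g x)) + g x ^ 2 := by
        funext x
        ring
      rw [e1, intervalIntegral.integral_add ((hff.const_mul _).add (hfg.const_mul _)) hgg,
        intervalIntegral.integral_add (hff.const_mul _) (hfg.const_mul _),
        intervalIntegral.integral_const_mul, intervalIntegral.integral_const_mul]
      ring
    rw [← e]
    exact intervalIntegral.integral_nonneg hab fun x _ => sq_nonneg _
  have hd := discrim_le_zero hq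
  rw [discrim] at hd
  have hF0 : 0 ≤ ∫ x in a..b, f x ^ 2 := intervalIntegral.integral_nonneg hab fun x _ => sq_nonneg _
  have hG0 : 0 ≤ ∫ x in a..b, g x ^ 2 := intervalIntegral.integral_nonneg hab fun x _ => sq_nonneg _
  rw [← Real.sqrt_mul hX0]
  refine (le_abs_self _).trans (Real.abs_le_sqrt ?_)
  have := mul_le_mul hX hY hG0 hX0
  nlinarith

end Pool.Agent.H76.BC
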