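import Pool.Agent.H76.BC.Per
import Pool.Agent.H76.BC.SupInt

/-!
# The block lemma at `1/√2`, for arbitrary phases

`A y = ∏ i < n, psi (s (2 i) + y * 1 / 2 ^ i)`, `B y = ∏ i < n, psi (s (2 i + 1) + y * l0 / 2 ^ i)`; `∏ i < 2n, psi (s i + y * l0 ^ i) = A y * B y` (`l0 ^ (2 i) = 1 / 2 ^ i`; induction on `n`).  `A_i`, `B_i` the products without the factor `i`.
`h y = A B + (∑ i < n, 2⁻ⁱ A_i) B + l0 A ∑ i < n, 2⁻ⁱ B_i ≥ |(A B) y| + |(A B)' y|` (`prod_deriv`), `b a = ∫ y in a..a+1, h y` (`sup_le`), `b a ≥ 0`.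
`∑ a < 2 ^ n + 1, b a = ∫ y in 0..(2 ^ n + 1), h y` (`intervalIntegral.sum_integral_adjacent_intervals`).  With `X = exp (- (∑ i < n - 1, (1 - cos (s (2 i) - 2 s (2 i + 2)))) / 32)`, `Y` the same for the odd indices:
`∫ A² ≤ π X`, `∫ A_i² ≤ 3 π X`, `∫ B² ≤ π / l0 * Y`, `∫ B_i² ≤ 3 π / l0 * Y` (`per_full`, `per_miss` with `κ = 1`, `κ = l0`), so by `cs_int` each of the integrals `∫ A B`, `∫ A_i B`, `∫ A B_i` is at most `√(3 π X) √(3 π / l0 * Y) ≤ 12 √X √Y`
(`3 π ≤ 9.5`, `l0 ≥ 0.7`), and `∑ i < n, 2⁻ⁱ ≤ 2`: the total is at most `(1 + 2 + 2) * 12 √(X Y) = 60 √(X Y)`.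
`√(X Y) = exp (- (∑ i < 2n - 2, (1 - cos (s i - 2 s (i + 2)))) / 64)` and the two missing terms are at most `2` each: `exp (4 / 64) ≤ 1.1`.
-/

set_option autoImplicit false

open Finset

namespace Pool.Agent.H76.BC

theorem blk0_prod (n : ℕ) (f : ℕ → ℝ) :
    ∏ i ∈ range (2 * n), f i = (∏ i ∈ range n, f (2 * i)) * ∏ i ∈ range n, f (2 * i + 1) := by
  induction n with
  | zero => simp
  | succ n ih =>
    rw [Nat.mul_succ, prod_range_succ, prod_range_succ, ih, prod_range_succ, prod_range_succ]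
    ring

theorem blk0_sum (n : ℕ) (f : ℕ → ℝ) :
    ∑ i ∈ range (2 * n), f i = (∑ i ∈ range n, f (2 * i)) + ∑ i ∈ range n, f (2 * i + 1) := by
  induction n with
  | zero => simp
  | succ n ih =>
    rw [Nat.mul_succ, sum_range_succ, sum_range_succ, ih, sum_range_succ, sum_range_succ]
    ring

theorem blk0_erase (S : Finset ℕ) (f : ℕ → ℝ) (i : ℕ) :
    ∏ j ∈ S.erase i, f j = ∏ j ∈ S, (if j = i then 1 else f j) := by
  rw [← Finset.prod_erase S (f := fun j => if j = i then (1 : ℝ) else f j) (a := i) (by simp)]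
  refine prod_congr rfl fun j hj => ?_
  rw [if_neg (Finset.ne_of_mem_erase hj)]

theorem blk0_even (n m : ℕ) (f : ℕ → ℝ) :
    ∏ j ∈ (range (2 * n)).erase (2 * m), f j = (∏ i ∈ (range n).erase m, f (2 * i)) * ∏ i ∈ range n, f (2 * i + 1) := by
  rw [blk0_erase, blk0_prod, blk0_erase (range n) (fun i => f (2 * i)) m]
  congr 1
  · refine prod_congr rfl fun j _ => ?_
    by_cases h : j = m
    · simp [h]
    · rw [if_neg h, if_neg (by omega)]
  · refine prod_congr rfl fun j _ => ?_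
    rw [if_neg (by omega)]

theorem blk0_odd (n m : ℕ) (f : ℕ → ℝ) :
    ∏ j ∈ (range (2 * n)).erase (2 * m + 1), f j = (∏ i ∈ range n, f (2 * i)) * ∏ i ∈ (range n).erase m, f (2 * i + 1) := by
  rw [blk0_erase, blk0_prod, blk0_erase (range n) (fun i => f (2 * i + 1)) m]
  congr 1
  · refine prod_congr rfl fun j _ => ?_
    rw [if_neg (by omega)]
  · refine prod_congr rfl fun j _ => ?_
    by_cases h : j = m
    · simp [h]
    · rw [if_neg h, if_neg (by omega)]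

theorem blk0_pow (i : ℕ) (y : ℝ) : y * l0 ^ (2 * i) = y * 1 / 2 ^ i := by
  rw [pow_mul, l0_sq, mul_one, one_div, inv_pow, div_eq_mul_inv]

theorem blk0_pow' (i : ℕ) (y : ℝ) : y * l0 ^ (2 * i + 1) = y * l0 / 2 ^ i := by
  rw [pow_succ, pow_mul, l0_sq, one_div, inv_pow, div_eq_mul_inv]
  ring

theorem blk0_cs {f g : ℝ → ℝ} (hf : Continuous f) (hg : Continuous g) {b : ℝ} (hb : 0 ≤ b) {X Y : ℝ} (hX0 : 0 ≤ X) (hY0 : 0 ≤ Y)
    (hX : ∫ x in (0 : ℝ)..b, f x ^ 2 ≤ 3 * Real.pi / 1 * X) (hY : ∫ x in (0 : ℝ)..b, g x ^ 2 ≤ 3 * Real.pi / l0 * Y) :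
    ∫ x in (0 : ℝ)..b, f x * g x ≤ 12 * (√X * √Y) := by
  have hl := l0_bounds
  have hpi := Real.pi_pos
  have hpi2 := Real.pi_lt_d2
  have h1 := cs_int hf hg hb (X := 3 * Real.pi / 1 * X) (Y := 3 * Real.pi / l0 * Y) (by positivity)
    (mul_nonneg (div_nonneg (by positivity) l0_pos.le) hY0) hX hY
  refine h1.trans ?_
  rw [← Real.sqrt_mul (by positivity), ← Real.sqrt_mul hX0]
  have h12 : (12 : ℝ) = √144 := by
    rw [show (144 : ℝ) = 12 ^ 2 by norm_num, Real.sqrt_sq (by norm_num)]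
  rw [h12, ← Real.sqrt_mul (by norm_num)]
  refine Real.sqrt_le_sqrt ?_
  have h3 : 3 * Real.pi / 1 * X * (3 * Real.pi / l0 * Y) = 9 * Real.pi ^ 2 / l0 * (X * Y) := by
    ring
  rw [h3]
  refine mul_le_mul_of_nonneg_right ?_ (mul_nonneg hX0 hY0)
  rw [div_le_iff₀ l0_pos]
  nlinarith [hl.1, hpi, hpi2]

theorem blk0_cont (S : Finset ℕ) (s : ℕ → ℝ) (c : ℝ) : Continuous fun y : ℝ => ∏ i ∈ S, psi (s i + y * c / 2 ^ i) :=
  continuous_finsetProd _ fun i _ => continuous_psi.comp (by fun_prop)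

theorem block0 {n : ℕ} (hn : 1 ≤ n) (s : ℕ → ℝ) :
    ∃ b : ℕ → ℝ, (∀ a, 0 ≤ b a) ∧
      (∀ a : ℕ, ∀ y : ℝ, (a : ℝ) ≤ y → y ≤ a + 1 → ∏ i ∈ range (2 * n), psi (s i + y * l0 ^ i) ≤ b a) ∧
      ∑ a ∈ range (2 ^ n + 1), b a ≤ 100 * Real.exp (-(∑ i ∈ range (2 * n), (1 - Real.cos (s i - 2 * s (i + 2)))) / 64) := by
  have hl := l0_bounds
  have hl0 := l0_pos
  have hl1 : l0 ≤ 1 := by linarith [hl.2]
  obtain ⟨g', hg'c, hg'd, hg'b⟩ := prod_deriv (range (2 * n)) s (fun i => l0 ^ i) (fun i _ => pow_nonneg hl0.le i)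
  set se : ℕ → ℝ := fun i => s (2 * i) with hse
  set so : ℕ → ℝ := fun i => s (2 * i + 1) with hso
  set X : ℝ := Real.exp (-(∑ i ∈ range (n - 1), (1 - Real.cos (se i - 2 * se (i + 1)))) / 32) with hX
  set Y : ℝ := Real.exp (-(∑ i ∈ range (n - 1), (1 - Real.cos (so i - 2 * so (i + 1)))) / 32) with hY
  have hX0 : 0 ≤ X := (Real.exp_pos _).le
  have hY0 : 0 ≤ Y := (Real.exp_pos _).le
  set Z : ℝ := √X * √Y with hZ
  have hZ0 : 0 ≤ Z := by positivity
  have hNb : (0 : ℝ) ≤ 2 ^ n + 1 := by positivity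
  -- continuity
  have hcP : Continuous fun y : ℝ => ∏ j ∈ range (2 * n), psi (s j + y * l0 ^ j) :=
    continuous_finsetProd _ fun i _ => continuous_psi.comp (by fun_prop)
  have hcE : ∀ i, Continuous fun y : ℝ => ∏ j ∈ (range (2 * n)).erase i, psi (s j + y * l0 ^ j) := fun i =>
    continuous_finsetProd _ fun i _ => continuous_psi.comp (by fun_prop)
  have hpos : ∀ (S : Finset ℕ) (y : ℝ), 0 ≤ ∏ j ∈ S, psi (s j + y * l0 ^ j) := fun S y =>
    prod_nonneg fun i _ => psi_nonneg _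
  -- the integrals of squares
  have hone : ∀ c t : ℝ, 0 ≤ t → 0 < c → Real.pi / c * t ≤ 3 * Real.pi / c * t := by
    intro c t ht hc
    refine mul_le_mul_of_nonneg_right (div_le_div_of_nonneg_right ?_ hc.le) ht
    linarith [Real.pi_pos]
  have hA : ∫ y in (0 : ℝ)..(2 ^ n + 1), (∏ i ∈ range n, psi (se i + y * 1 / 2 ^ i)) ^ 2 ≤ 3 * Real.pi / 1 * X :=
    (per_full hn se one_pos le_rfl).trans (hone 1 X hX0 one_pos)
  have hB : ∫ y in (0 : ℝ)..(2 ^ n + 1), (∏ i ∈ range n, psi (so i + y * l0 / 2 ^ i)) ^ 2 ≤ 3 * Real.pi / l0 * Y :=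
    (per_full hn so hl0 hl1).trans (hone l0 Y hY0 hl0)
  have hAm : ∀ m, m < n → ∫ y in (0 : ℝ)..(2 ^ n + 1), (∏ i ∈ (range n).erase m, psi (se i + y * 1 / 2 ^ i)) ^ 2 ≤ 3 * Real.pi / 1 * X :=
    fun m hm => per_miss hn se one_pos le_rfl hm
  have hBm : ∀ m, m < n → ∫ y in (0 : ℝ)..(2 ^ n + 1), (∏ i ∈ (range n).erase m, psi (so i + y * l0 / 2 ^ i)) ^ 2 ≤ 3 * Real.pi / l0 * Y :=
    fun m hm => per_miss hn so hl0 hl1 hm
  have hJ : ∫ y in (0 : ℝ)..(2 ^ n + 1), ∏ j ∈ range (2 * n), psi (s j + y * l0 ^ j) ≤ 12 * Z := by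
    have h := blk0_cs (blk0_cont (range n) se 1) (blk0_cont (range n) so l0) hNb hX0 hY0 hA hB
    refine le_trans (le_of_eq ?_) h
    refine intervalIntegral.integral_congr fun y _ => ?_
    simp only [blk0_prod n (fun j => psi (s j + y * l0 ^ j)), blk0_pow, blk0_pow', hse, hso]
  have hJi : ∀ i ∈ range (2 * n), ∫ y in (0 : ℝ)..(2 ^ n + 1), ∏ j ∈ (range (2 * n)).erase i, psi (s j + y * l0 ^ j) ≤ 12 * Z := by
    intro i hi
    rw [mem_range] at hi
    rcases Nat.even_or_odd' i with ⟨m, rfl | rfl⟩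
    · have hm : m < n := by omega
      have h := blk0_cs (blk0_cont ((range n).erase m) se 1) (blk0_cont (range n) so l0) hNb hX0 hY0 (hAm m hm) hB
      refine le_trans (le_of_eq ?_) h
      refine intervalIntegral.integral_congr fun y _ => ?_
      simp only [blk0_even n m (fun j => psi (s j + y * l0 ^ j)), blk0_pow, blk0_pow', hse, hso]
    · have hm : m < n := by omega
      have h := blk0_cs (blk0_cont (range n) se 1) (blk0_cont ((range n).erase m) so l0) hNb hX0 hY0 hA (hBm m hm)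
      refine le_trans (le_of_eq ?_) h
      refine intervalIntegral.integral_congr fun y _ => ?_
      simp only [blk0_odd n m (fun j => psi (s j + y * l0 ^ j)), blk0_pow, blk0_pow', hse, hso]
  -- the majorant
  set h : ℝ → ℝ := fun y => (∏ j ∈ range (2 * n), psi (s j + y * l0 ^ j)) +
    ∑ i ∈ range (2 * n), l0 ^ i * ∏ j ∈ (range (2 * n)).erase i, psi (s j + y * l0 ^ j) with hh
  have hhc : Continuous h := by
    refine hcP.add (continuous_finsetSum _ fun i _ => continuous_const.mul (hcE i))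
  have hh0 : ∀ y, 0 ≤ h y := fun y =>
    add_nonneg (hpos _ y) (sum_nonneg fun i _ => mul_nonneg (pow_nonneg hl0.le _) (hpos _ y))
  refine ⟨fun a => ∫ x in (a : ℝ)..((a : ℝ) + 1), h x, fun a => ?_, fun a y hy1 hy2 => ?_, ?_⟩
  · exact intervalIntegral.integral_nonneg (by linarith) fun y _ => hh0 y
  · refine sup_le (g := fun y => ∏ j ∈ range (2 * n), psi (s j + y * l0 ^ j)) hg'd hg'c hhc (fun z => ?_) hy1 hy2
    simp only [abs_of_nonneg (hpos (range (2 * n)) z), hh]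
    linarith [hg'b z]
  · have hsum : ∑ a ∈ range (2 ^ n + 1), ∫ x in (a : ℝ)..((a : ℝ) + 1), h x = ∫ x in (0 : ℝ)..(2 ^ n + 1), h x := by
      have h1 := intervalIntegral.sum_integral_adjacent_intervals (μ := MeasureTheory.volume) (f := h) (a := fun k : ℕ => (k : ℝ)) (n := 2 ^ n + 1)
        (fun k _ => hhc.intervalIntegrable _ _)
      simp only [Nat.cast_add, Nat.cast_one, Nat.cast_pow, Nat.cast_ofNat, Nat.cast_zero] at h1
      exact h1
    rw [hsum]
    have hint : ∫ x in (0 : ℝ)..(2 ^ n + 1), h x = (∫ y in (0 : ℝ)..(2 ^ n + 1), ∏ j ∈ range (2 * n), psi (s j + y * l0 ^ j)) +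
        ∑ i ∈ range (2 * n), l0 ^ i * ∫ y in (0 : ℝ)..(2 ^ n + 1), ∏ j ∈ (range (2 * n)).erase i, psi (s j + y * l0 ^ j) := by
      have hcT : ∀ i, Continuous fun y : ℝ => l0 ^ i * ∏ j ∈ (range (2 * n)).erase i, psi (s j + y * l0 ^ j) :=
        fun i => continuous_const.mul (hcE i)
      have hcS : Continuous fun y : ℝ => ∑ i ∈ range (2 * n), l0 ^ i * ∏ j ∈ (range (2 * n)).erase i, psi (s j + y * l0 ^ j) :=
        continuous_finsetSum _ fun i _ => hcT i
      have e1 := intervalIntegral.integral_add (μ := MeasureTheory.volume) (hcP.intervalIntegrable 0 (2 ^ n + 1)) (hcS.intervalIntegrable 0 (2 ^ n + 1))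
      have e2 := intervalIntegral.integral_finset_sum (μ := MeasureTheory.volume) (a := 0) (b := 2 ^ n + 1) (s := range (2 * n))
        (f := fun i (y : ℝ) => l0 ^ i * ∏ j ∈ (range (2 * n)).erase i, psi (s j + y * l0 ^ j)) fun i _ => (hcT i).intervalIntegrable _ _
      refine e1.trans ?_
      rw [e2]
      simp only [intervalIntegral.integral_const_mul]
    rw [hint]
    have hgeo : ∑ i ∈ range (2 * n), l0 ^ i ≤ 3.5 := by
      have h1 := geom_sum_mul_neg l0 (2 * n)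
      have h2 : (0 : ℝ) ≤ l0 ^ (2 * n) := pow_nonneg hl0.le _
      nlinarith [hl.2]
    have htot : (∫ y in (0 : ℝ)..(2 ^ n + 1), ∏ j ∈ range (2 * n), psi (s j + y * l0 ^ j)) +
        ∑ i ∈ range (2 * n), l0 ^ i * ∫ y in (0 : ℝ)..(2 ^ n + 1), ∏ j ∈ (range (2 * n)).erase i, psi (s j + y * l0 ^ j) ≤ 54 * Z := by
      have h1 : ∑ i ∈ range (2 * n), l0 ^ i * ∫ y in (0 : ℝ)..(2 ^ n + 1), ∏ j ∈ (range (2 * n)).erase i, psi (s j + y * l0 ^ j) ≤
          ∑ i ∈ range (2 * n), l0 ^ i * (12 * Z) :=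
        sum_le_sum fun i hi => mul_le_mul_of_nonneg_left (hJi i hi) (pow_nonneg hl0.le _)
      rw [← sum_mul] at h1
      have h2 : (∑ i ∈ range (2 * n), l0 ^ i) * (12 * Z) ≤ 3.5 * (12 * Z) := mul_le_mul_of_nonneg_right hgeo (by positivity)
      linarith
    refine htot.trans ?_
    -- the exponent
    have hZe : Z = Real.exp (-(∑ i ∈ range (n - 1), (1 - Real.cos (se i - 2 * se (i + 1))) +
        ∑ i ∈ range (n - 1), (1 - Real.cos (so i - 2 * so (i + 1)))) / 64) := by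
      rw [hZ, hX, hY, ← Real.exp_half, ← Real.exp_half, ← Real.exp_add]
      congr 1
      ring
    have hse2 : ∑ i ∈ range n, (1 - Real.cos (se i - 2 * se (i + 1))) ≤
        ∑ i ∈ range (n - 1), (1 - Real.cos (se i - 2 * se (i + 1))) + 2 := by
      obtain ⟨k, rfl⟩ : ∃ k, n = k + 1 := ⟨n - 1, by omega⟩
      rw [sum_range_succ, Nat.add_sub_cancel]
      linarith [Real.neg_one_le_cos (se k - 2 * se (k + 1))]
    have hso2 : ∑ i ∈ range n, (1 - Real.cos (so i - 2 * so (i + 1))) ≤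
        ∑ i ∈ range (n - 1), (1 - Real.cos (so i - 2 * so (i + 1))) + 2 := by
      obtain ⟨k, rfl⟩ : ∃ k, n = k + 1 := ⟨n - 1, by omega⟩
      rw [sum_range_succ, Nat.add_sub_cancel]
      linarith [Real.neg_one_le_cos (so k - 2 * so (k + 1))]
    have hsplit : ∑ i ∈ range (2 * n), (1 - Real.cos (s i - 2 * s (i + 2))) =
        ∑ i ∈ range n, (1 - Real.cos (se i - 2 * se (i + 1))) + ∑ i ∈ range n, (1 - Real.cos (so i - 2 * so (i + 1))) := by
      rw [blk0_sum]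
      rfl
    have hexp : Z ≤ Real.exp (1 / 16) * Real.exp (-(∑ i ∈ range (2 * n), (1 - Real.cos (s i - 2 * s (i + 2)))) / 64) := by
      rw [hZe, ← Real.exp_add, Real.exp_le_exp, hsplit]
      linarith
    have he : Real.exp (1 / 16) ≤ 1.1 := by
      have h1 : (1 : ℝ) - 1 / 16 ≤ Real.exp (-(1 / 16)) := Real.one_sub_le_exp_neg _
      rw [Real.exp_neg] at h1
      have h2 := Real.exp_pos (1 / 16 : ℝ)
      have h3 : Real.exp (1 / 16) * (15 / 16) ≤ 1 := by
        have := mul_le_mul_of_nonneg_left h1 h2.le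
        rw [mul_inv_cancel₀ h2.ne'] at this
        linarith
      linarith
    have hE0 := Real.exp_pos (-(∑ i ∈ range (2 * n), (1 - Real.cos (s i - 2 * s (i + 2)))) / 64)
    have hfin : Z ≤ 1.1 * Real.exp (-(∑ i ∈ range (2 * n), (1 - Real.cos (s i - 2 * s (i + 2)))) / 64) :=
      hexp.trans (mul_le_mul_of_nonneg_right he hE0.le)
    linarith

end Pool.Agent.H76.BC
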