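import Pool.Agent.H76.BC.Blk0

/-!
# The block lemma near `1/√2`

Fix `n ≥ 1`, `m = 2 n`.  For `l → l0` the finitely many quantities `|l ^ i - l0 ^ i|` (`i < m`) tend to `0`, `(l⁻¹) ^ m → 2 ^ n < 2 ^ n + 1`, `1 - 2 l ^ 2 → 0`; so there is `δ > 0` such that for `|l - l0| < δ`:
`1/2 < l < 3/4`, `|1 - 2 l ^ 2| ≤ 1/4`, `(l⁻¹) ^ m ≤ 2 ^ n + 1`, and `(2 ^ n + 1) * (∑ i < m, (2 ^ n + 2) * |l ^ i - l0 ^ i|) ≤ 100 * exp (- m / 32)` (continuity; `Metric.continuousAt_iff`, or `Filter.Eventually` in `nhds l0`).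
Let `Y ≤ y0 ≤ Y + (l⁻¹) ^ m` and `T0 = Y - y0 ∈ [-(2 ^ n + 1), 0]`.  Phases `s i = y0 * l ^ i + T0 * l0 ^ i`; `s i - 2 s (i + 2) = y0 * l ^ i * (1 - 2 l ^ 2)` because `l0 ^ (i + 2) = l0 ^ i / 2`.  Let `b` be as in `block0` and `b' a = b a + err`,
`err = ∑ i < m, (2 ^ n + 2) * |l ^ i - l0 ^ i|`.  For `y = Y + a + t`, `0 ≤ t ≤ 1`, `a ≤ 2 ^ n`: `y' = y - y0 = T0 + a + t`, `|y'| ≤ 2 ^ n + 2`, `y * l ^ i = y0 * l ^ i + y' * l ^ i` and `s i + (a + t) * l0 ^ i = y0 * l ^ i + y' * l0 ^ i`, so the arguments of `psi` differ by at most `|y'| |l ^ i - l0 ^ i|`;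
`psi` is Lipschitz with constant `1` and the difference of two products of numbers in `[0, 1]` is at most the sum of the differences (induction).
`∑ a < 2 ^ n + 1, b' a ≤ 100 exp (- En l m y0 / 64) + (2 ^ n + 1) err ≤ 200 exp (- En l m y0 / 64)` because `En l m y0 ≤ 2 m`.
-/

set_option autoImplicit false

open Finset

namespace Pool.Agent.H76.BC

theorem psi_lip (x y : ℝ) : |psi x - psi y| ≤ |x - y| := by
  rw [psi_eq, psi_eq]
  have h := Real.abs_cos_sub_cos_le x y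
  have e : (1 + Real.cos x) / 2 - (1 + Real.cos y) / 2 = (Real.cos x - Real.cos y) / 2 := by ring
  rw [e, abs_div, abs_two]
  have := abs_nonneg (Real.cos x - Real.cos y)
  linarith

theorem prod_sub_le (m : ℕ) (f g : ℕ → ℝ) (hf0 : ∀ i, 0 ≤ f i) (hf1 : ∀ i, f i ≤ 1) (hg0 : ∀ i, 0 ≤ g i) (hg1 : ∀ i, g i ≤ 1) :
    |∏ i ∈ range m, f i - ∏ i ∈ range m, g i| ≤ ∑ i ∈ range m, |f i - g i| := by
  induction m with
  | zero => simp
  | succ k ih =>
    rw [prod_range_succ, prod_range_succ, sum_range_succ]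
    have hF0 : 0 ≤ ∏ i ∈ range k, f i := prod_nonneg fun i _ => hf0 i
    have hF1 : ∏ i ∈ range k, f i ≤ 1 := prod_le_one (fun i _ => hf0 i) fun i _ => hf1 i
    have e : (∏ i ∈ range k, f i) * f k - (∏ i ∈ range k, g i) * g k =
        (∏ i ∈ range k, f i) * (f k - g k) + (∏ i ∈ range k, f i - ∏ i ∈ range k, g i) * g k := by ring
    rw [e]
    refine (abs_add_le _ _).trans ?_
    rw [abs_mul, abs_mul, abs_of_nonneg hF0, abs_of_nonneg (hg0 k)]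
    have h1 : (∏ i ∈ range k, f i) * |f k - g k| ≤ |f k - g k| := mul_le_of_le_one_left (abs_nonneg _) hF1
    have h2 : |∏ i ∈ range k, f i - ∏ i ∈ range k, g i| * g k ≤ |∏ i ∈ range k, f i - ∏ i ∈ range k, g i| :=
      mul_le_of_le_one_right (abs_nonneg _) (hg1 k)
    linarith

theorem l0_inv_pow (n : ℕ) : (l0⁻¹) ^ (2 * n) = 2 ^ n := by
  rw [pow_mul, inv_pow, l0_sq]
  norm_num

theorem blk_conds (n : ℕ) : ∀ᶠ l in nhds l0, (1 / 2 < l ∧ l < 3 / 4) ∧ |1 - 2 * l ^ 2| ≤ 1 / 4 ∧ (l⁻¹) ^ (2 * n) ≤ 2 ^ n + 1 ∧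
    (2 ^ n + 1) * ∑ i ∈ range (2 * n), (2 ^ n + 2) * |l ^ i - l0 ^ i| ≤ 100 * Real.exp (-(2 * n : ℝ) / 32) := by
  obtain ⟨hb1, hb2⟩ := l0_bounds
  have h1 : ∀ᶠ l in nhds l0, 1 / 2 < l := eventually_gt_nhds (by linarith)
  have h2 : ∀ᶠ l in nhds l0, l < 3 / 4 := eventually_lt_nhds (by linarith)
  have h3 : ∀ᶠ l in nhds l0, |1 - 2 * l ^ 2| < 1 / 4 := by
    have hc : ContinuousAt (fun l : ℝ => |1 - 2 * l ^ 2|) l0 := by fun_prop
    refine hc.eventually_lt continuousAt_const ?_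
    simp only [l0_sq]
    norm_num
  have h4 : ∀ᶠ l in nhds l0, (l⁻¹) ^ (2 * n) < 2 ^ n + 1 := by
    have hc : ContinuousAt (fun l : ℝ => (l⁻¹) ^ (2 * n)) l0 := (continuousAt_inv₀ l0_pos.ne').pow _
    refine hc.eventually_lt continuousAt_const ?_
    simp only [l0_inv_pow]
    linarith
  have h5 : ∀ᶠ l in nhds l0, (2 ^ n + 1) * ∑ i ∈ range (2 * n), (2 ^ n + 2) * |l ^ i - l0 ^ i| < 100 * Real.exp (-(2 * n : ℝ) / 32) := by
    have hc : ContinuousAt (fun l : ℝ => (2 ^ n + 1) * ∑ i ∈ range (2 * n), (2 ^ n + 2) * |l ^ i - l0 ^ i|) l0 := by fun_prop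
    refine hc.eventually_lt continuousAt_const ?_
    simp only [sub_self, abs_zero, mul_zero, sum_const_zero]
    positivity
  filter_upwards [h1, h2, h3, h4, h5] with l a1 a2 a3 a4 a5
  exact ⟨⟨a1, a2⟩, a3.le, a4.le, a5.le⟩

theorem En_le (l : ℝ) (m : ℕ) (x : ℝ) : En l m x ≤ 2 * m := by
  unfold En
  calc ∑ j ∈ range m, (1 - Real.cos ((1 - 2 * l ^ 2) * x * l ^ j)) ≤ ∑ _j ∈ range m, (2 : ℝ) :=
        sum_le_sum fun j _ => by linarith [Real.neg_one_le_cos ((1 - 2 * l ^ 2) * x * l ^ j)]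
    _ = 2 * m := by rw [sum_const, card_range, nsmul_eq_mul, mul_comm]

theorem blk_near {n : ℕ} (hn : 1 ≤ n) : ∃ δ > 0, ∀ l : ℝ, |l - l0| < δ → Blk n l := by
  obtain ⟨δ, hδ, hball⟩ := Metric.eventually_nhds_iff.1 (blk_conds n)
  refine ⟨δ, hδ, fun l hl => ?_⟩
  obtain ⟨⟨h1, h2⟩, h3, h4, h5⟩ := hball (y := l) (by rwa [Real.dist_eq])
  refine ⟨h1, h2, h3, h4, fun Y y0 hY0 hY1 => ?_⟩
  obtain ⟨b, hb0, hb1, hb2⟩ := block0 hn (fun i => y0 * l ^ i + (Y - y0) * l0 ^ i)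
  set err : ℝ := ∑ i ∈ range (2 * n), (2 ^ n + 2) * |l ^ i - l0 ^ i| with herr
  have herr0 : 0 ≤ err := sum_nonneg fun i _ => by positivity
  refine ⟨fun a => b a + err, fun a => add_nonneg (hb0 a) herr0, ?_, ?_⟩
  · intro a ha y hy1 hy2
    have h6 := hb1 a (y - Y) (by linarith) (by linarith)
    have h7 : |y - y0| ≤ 2 ^ n + 2 := by
      have ha' : (a : ℝ) ≤ 2 ^ n := by exact_mod_cast ha
      have ha0 : (0 : ℝ) ≤ a := Nat.cast_nonneg a
      rw [abs_le]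
      constructor <;> linarith
    have h8 := prod_sub_le (2 * n) (fun i => psi (y * l ^ i)) (fun i => psi (y0 * l ^ i + (Y - y0) * l0 ^ i + (y - Y) * l0 ^ i))
      (fun i => psi_nonneg _) (fun i => psi_le_one _) (fun i => psi_nonneg _) (fun i => psi_le_one _)
    have h9 : ∑ i ∈ range (2 * n), |psi (y * l ^ i) - psi (y0 * l ^ i + (Y - y0) * l0 ^ i + (y - Y) * l0 ^ i)| ≤ err := by
      rw [herr]
      refine sum_le_sum fun i _ => (psi_lip _ _).trans ?_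
      have e : y * l ^ i - (y0 * l ^ i + (Y - y0) * l0 ^ i + (y - Y) * l0 ^ i) = (y - y0) * (l ^ i - l0 ^ i) := by ring
      rw [e, abs_mul]
      exact mul_le_mul_of_nonneg_right h7 (abs_nonneg _)
    have h10 := (abs_le.1 (h8.trans h9)).2
    linarith
  · rw [sum_add_distrib, sum_const, card_range, nsmul_eq_mul]
    push_cast
    have e : ∑ i ∈ range (2 * n), (1 - Real.cos ((y0 * l ^ i + (Y - y0) * l0 ^ i) - 2 * (y0 * l ^ (i + 2) + (Y - y0) * l0 ^ (i + 2)))) =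
        En l (2 * n) y0 := by
      unfold En
      refine sum_congr rfl fun i _ => ?_
      congr 2
      rw [pow_add l0, l0_sq]
      ring
    rw [e] at hb2
    have hE := En_le l (2 * n) y0
    push_cast at hE
    have h11 : Real.exp (-(2 * n : ℝ) / 32) ≤ Real.exp (-En l (2 * n) y0 / 64) := Real.exp_le_exp.2 (by linarith)
    linarith

end Pool.Agent.H76.BC
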