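import Pool.Agent.H76.BC.Defs

/-!
# The multiscale estimate

Induction on `K`.  `K = 0`: the integral is `w ≤ 1` and `x = X` works (`En l 0 x = 0`).
Step: let `m = 2 n`, `L = (l⁻¹) ^ (m K)`, `0 ≤ w ≤ (l⁻¹) ^ (m (K + 1)) = L * (l⁻¹) ^ m ≤ L (2 ^ n + 1)`.  For `a : ℕ`, `a ≤ 2 ^ n`, let `X_a = min (X + a L) (X + w)`, so `X_0 = X`, `X_{2 ^ n + 1} = X + w` and `0 ≤ X_{a+1} - X_a ≤ L`.  By the induction hypothesis there is `x_a ∈ [X_a, X_{a+1}]` with
`∫ x in X_a..X_{a+1}, ∏ j < m K, psi ≤ 200 ^ K exp (- En l (m K) x_a / 64)`.  Let `x` be the `x_a` (`a ≤ 2 ^ n`) with the smallest `En l (m K) x_a` (`Finset.exists_min_image`).  Apply the block property with `Y = X * l ^ (m K)` and `y0 = x * l ^ (m K)` (`X ≤ x ≤ X + w`, so `Y ≤ y0 ≤ Y + (l⁻¹) ^ m`): numbers `b a`.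
For `y ∈ [X_a, X_{a+1}]`: `y * l ^ (m K)` is between `Y + a` and `Y + a + 1` unless the interval is degenerate (then the integral is `0`; if `X_a = X + w` the integral is `0 ≤ b a * ..`), so `∏ i < m, psi (y l ^ (m K) l ^ i) ≤ b a`.
`∏ j < m (K + 1), psi (y l ^ j) = (∏ j < m K, psi (y l ^ j)) * ∏ i < m, psi (y l ^ (m K) l ^ i)` (`Finset.prod_range_add`).  Sum over `a`: the integral is at most `∑ a, b a * 200 ^ K exp (- En l (m K) x_a / 64) ≤ 200 ^ K exp (- En l (m K) x / 64) * 200 exp (- En l m y0 / 64)`,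
and `En l (m K) x + En l m (x l ^ (m K)) = En l (m (K + 1)) x` (`Finset.sum_range_add`).
-/

set_option autoImplicit false

open Finset

namespace Pool.Agent.H76.BC

theorem multi {n : ℕ} {l : ℝ} (h : Blk n l) (K : ℕ) : ∀ X w : ℝ, 0 ≤ w → w ≤ (l⁻¹) ^ (2 * n * K) →
    ∃ x : ℝ, X ≤ x ∧ x ≤ X + w ∧
      ∫ y in X..(X + w), ∏ j ∈ range (2 * n * K), psi (y * l ^ j) ≤ 200 ^ K * Real.exp (-En l (2 * n * K) x / 64) := by
  obtain ⟨hl1, hl2, hl3, hl4, hblk⟩ := h
  have hl0 : 0 < l := by linarith
  have hcont : ∀ m : ℕ, Continuous fun y : ℝ => ∏ j ∈ range m, psi (y * l ^ j) := fun m =>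
    continuous_finsetProd _ fun j _ => continuous_psi.comp (continuous_id.mul continuous_const)
  induction K with
  | zero =>
    intro X w hw hw1
    refine ⟨X, le_rfl, by linarith, ?_⟩
    simp only [mul_zero, pow_zero, range_zero, prod_empty, En, sum_empty, neg_zero, zero_div, Real.exp_zero, mul_one] at hw1 ⊢
    simpa using hw1
  | succ K ih =>
    intro X w hw hw1
    set L : ℝ := (l⁻¹) ^ (2 * n * K) with hL
    have hLp : 0 < L := by positivity
    have hLl : L * l ^ (2 * n * K) = 1 := by rw [hL, inv_pow, inv_mul_cancel₀ (pow_ne_zero _ hl0.ne')]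
    have hw3 : w ≤ L * (l⁻¹) ^ (2 * n) := by
      have e : (l⁻¹) ^ (2 * n * (K + 1)) = L * (l⁻¹) ^ (2 * n) := by
        rw [hL, ← pow_add]
        ring_nf
      rwa [e] at hw1
    have hw2 : w ≤ L * (2 ^ n + 1) := hw3.trans (mul_le_mul_of_nonneg_left hl4 hLp.le)
    have hp : (0 : ℝ) < l ^ (2 * n * K) := by positivity
    let Xa : ℕ → ℝ := fun a => min (X + a * L) (X + w)
    have hXa : ∀ a, Xa a = min (X + a * L) (X + w) := fun a => rfl
    have hX0 : Xa 0 = X := by
      rw [hXa]
      push_cast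
      rw [zero_mul, add_zero]
      exact min_eq_left (by linarith)
    have hXM : Xa (2 ^ n + 1) = X + w := by
      rw [hXa]
      push_cast
      exact min_eq_right (by linarith)
    have hmono : ∀ a, Xa a ≤ Xa (a + 1) := fun a => by
      rw [hXa, hXa]
      exact min_le_min_right _ (by push_cast; linarith)
    have hstep : ∀ a, Xa (a + 1) - Xa a ≤ L := by
      intro a
      rw [hXa, hXa]
      rcases le_total (X + a * L) (X + w) with h1 | h1
      · rw [min_eq_left h1]
        have := min_le_left (X + (a + 1 : ℕ) * L) (X + w)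
        push_cast at *
        linarith
      · rw [min_eq_right h1]
        have := min_le_right (X + (a + 1 : ℕ) * L) (X + w)
        linarith
    have hIH : ∀ a, ∃ x, Xa a ≤ x ∧ x ≤ Xa (a + 1) ∧
        ∫ y in Xa a..Xa (a + 1), ∏ j ∈ range (2 * n * K), psi (y * l ^ j) ≤ 200 ^ K * Real.exp (-En l (2 * n * K) x / 64) := by
      intro a
      obtain ⟨x, h1, h2, h3⟩ := ih (Xa a) (Xa (a + 1) - Xa a) (sub_nonneg.2 (hmono a)) (hstep a)
      rw [add_sub_cancel] at h2 h3
      exact ⟨x, h1, h2, h3⟩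
    choose xa hxa1 hxa2 hxa3 using hIH
    obtain ⟨a0, ha0, hmin⟩ := exists_min_image (range (2 ^ n + 1)) (fun a => En l (2 * n * K) (xa a)) ⟨0, by simp⟩
    have hx1 : X ≤ xa a0 := by
      refine le_trans ?_ (hxa1 a0)
      rw [hXa]
      refine le_min ?_ (by linarith)
      have : (0 : ℝ) ≤ (a0 : ℝ) * L := by positivity
      linarith
    have hx2 : xa a0 ≤ X + w := (hxa2 a0).trans (by rw [hXa]; exact min_le_right _ _)
    have hY1 : X * l ^ (2 * n * K) ≤ xa a0 * l ^ (2 * n * K) := mul_le_mul_of_nonneg_right hx1 hp.le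
    have hY2 : xa a0 * l ^ (2 * n * K) ≤ X * l ^ (2 * n * K) + (l⁻¹) ^ (2 * n) := by
      have h1 : xa a0 * l ^ (2 * n * K) ≤ (X + L * (l⁻¹) ^ (2 * n)) * l ^ (2 * n * K) :=
        mul_le_mul_of_nonneg_right (by linarith) hp.le
      have e : (X + L * (l⁻¹) ^ (2 * n)) * l ^ (2 * n * K) = X * l ^ (2 * n * K) + (L * l ^ (2 * n * K)) * (l⁻¹) ^ (2 * n) := by ring
      rw [e, hLl, one_mul] at h1
      exact h1
    obtain ⟨b, hb0, hb1, hb2⟩ := hblk _ _ hY1 hY2
    refine ⟨xa a0, hx1, hx2, ?_⟩
    have hsplit : ∀ y : ℝ, ∏ j ∈ range (2 * n * (K + 1)), psi (y * l ^ j) =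
        (∏ j ∈ range (2 * n * K), psi (y * l ^ j)) * ∏ i ∈ range (2 * n), psi (y * l ^ (2 * n * K) * l ^ i) := by
      intro y
      rw [Nat.mul_succ, prod_range_add]
      congr 1
      refine prod_congr rfl fun i _ => ?_
      rw [pow_add]
      ring_nf
    have hEn : En l (2 * n * (K + 1)) (xa a0) = En l (2 * n * K) (xa a0) + En l (2 * n) (xa a0 * l ^ (2 * n * K)) := by
      unfold En
      rw [Nat.mul_succ, sum_range_add]
      congr 1
      refine sum_congr rfl fun i _ => ?_
      rw [pow_add]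
      ring_nf
    have hFc := hcont (2 * n * (K + 1))
    have hsum : ∫ y in X..(X + w), ∏ j ∈ range (2 * n * (K + 1)), psi (y * l ^ j) =
        ∑ a ∈ range (2 ^ n + 1), ∫ y in Xa a..Xa (a + 1), ∏ j ∈ range (2 * n * (K + 1)), psi (y * l ^ j) := by
      rw [intervalIntegral.sum_integral_adjacent_intervals fun a _ => hFc.intervalIntegrable _ _, hX0, hXM]
    rw [hsum]
    have hbd : ∀ a ∈ range (2 ^ n + 1), ∫ y in Xa a..Xa (a + 1), ∏ j ∈ range (2 * n * (K + 1)), psi (y * l ^ j) ≤
        b a * (200 ^ K * Real.exp (-En l (2 * n * K) (xa a0) / 64)) := by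
      intro a ha
      have ha' : a ≤ 2 ^ n := Nat.lt_succ_iff.1 (mem_range.1 ha)
      rcases le_total (X + a * L) (X + w) with h1 | h1
      · have hle : ∫ y in Xa a..Xa (a + 1), ∏ j ∈ range (2 * n * (K + 1)), psi (y * l ^ j) ≤
            ∫ y in Xa a..Xa (a + 1), b a * ∏ j ∈ range (2 * n * K), psi (y * l ^ j) := by
          refine intervalIntegral.integral_mono_on (hmono a) (hFc.intervalIntegrable _ _)
            ((continuous_const.mul (hcont _)).intervalIntegrable _ _) ?_
          intro y hy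
          rw [hsplit, mul_comm]
          refine mul_le_mul_of_nonneg_right ?_ (prod_nonneg fun i _ => psi_nonneg _)
          have hy1 : X + a * L ≤ y := by
            have := hy.1
            rwa [hXa, min_eq_left h1] at this
          have hy2 : y ≤ X + (a + 1) * L := by
            have := hy.2.trans ((hXa (a + 1)).le.trans (min_le_left _ _))
            push_cast at this
            exact this
          refine hb1 a ha' _ ?_ ?_
          · have h2 := mul_le_mul_of_nonneg_right hy1 hp.le
            have e : (X + a * L) * l ^ (2 * n * K) = X * l ^ (2 * n * K) + a * (L * l ^ (2 * n * K)) := by ring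
            rw [e, hLl, mul_one] at h2
            exact h2
          · have h2 := mul_le_mul_of_nonneg_right hy2 hp.le
            have e : (X + (a + 1) * L) * l ^ (2 * n * K) = X * l ^ (2 * n * K) + (a + 1) * (L * l ^ (2 * n * K)) := by ring
            rw [e, hLl, mul_one] at h2
            linarith
        refine hle.trans ?_
        rw [intervalIntegral.integral_const_mul]
        refine mul_le_mul_of_nonneg_left ((hxa3 a).trans ?_) (hb0 a)
        refine mul_le_mul_of_nonneg_left (Real.exp_le_exp.2 ?_) (by positivity)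
        have := hmin a ha
        linarith
      · have e1 : Xa a = X + w := by rw [hXa, min_eq_right h1]
        have e2 : Xa (a + 1) = X + w := by
          rw [hXa]
          refine min_eq_right ?_
          push_cast
          linarith
        rw [e1, e2, intervalIntegral.integral_same]
        exact mul_nonneg (hb0 a) (by positivity)
    refine (sum_le_sum hbd).trans ?_
    rw [← sum_mul]
    refine (mul_le_mul_of_nonneg_right hb2 (by positivity)).trans (le_of_eq ?_)
    rw [hEn, neg_add, add_div, Real.exp_add, pow_succ]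
    ring

end Pool.Agent.H76.BC
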