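import Pool.Agent.H76.BC.Fejer
import Pool.Agent.H76.BC.Multi

/-!
# Coincidences from the mean value of `exp (- τ En)`

Let `m = 2 n K`, `L = (l⁻¹) ^ m ≥ 1`, `c = 1/64`, `p = 64 τ ≥ 1`.  Choose `R : ℕ`, `R ≥ 1`, with `T = R L ≥ T0`.  `fejer` for `N` and `psi ≤ 1` (`m ≤ N`): `coll l N ≤ 4 ^ N * (2 / T) * ∫ x in 0..T, ∏ j < m, psi (x l ^ j)`.
Split `[0, T]` into the intervals `[r L, (r + 1) L]`, `r < R`; `multi` gives `x_r` in them with integral at most `200 ^ K exp (- E x_r / 64)`, `E = En l m`.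
Power mean (`Real.rpow_arith_mean_le_arith_mean_rpow`, weights `1 / R`, exponent `p`): `((1 / R) ∑ exp (- E x_r / 64)) ^ p ≤ (1 / R) ∑ exp (- τ E x_r)`.
`E` is Lipschitz with constant `|1 - 2 l²| ∑ l ^ j ≤ (1/4) / (1 - l) ≤ 1`; `[r L, (r + 1) L]` has length `≥ 1` and contains an interval of length `1` containing `x_r`, on which `E x ≤ E x_r + 1`, so `exp (- τ E x_r) ≤ exp τ * ∫ x in rL..(r+1)L, exp (- τ E x)`.
Hence `(1 / R) ∑ exp (- τ E x_r) ≤ exp τ * (1 / R) * ∫ x in 0..T, exp (- τ E) ≤ exp τ * L * Q`.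
Together: `coll l N ≤ 4 ^ N * (2 / (R L)) * 200 ^ K * R * (exp τ * L * Q) ^ (1 / p)`.
-/

set_option autoImplicit false

open Finset

namespace Pool.Agent.H76.BC

private theorem comb_cont (l : ℝ) (m : ℕ) : Continuous (fun x : ℝ => ∏ j ∈ range m, psi (x * l ^ j)) := by
  refine continuous_finsetProd _ fun j _ => ?_
  exact continuous_psi.comp (by fun_prop)

private theorem comb_En_cont (l : ℝ) (m : ℕ) : Continuous (fun x : ℝ => En l m x) := by
  unfold En
  fun_prop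

private theorem comb_lip {l : ℝ} (h0 : 1 / 2 < l) (h1 : l < 3 / 4) (h2 : |1 - 2 * l ^ 2| ≤ 1 / 4) (m : ℕ) (x y : ℝ) :
    En l m x ≤ En l m y + |x - y| := by
  have hl0 : 0 ≤ l := by linarith
  have hgeom : ∑ j ∈ range m, l ^ j ≤ 4 := by
    have hs := (summable_geometric_of_lt_one hl0 (by linarith : l < 1)).sum_le_tsum (range m)
      (fun j _ => pow_nonneg hl0 j)
    rw [tsum_geometric_of_lt_one hl0 (by linarith : l < 1)] at hs
    refine hs.trans ?_
    rw [inv_le_comm₀ (by linarith) (by norm_num)]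
    linarith
  have hterm : ∀ j ∈ range m, (1 - Real.cos ((1 - 2 * l ^ 2) * x * l ^ j)) ≤
      (1 - Real.cos ((1 - 2 * l ^ 2) * y * l ^ j)) + 1 / 4 * |x - y| * l ^ j := by
    intro j _
    have h3 := Real.abs_cos_sub_cos_le ((1 - 2 * l ^ 2) * y * l ^ j) ((1 - 2 * l ^ 2) * x * l ^ j)
    have h4 : |(1 - 2 * l ^ 2) * y * l ^ j - (1 - 2 * l ^ 2) * x * l ^ j| ≤ 1 / 4 * |x - y| * l ^ j := by
      have e : (1 - 2 * l ^ 2) * y * l ^ j - (1 - 2 * l ^ 2) * x * l ^ j = (1 - 2 * l ^ 2) * (y - x) * l ^ j := by ring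
      rw [e, abs_mul, abs_mul, abs_of_nonneg (pow_nonneg hl0 j), abs_sub_comm y x]
      exact mul_le_mul_of_nonneg_right (mul_le_mul_of_nonneg_right h2 (abs_nonneg _)) (pow_nonneg hl0 j)
    have h5 := le_abs_self (Real.cos ((1 - 2 * l ^ 2) * y * l ^ j) - Real.cos ((1 - 2 * l ^ 2) * x * l ^ j))
    linarith
  have hsum := Finset.sum_le_sum hterm
  rw [Finset.sum_add_distrib, ← Finset.mul_sum] at hsum
  have h6 : 1 / 4 * |x - y| * ∑ j ∈ range m, l ^ j ≤ |x - y| := by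
    have := abs_nonneg (x - y)
    nlinarith
  unfold En
  linarith

private theorem comb_unit {l τ : ℝ} (h0 : 1 / 2 < l) (h1 : l < 3 / 4) (h2 : |1 - 2 * l ^ 2| ≤ 1 / 4) (m : ℕ) (hτ : 0 ≤ τ)
    {a L x : ℝ} (hL : 1 ≤ L) (hx1 : a ≤ x) (hx2 : x ≤ a + L) :
    Real.exp (-(τ * En l m x)) ≤ Real.exp τ * ∫ y in a..(a + L), Real.exp (-(τ * En l m y)) := by
  have hc : Continuous (fun y : ℝ => Real.exp (-(τ * En l m y))) :=
    Real.continuous_exp.comp (continuous_const.mul (comb_En_cont l m)).neg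
  set c : ℝ := min x (a + L - 1) with hcdef
  have hc1 : a ≤ c := le_min hx1 (by linarith)
  have hc2 : c ≤ x := min_le_left _ _
  have hc3 : c ≤ a + L - 1 := min_le_right _ _
  have hc4 : x ≤ c + 1 := by
    rcases min_choice x (a + L - 1) with h | h
    · rw [hcdef, h]; linarith
    · rw [hcdef, h]; linarith
  have hlow : Real.exp (-(τ * En l m x) - τ) ≤ ∫ y in c..(c + 1), Real.exp (-(τ * En l m y)) := by
    have h3 : ∫ _ in c..(c + 1), Real.exp (-(τ * En l m x) - τ) = Real.exp (-(τ * En l m x) - τ) := by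
      rw [intervalIntegral.integral_const]
      simp
    rw [← h3]
    apply intervalIntegral.integral_mono_on (by linarith) (by simp) (hc.intervalIntegrable _ _)
    intro y hy
    apply Real.exp_le_exp.2
    have h4 := comb_lip h0 h1 h2 m y x
    have h5 : |y - x| ≤ 1 := by
      rw [abs_le]
      constructor <;> linarith [hy.1, hy.2]
    nlinarith
  have hmono : ∫ y in c..(c + 1), Real.exp (-(τ * En l m y)) ≤ ∫ y in a..(a + L), Real.exp (-(τ * En l m y)) := by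
    apply intervalIntegral.integral_mono_interval hc1 (by linarith) (by linarith)
    · exact Filter.Eventually.of_forall fun y => (Real.exp_pos _).le
    · exact hc.intervalIntegrable _ _
  have h6 : Real.exp (-(τ * En l m x)) = Real.exp τ * Real.exp (-(τ * En l m x) - τ) := by
    rw [← Real.exp_add]
    ring_nf
  rw [h6]
  exact mul_le_mul_of_nonneg_left (hlow.trans hmono) (Real.exp_pos _).le

theorem comb {n : ℕ} {l : ℝ} (h : Blk n l) (K : ℕ) {τ Q : ℝ} (hτ : 1 / 64 ≤ τ) (hQ : 0 < Q)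
    (hm : ∃ T0 : ℝ, 0 < T0 ∧ ∀ T : ℝ, T0 ≤ T → ∫ x in (0 : ℝ)..T, Real.exp (-(τ * En l (2 * n * K) x)) ≤ T * Q)
    {N : ℕ} (hN : 2 * n * K ≤ N) :
    (coll l N : ℝ) ≤ 4 ^ N * (2 * l ^ (2 * n * K) * 200 ^ K * (Real.exp τ * (l⁻¹) ^ (2 * n * K) * Q) ^ (1 / (64 * τ))) := by
  obtain ⟨h0, h1, h2, -, -⟩ := id h
  obtain ⟨T0, hT0, hT⟩ := hm
  have hl0 : 0 < l := by linarith
  set m : ℕ := 2 * n * K with hmdef
  set L : ℝ := (l⁻¹) ^ m with hLdef
  have hL1 : 1 ≤ L := one_le_pow₀ ((one_le_inv₀ hl0).2 (by linarith))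
  have hL0 : 0 < L := by linarith
  have hlL : l ^ m = L⁻¹ := by rw [hLdef, inv_pow, inv_inv]
  set R : ℕ := ⌈T0⌉₊ + 1 with hR
  have hR1 : (1 : ℝ) ≤ R := by rw [hR]; push_cast; linarith [Nat.cast_nonneg (α := ℝ) ⌈T0⌉₊]
  have hR0 : (0 : ℝ) < R := by linarith
  have hRT : T0 ≤ R * L := by
    have h3 : T0 ≤ R := by
      rw [hR]
      push_cast
      linarith [Nat.le_ceil T0]
    nlinarith
  have hTpos : 0 < (R : ℝ) * L := by positivity
  -- the points
  have hmul : ∀ r : ℕ, ∃ x : ℝ, (r : ℝ) * L ≤ x ∧ x ≤ r * L + L ∧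
      ∫ y in ((r : ℝ) * L)..(r * L + L), ∏ j ∈ range m, psi (y * l ^ j) ≤ 200 ^ K * Real.exp (-En l m x / 64) :=
    fun r => multi h K (r * L) L hL0.le le_rfl
  choose X hX1 hX2 hX3 using hmul
  have hpc := comb_cont l m
  have hcolls := coll_le l N hTpos
  -- from `N` to `m`
  have hint1 : ∫ x in (0 : ℝ)..(R * L), ∏ j ∈ range N, psi (x * l ^ j) ≤ ∫ x in (0 : ℝ)..(R * L), ∏ j ∈ range m, psi (x * l ^ j) := by
    apply intervalIntegral.integral_mono_on hTpos.le ((comb_cont l N).intervalIntegrable _ _) (hpc.intervalIntegrable _ _)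
    intro x _
    obtain ⟨d, rfl⟩ := Nat.exists_eq_add_of_le hN
    rw [Finset.prod_range_add]
    refine mul_le_of_le_one_right (Finset.prod_nonneg fun _ _ => psi_nonneg _) ?_
    exact Finset.prod_le_one (fun _ _ => psi_nonneg _) fun _ _ => psi_le_one _
  have hsplit : ∀ f : ℝ → ℝ, Continuous f →
      ∑ r ∈ range R, ∫ x in ((r : ℝ) * L)..(r * L + L), f x = ∫ x in (0 : ℝ)..(R * L), f x := by
    intro f hf
    have h3 := intervalIntegral.sum_integral_adjacent_intervals (μ := MeasureTheory.volume) (f := f)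
      (a := fun r : ℕ => (r : ℝ) * L) (n := R) (fun k _ => hf.intervalIntegrable _ _)
    simp only [Nat.cast_zero, zero_mul] at h3
    rw [← h3]
    refine Finset.sum_congr rfl fun r _ => ?_
    push_cast
    congr 1
    ring
  have hint2 : ∫ x in (0 : ℝ)..(R * L), ∏ j ∈ range m, psi (x * l ^ j) ≤
      ∑ r ∈ range R, 200 ^ K * Real.exp (-En l m (X r) / 64) := by
    rw [← hsplit _ hpc]
    exact Finset.sum_le_sum fun r _ => hX3 r
  -- power mean
  set p : ℝ := 64 * τ with hp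
  have hp1 : 1 ≤ p := by rw [hp]; linarith
  have hp0 : 0 < p := by linarith
  have hpm := Real.rpow_arith_mean_le_arith_mean_rpow (range R) (fun _ => (R : ℝ)⁻¹)
    (fun r => Real.exp (-En l m (X r) / 64)) (fun _ _ => by positivity)
    (by rw [Finset.sum_const, Finset.card_range, nsmul_eq_mul, mul_inv_cancel₀ hR0.ne'])
    (fun _ _ => (Real.exp_pos _).le) hp1
  have hpow : ∀ r, Real.exp (-En l m (X r) / 64) ^ p = Real.exp (-(τ * En l m (X r))) := by
    intro r
    rw [← Real.exp_mul, hp]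
    congr 1
    ring
  simp only [hpow, ← Finset.mul_sum] at hpm
  have hsumE : ∑ r ∈ range R, Real.exp (-(τ * En l m (X r))) ≤ Real.exp τ * (R * L * Q) := by
    have hcE : Continuous (fun y : ℝ => Real.exp (-(τ * En l m y))) :=
      Real.continuous_exp.comp (continuous_const.mul (comb_En_cont l m)).neg
    calc ∑ r ∈ range R, Real.exp (-(τ * En l m (X r)))
        ≤ ∑ r ∈ range R, Real.exp τ * ∫ y in ((r : ℝ) * L)..(r * L + L), Real.exp (-(τ * En l m y)) :=
          Finset.sum_le_sum fun r _ => comb_unit h0 h1 h2 m (by linarith) hL1 (hX1 r) (hX2 r)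
      _ = Real.exp τ * ∫ y in (0 : ℝ)..(R * L), Real.exp (-(τ * En l m y)) := by
          rw [← Finset.mul_sum, hsplit _ hcE]
      _ ≤ Real.exp τ * (R * L * Q) := mul_le_mul_of_nonneg_left (hT _ hRT) (Real.exp_pos _).le
  have hS0 : 0 ≤ (R : ℝ)⁻¹ * ∑ r ∈ range R, Real.exp (-En l m (X r) / 64) :=
    mul_nonneg (by positivity) (Finset.sum_nonneg fun _ _ => (Real.exp_pos _).le)
  have hmean : (R : ℝ)⁻¹ * ∑ r ∈ range R, Real.exp (-En l m (X r) / 64) ≤ (Real.exp τ * L * Q) ^ (1 / p) := by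
    have h3 : ((R : ℝ)⁻¹ * ∑ r ∈ range R, Real.exp (-En l m (X r) / 64)) ^ p ≤ Real.exp τ * L * Q := by
      refine hpm.trans ?_
      calc (R : ℝ)⁻¹ * ∑ r ∈ range R, Real.exp (-(τ * En l m (X r)))
          ≤ (R : ℝ)⁻¹ * (Real.exp τ * (R * L * Q)) := mul_le_mul_of_nonneg_left hsumE (by positivity)
        _ = Real.exp τ * L * Q := by field_simp
    have h4 := Real.rpow_le_rpow (Real.rpow_nonneg hS0 p) h3 (by positivity : 0 ≤ 1 / p)
    rwa [← Real.rpow_mul hS0, mul_one_div_cancel hp0.ne', Real.rpow_one] at h4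
  refine hcolls.trans (mul_le_mul_of_nonneg_left ?_ (by positivity))
  calc 2 / (R * L) * ∫ x in (0 : ℝ)..(R * L), ∏ j ∈ range N, psi (x * l ^ j)
      ≤ 2 / (R * L) * ∑ r ∈ range R, 200 ^ K * Real.exp (-En l m (X r) / 64) :=
        mul_le_mul_of_nonneg_left (hint1.trans hint2) (by positivity)
    _ = 2 * l ^ m * 200 ^ K * ((R : ℝ)⁻¹ * ∑ r ∈ range R, Real.exp (-En l m (X r) / 64)) := by
        rw [← Finset.mul_sum, hlL]
        field_simp
    _ ≤ 2 * l ^ m * 200 ^ K * (Real.exp τ * L * Q) ^ (1 / p) :=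
        mul_le_mul_of_nonneg_left hmean (by positivity)

end Pool.Agent.H76.BC
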