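import Mathlib

/-!
# Bernoulli convolutions near `1/√2`: definitions

`psum l ε` is the partial sum `∑ ± l ^ i`, `coll l n` the number of coincidences among the `2 ^ n` partial sums, `prob`, `entropy`
the law and the Shannon entropy of the partial sum.  `En l n x` is the energy of the multiscale argument.
-/

set_option autoImplicit false

open Finset

namespace Pool.Agent.H76.BC

/-- `1 / √2` -/
noncomputable def l0 : ℝ := (√2)⁻¹

/-- the partial sum `∑ ± l ^ i` of length `n` with the signs `ε` (`true` is `+`) -/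
noncomputable def psum (l : ℝ) {n : ℕ} (ε : Fin n → Bool) : ℝ := ∑ i, (if ε i then (1 : ℝ) else -1) * l ^ (i : ℕ)

/-- the number of pairs of sign sequences of length `n` with the same partial sum -/
noncomputable def coll (l : ℝ) (n : ℕ) : ℕ :=
  (univ.filter fun p : (Fin n → Bool) × (Fin n → Bool) => psum l p.1 = psum l p.2).card

/-- the probability that the random partial sum of length `n` (fair independent signs) is `x` -/
noncomputable def prob (l : ℝ) (n : ℕ) (x : ℝ) : ℝ := ((univ.filter fun ε : Fin n → Bool => psum l ε = x).card : ℝ) / 2 ^ n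

/-- the Shannon entropy of the random partial sum of length `n` -/
noncomputable def entropy (l : ℝ) (n : ℕ) : ℝ :=
  ∑ x ∈ univ.image (fun ε : Fin n → Bool => psum l ε), Real.negMulLog (prob l n x)

/-- `cos² (t / 2)` -/
noncomputable def psi (t : ℝ) : ℝ := Real.cos (t / 2) ^ 2

/-- the energy -/
noncomputable def En (l : ℝ) (n : ℕ) (x : ℝ) : ℝ := ∑ j ∈ range n, (1 - Real.cos ((1 - 2 * l ^ 2) * x * l ^ j))

/-- the block property: `2 * n` is the length of a block -/
def Blk (n : ℕ) (l : ℝ) : Prop :=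
  1 / 2 < l ∧ l < 3 / 4 ∧ |1 - 2 * l ^ 2| ≤ 1 / 4 ∧ (l⁻¹) ^ (2 * n) ≤ 2 ^ n + 1 ∧
    ∀ Y y0 : ℝ, Y ≤ y0 → y0 ≤ Y + (l⁻¹) ^ (2 * n) →
      ∃ b : ℕ → ℝ, (∀ a, 0 ≤ b a) ∧
        (∀ a : ℕ, a ≤ 2 ^ n → ∀ y : ℝ, Y + a ≤ y → y ≤ Y + a + 1 → ∏ i ∈ range (2 * n), psi (y * l ^ i) ≤ b a) ∧
        ∑ a ∈ range (2 ^ n + 1), b a ≤ 200 * Real.exp (-En l (2 * n) y0 / 64)

/-- the complex roots in the open unit disc -/
noncomputable def rin (P : Polynomial ℤ) : Multiset ℂ := (P.map (Int.castRingHom ℂ)).roots.filter fun r => ‖r‖ < 1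

/-- the product of `1 / |r|` over the complex roots in the open unit disc (for a monic polynomial with constant coefficient `± 1`
this is the Mahler measure) -/
noncomputable def MM (P : Polynomial ℤ) : ℝ := ((rin P).map fun r => ‖r‖⁻¹).prod

theorem psi_nonneg (t : ℝ) : 0 ≤ psi t := sq_nonneg _

theorem psi_le_one (t : ℝ) : psi t ≤ 1 := Real.cos_sq_le_one _

theorem psi_eq (t : ℝ) : psi t = (1 + Real.cos t) / 2 := by
  have := Real.cos_sq (t / 2)
  rw [mul_div_cancel₀ _ (two_ne_zero)] at this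
  rw [psi, this]
  ring

theorem continuous_psi : Continuous psi := by
  unfold psi
  fun_prop

theorem l0_sq : l0 ^ 2 = 1 / 2 := by
  rw [l0, inv_pow, Real.sq_sqrt (by norm_num)]
  norm_num

theorem l0_pos : 0 < l0 := inv_pos.2 (Real.sqrt_pos.2 two_pos)

theorem l0_bounds : 0.7071067 < l0 ∧ l0 < 0.7071068 := by
  have h := l0_sq
  have h0 := l0_pos
  constructor <;> nlinarith

theorem En_nonneg (l : ℝ) (n : ℕ) (x : ℝ) : 0 ≤ En l n x :=
  Finset.sum_nonneg fun _ _ => sub_nonneg.2 (Real.cos_le_one _)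

end Pool.Agent.H76.BC
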