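import Pool.Agent.H76.BC.Defs

/-!
# Entropy and coincidences

* `coll_eq`: `coll l n / 4 ^ n = ∑ x ∈ image, (prob l n x) ^ 2` (count the pairs by the common value: `Finset.card_eq_sum_card_fiberwise`), `∑ x ∈ image, prob l n x = 1`, `prob > 0` on the image.
* `entropy_ge`: Jensen for the concave `log`: `∑ p_x log p_x ≤ log (∑ p_x p_x)` (`ConcaveOn.le_map_sum` with `strictConcaveOn_log_Ioi`), so `entropy = - ∑ p log p ≥ - log (coll / 4 ^ n)`.
* `coll_pos`: the diagonal.
-/

set_option autoImplicit false

open Finset

namespace Pool.Agent.H76.BC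

theorem coll_pos (l : ℝ) (n : ℕ) : 0 < coll l n := by
  unfold coll
  exact Finset.card_pos.2 ⟨(fun _ => true, fun _ => true), by simp⟩

private theorem Ent_coll_eq (l : ℝ) (n : ℕ) : (coll l n : ℝ) =
    ∑ x ∈ univ.image (fun ε : Fin n → Bool => psum l ε),
      ((univ.filter fun ε : Fin n → Bool => psum l ε = x).card : ℝ) ^ 2 := by
  classical
  have h1 : coll l n = ∑ x ∈ univ.image (fun ε : Fin n → Bool => psum l ε),
      ((univ.filter fun p : (Fin n → Bool) × (Fin n → Bool) => psum l p.1 = psum l p.2).filter
        fun p => psum l p.1 = x).card := by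
    unfold coll
    apply Finset.card_eq_sum_card_fiberwise
    intro p _
    exact Finset.mem_coe.2 (Finset.mem_image_of_mem _ (Finset.mem_univ _))
  rw [h1]
  push_cast
  refine Finset.sum_congr rfl fun x _ => ?_
  have h2 : ((univ.filter fun p : (Fin n → Bool) × (Fin n → Bool) => psum l p.1 = psum l p.2).filter
        fun p => psum l p.1 = x) = (univ.filter fun ε : Fin n → Bool => psum l ε = x) ×ˢ
        (univ.filter fun ε : Fin n → Bool => psum l ε = x) := by
    ext p
    simp only [Finset.mem_filter, Finset.mem_univ, true_and, Finset.mem_product]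
    constructor
    · rintro ⟨h, h'⟩
      exact ⟨h', h ▸ h'⟩
    · rintro ⟨h, h'⟩
      exact ⟨h.trans h'.symm, h⟩
  rw [h2, Finset.card_product]
  push_cast
  ring

private theorem Ent_sum_prob (l : ℝ) (n : ℕ) :
    ∑ x ∈ univ.image (fun ε : Fin n → Bool => psum l ε), prob l n x = 1 := by
  classical
  unfold prob
  rw [← Finset.sum_div]
  have h : (∑ x ∈ univ.image (fun ε : Fin n → Bool => psum l ε),
      ((univ.filter fun ε : Fin n → Bool => psum l ε = x).card : ℝ)) = 2 ^ n := by
    have h1 : (univ : Finset (Fin n → Bool)).card =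
        ∑ x ∈ univ.image (fun ε : Fin n → Bool => psum l ε),
          (univ.filter fun ε : Fin n → Bool => psum l ε = x).card := by
      apply Finset.card_eq_sum_card_fiberwise
      intro p _
      exact Finset.mem_coe.2 (Finset.mem_image_of_mem _ (Finset.mem_univ _))
    have h2 : (univ : Finset (Fin n → Bool)).card = 2 ^ n := by
      rw [Finset.card_univ]
      simp
    rw [h2] at h1
    exact_mod_cast h1.symm
  rw [h]
  exact div_self (by positivity)

private theorem Ent_prob_pos (l : ℝ) (n : ℕ) (x : ℝ)
    (hx : x ∈ univ.image (fun ε : Fin n → Bool => psum l ε)) : 0 < prob l n x := by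
  classical
  obtain ⟨ε, -, rfl⟩ := Finset.mem_image.1 hx
  unfold prob
  have : 0 < (univ.filter fun δ : Fin n → Bool => psum l δ = psum l ε).card :=
    Finset.card_pos.2 ⟨ε, by simp⟩
  have h : (0 : ℝ) < (univ.filter fun δ : Fin n → Bool => psum l δ = psum l ε).card := by
    exact_mod_cast this
  positivity

theorem entropy_ge (l : ℝ) (n : ℕ) : -Real.log ((coll l n : ℝ) / 4 ^ n) ≤ entropy l n := by
  classical
  set s := univ.image (fun ε : Fin n → Bool => psum l ε) with hs
  have hc : (coll l n : ℝ) / 4 ^ n = ∑ x ∈ s, prob l n x * prob l n x := by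
    rw [Ent_coll_eq, Finset.sum_div]
    refine Finset.sum_congr rfl fun x _ => ?_
    unfold prob
    have : (4 : ℝ) ^ n = 2 ^ n * 2 ^ n := by rw [← mul_pow]; norm_num
    rw [this]
    field_simp
  have hJ : ∑ x ∈ s, prob l n x * Real.log (prob l n x) ≤
      Real.log (∑ x ∈ s, prob l n x * prob l n x) := by
    have h := strictConcaveOn_log_Ioi.concaveOn.le_map_sum (t := s) (w := fun x => prob l n x)
      (p := fun x => prob l n x) (fun x hx => (Ent_prob_pos l n x hx).le) (Ent_sum_prob l n)
      (fun x hx => Ent_prob_pos l n x hx)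
    simpa only [smul_eq_mul] using h
  rw [hc]
  unfold entropy
  have h3 : ∑ x ∈ s, Real.negMulLog (prob l n x) = -∑ x ∈ s, prob l n x * Real.log (prob l n x) := by
    rw [← Finset.sum_neg_distrib]
    refine Finset.sum_congr rfl fun x _ => ?_
    rw [Real.negMulLog]
    ring
  rw [← hs, h3]
  linarith

/-- no coincidences -/
theorem coll_triv {l : ℝ} {n : ℕ} (h : ∀ a b : Fin n → Bool, psum l a = psum l b → a = b) : coll l n = 2 ^ n := by
  classical
  unfold coll
  have h1 : (univ.filter fun p : (Fin n → Bool) × (Fin n → Bool) => psum l p.1 = psum l p.2) =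
      univ.image (fun a : Fin n → Bool => (a, a)) := by
    ext p
    simp only [Finset.mem_filter, Finset.mem_univ, true_and, Finset.mem_image]
    constructor
    · intro hp
      exact ⟨p.1, Prod.ext rfl (h _ _ hp)⟩
    · rintro ⟨a, rfl⟩
      rfl
  rw [h1, Finset.card_image_of_injective _ (fun a b hab => (Prod.mk.inj hab).1), Finset.card_univ]
  simp

end Pool.Agent.H76.BC
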