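import Pool.Agent.H76.BC.Defs

/-!
# The number of coincidences is at most a mean value

For a pair `p` of sign sequences let `d p = (psum l p.1 - psum l p.2) / 2 = ∑ η_j l ^ j`, `η_j ∈ {-1, 0, 1}`.

1. `∏ j ∈ range n, psi (x * l ^ j) = (∑ p, cos (x * d p)) / 4 ^ n`.  Proof: over `ℂ`: `psi t = (1 + e^{it}) (1 + e^{-it}) / 4 = (1 / 4) ∑_{a, b : Bool} e^{i ([a] - [b]) t}`; the product over `j : Fin n` is the sum over
   `(Fin n → Bool) × (Fin n → Bool)` (`Finset.prod_univ_sum`, `Fintype.piFinset_univ`) of the exponentials of `i x ∑ ([a j] - [b j]) l ^ j = i x d p`; take real parts.  (Or induction on `n`.)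
2. For all real `y` and `T > 0`: `0 ≤ ∫ x in 0..T, (1 - x / T) * cos (x * y)`, and this is `T / 2` for `y = 0`.  For `y ≠ 0` it is `(1 - cos (T y)) / (T y ^ 2)` (an antiderivative is `(1 - x / T) sin (x y) / y - cos (x y) / (T y ^ 2)`).
3. `coll l n * (T / 2) ≤ ∑ p, ∫ x in 0..T, (1 - x / T) * cos (x * d p) = 4 ^ n * ∫ x in 0..T, (1 - x / T) * ∏ psi ≤ 4 ^ n * ∫ x in 0..T, ∏ psi`.
-/

set_option autoImplicit false

open Finset

namespace Pool.Agent.H76.BC

/-- half the difference of the partial sums -/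
noncomputable def dpair (l : ℝ) {n : ℕ} (p : (Fin n → Bool) × (Fin n → Bool)) : ℝ := (psum l p.1 - psum l p.2) / 2

/-- the exponential sum over the sign sequences is a product of cosines -/
theorem sum_exp_psum (l : ℝ) (n : ℕ) (x : ℝ) :
    ∑ ε : Fin n → Bool, Complex.exp (((x * psum l ε / 2 : ℝ) : ℂ) * Complex.I) =
      ((∏ j : Fin n, (2 * Real.cos (x * l ^ (j : ℕ) / 2)) : ℝ) : ℂ) := by
  have h1 : ∀ j : Fin n, ((2 * Real.cos (x * l ^ (j : ℕ) / 2) : ℝ) : ℂ) =
      ∑ b : Bool, Complex.exp (((x * ((if b then (1 : ℝ) else -1) * l ^ (j : ℕ)) / 2 : ℝ) : ℂ) * Complex.I) := by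
    intro j
    rw [Fintype.sum_bool]
    push_cast
    rw [Complex.cos]
    have e1 : (x : ℂ) * (1 * (l : ℂ) ^ (j : ℕ)) / 2 * Complex.I = x * (l : ℂ) ^ (j : ℕ) / 2 * Complex.I := by ring
    have e2 : (x : ℂ) * (-1 * (l : ℂ) ^ (j : ℕ)) / 2 * Complex.I = -(x * (l : ℂ) ^ (j : ℕ) / 2) * Complex.I := by ring
    simp only [if_true, Complex.ofReal_one]
    rw [e1, e2]
    ring
  rw [Complex.ofReal_prod, Finset.prod_congr rfl fun j _ => h1 j, Finset.prod_univ_sum, Fintype.piFinset_univ]
  refine Finset.sum_congr rfl fun ε _ => ?_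
  rw [← Complex.exp_sum]
  congr 1
  rw [← Finset.sum_mul]
  congr 1
  rw [← Complex.ofReal_sum]
  congr 1
  rw [psum, Finset.mul_sum, Finset.sum_div]

theorem sum_cos_dpair (l : ℝ) (n : ℕ) (x : ℝ) :
    ∑ p : (Fin n → Bool) × (Fin n → Bool), Real.cos (x * dpair l p) = 4 ^ n * ∏ j ∈ range n, psi (x * l ^ j) := by
  have h := sum_exp_psum l n x
  have hre := congrArg Complex.re h
  have him := congrArg Complex.im h
  rw [Complex.re_sum, Complex.ofReal_re] at hre
  rw [Complex.im_sum, Complex.ofReal_im] at him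
  simp only [Complex.exp_ofReal_mul_I_re] at hre
  simp only [Complex.exp_ofReal_mul_I_im] at him
  have e1 : ∀ p : (Fin n → Bool) × (Fin n → Bool), Real.cos (x * dpair l p) =
      Real.cos (x * psum l p.1 / 2) * Real.cos (x * psum l p.2 / 2) +
        Real.sin (x * psum l p.1 / 2) * Real.sin (x * psum l p.2 / 2) := by
    intro p
    rw [← Real.cos_sub]
    congr 1
    rw [dpair]
    ring
  rw [Finset.sum_congr rfl fun p _ => e1 p, Finset.sum_add_distrib, Fintype.sum_prod_type, Fintype.sum_prod_type]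
  simp only []
  rw [← Finset.sum_mul_sum, ← Finset.sum_mul_sum, hre, him, mul_zero, add_zero, ← Finset.prod_mul_distrib,
    ← Fin.prod_univ_eq_prod_range (fun j => psi (x * l ^ j)) n]
  have e2 : (4 : ℝ) ^ n = ∏ _j : Fin n, (4 : ℝ) := by simp
  rw [e2, ← Finset.prod_mul_distrib]
  refine Finset.prod_congr rfl fun j _ => ?_
  rw [psi]
  ring

theorem fejer_nonneg {T : ℝ} (hT : 0 < T) (y : ℝ) : 0 ≤ ∫ x in (0 : ℝ)..T, (1 - x / T) * Real.cos (x * y) := by
  rcases eq_or_ne y 0 with rfl | hy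
  · refine intervalIntegral.integral_nonneg hT.le fun x hx => ?_
    rw [mul_zero, Real.cos_zero, mul_one, sub_nonneg]
    exact (div_le_one hT).2 hx.2
  · have hd : ∀ x ∈ Set.uIcc (0 : ℝ) T, HasDerivAt (fun x : ℝ => (1 - x / T) * Real.sin (x * y) / y - Real.cos (x * y) / (T * y ^ 2))
        ((1 - x / T) * Real.cos (x * y)) x := by
      intro x _
      have h0 : HasDerivAt (fun x : ℝ => x * y) y x := by simpa using (hasDerivAt_id x).mul_const y
      have h1 : HasDerivAt (fun x : ℝ => 1 - x / T) (-(1 / T)) x := by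
        simpa using ((hasDerivAt_id x).div_const T).const_sub 1
      have h2 := (h1.mul h0.sin).div_const y
      have h3 := h0.cos.div_const (T * y ^ 2)
      refine (h2.sub h3).congr_deriv ?_
      field_simp
      ring
    have hi : IntervalIntegrable (fun x : ℝ => (1 - x / T) * Real.cos (x * y)) MeasureTheory.volume 0 T := by
      apply Continuous.intervalIntegrable
      fun_prop
    rw [intervalIntegral.integral_eq_sub_of_hasDerivAt hd hi]
    have hpos : 0 < T * y ^ 2 := by positivity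
    rw [div_self hT.ne', sub_self, zero_mul, zero_div, zero_sub, zero_mul, Real.sin_zero, mul_zero, zero_div, zero_sub,
      Real.cos_zero, sub_neg_eq_add, neg_add_eq_sub, ← sub_div]
    exact div_nonneg (sub_nonneg.2 (Real.cos_le_one _)) hpos.le

theorem fejer_zero {T : ℝ} (hT : 0 < T) : ∫ x in (0 : ℝ)..T, (1 - x / T) * Real.cos (x * 0) = T / 2 := by
  simp only [mul_zero, Real.cos_zero, mul_one]
  rw [intervalIntegral.integral_sub (by simp) (by apply Continuous.intervalIntegrable; fun_prop)]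
  rw [intervalIntegral.integral_div, integral_id, intervalIntegral.integral_const]
  field_simp
  ring

theorem coll_le (l : ℝ) (n : ℕ) {T : ℝ} (hT : 0 < T) :
    (coll l n : ℝ) ≤ 4 ^ n * (2 / T * ∫ x in (0 : ℝ)..T, ∏ j ∈ range n, psi (x * l ^ j)) := by
  have h1 : (coll l n : ℝ) * (T / 2) ≤
      ∑ p : (Fin n → Bool) × (Fin n → Bool), ∫ x in (0 : ℝ)..T, (1 - x / T) * Real.cos (x * dpair l p) := by
    calc (coll l n : ℝ) * (T / 2) =
        ∑ p ∈ univ.filter (fun p : (Fin n → Bool) × (Fin n → Bool) => psum l p.1 = psum l p.2),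
          ∫ x in (0 : ℝ)..T, (1 - x / T) * Real.cos (x * dpair l p) := by
          have : ∀ p ∈ univ.filter (fun p : (Fin n → Bool) × (Fin n → Bool) => psum l p.1 = psum l p.2),
              ∫ x in (0 : ℝ)..T, (1 - x / T) * Real.cos (x * dpair l p) = T / 2 := by
            intro p hp
            have hd : dpair l p = 0 := by
              rw [dpair, (Finset.mem_filter.1 hp).2, sub_self, zero_div]
            rw [hd]
            exact fejer_zero hT
          rw [Finset.sum_congr rfl this, Finset.sum_const, nsmul_eq_mul, coll]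
      _ ≤ _ := Finset.sum_le_sum_of_subset_of_nonneg (Finset.filter_subset _ _) fun p _ _ => fejer_nonneg hT _
  have h2 : ∑ p : (Fin n → Bool) × (Fin n → Bool), ∫ x in (0 : ℝ)..T, (1 - x / T) * Real.cos (x * dpair l p) =
      ∫ x in (0 : ℝ)..T, (1 - x / T) * (4 ^ n * ∏ j ∈ range n, psi (x * l ^ j)) := by
    rw [← intervalIntegral.integral_finsetSum]
    · refine intervalIntegral.integral_congr fun x _ => ?_
      rw [← Finset.mul_sum, sum_cos_dpair]
    · intro p _
      apply Continuous.intervalIntegrable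
      fun_prop
  have hcp : Continuous fun x : ℝ => ∏ j ∈ range n, psi (x * l ^ j) :=
    continuous_finsetProd _ fun j _ => continuous_psi.comp (by fun_prop)
  have h3 : ∫ x in (0 : ℝ)..T, (1 - x / T) * (4 ^ n * ∏ j ∈ range n, psi (x * l ^ j)) ≤
      ∫ x in (0 : ℝ)..T, 4 ^ n * ∏ j ∈ range n, psi (x * l ^ j) := by
    refine intervalIntegral.integral_mono_on hT.le ?_ ?_ fun x hx => ?_
    · exact ((continuous_const.sub (continuous_id.div_const T)).mul (continuous_const.mul hcp)).intervalIntegrable _ _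
    · exact (continuous_const.mul hcp).intervalIntegrable _ _
    · have hp : (0 : ℝ) ≤ 4 ^ n * ∏ j ∈ range n, psi (x * l ^ j) :=
        mul_nonneg (by positivity) (Finset.prod_nonneg fun j _ => psi_nonneg _)
      have hx0 : 0 ≤ x / T := div_nonneg hx.1 hT.le
      nlinarith
  rw [intervalIntegral.integral_const_mul] at h3
  have h4 : (coll l n : ℝ) * (T / 2) ≤ 4 ^ n * ∫ x in (0 : ℝ)..T, ∏ j ∈ range n, psi (x * l ^ j) :=
    h1.trans (h2.le.trans h3)
  have h5 : (coll l n : ℝ) = (coll l n : ℝ) * (T / 2) * (2 / T) := by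
    field_simp
  rw [h5]
  calc (coll l n : ℝ) * (T / 2) * (2 / T) ≤ (4 ^ n * ∫ x in (0 : ℝ)..T, ∏ j ∈ range n, psi (x * l ^ j)) * (2 / T) :=
        mul_le_mul_of_nonneg_right h4 (by positivity)
    _ = _ := by ring

end Pool.Agent.H76.BC
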