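import Pool.Agent.H76.BC.Defs

/-!
# The finite search

`F 0 = l`, `F (k + 1) = l (a (k + 1) + F k) - a k` with integers `a k`, `a 0 = 1`, `|l - 1/√2| < 1e-6`, `∑_{k ≤ 11} (F k)² ≤ 1.01`.  Then `a 1 = ... = a 11 = 0`.
The search is done with integer interval arithmetic (scale `10 ^ 9`) and kernel evaluation.
-/

set_option autoImplicit false

open Finset

namespace Pool.Agent.H76.BC

/-- the lower bound of the next value (scaled) -/
def treeLo (ak x b : ℤ) : ℤ :=
  (if 0 ≤ b * 1000000000 + x then 707105700 * (b * 1000000000 + x)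
    else 707107800 * (b * 1000000000 + x)) / 1000000000 - ak * 1000000000

/-- the upper bound of the next value (scaled) -/
def treeHi (ak y b : ℤ) : ℤ :=
  -((-(if 0 ≤ b * 1000000000 + y then 707107800 * (b * 1000000000 + y)
    else 707105700 * (b * 1000000000 + y))) / 1000000000) - ak * 1000000000

/-- a lower bound of the square (scaled) -/
def treeSq (x y : ℤ) : ℤ :=
  if 0 < x then x * x / 1000000000 else if y < 0 then y * y / 1000000000 else 0

/-- the search -/
def treeSrch : ℕ → ℤ → ℤ → ℤ → ℤ → Bool → Bool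
  | 0, _, _, _, _, z => z
  | n + 1, ak, x, y, e, z => (decide (-20 ≤ ak) && decide (ak ≤ 20)) &&
      [0, 1, 2, 3, 4, 5].all fun i : ℤ =>
        decide (1010000000 < e + treeSq (treeLo ak x (ak * 1414214 / 1000000 - 2 + i))
          (treeHi ak y (ak * 1414214 / 1000000 - 2 + i))) ||
        treeSrch n (ak * 1414214 / 1000000 - 2 + i)
          (treeLo ak x (ak * 1414214 / 1000000 - 2 + i))
          (treeHi ak y (ak * 1414214 / 1000000 - 2 + i))
          (e + treeSq (treeLo ak x (ak * 1414214 / 1000000 - 2 + i))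
            (treeHi ak y (ak * 1414214 / 1000000 - 2 + i)))
          (z && decide (ak * 1414214 / 1000000 - 2 + i = 0))

theorem tree_run : treeSrch 11 1 707105700 707107800 (treeSq 707105700 707107800) true = true := by
  decide +kernel

theorem tree_div_le (m : ℤ) : ((m / 1000000000 : ℤ) : ℝ) ≤ (m : ℝ) / 1000000000 := by
  have h : m / 1000000000 * 1000000000 ≤ m := Int.ediv_mul_le m (by norm_num)
  have h2 : ((m / 1000000000 : ℤ) : ℝ) * 1000000000 ≤ m := by exact_mod_cast h
  rw [le_div_iff₀ (by norm_num)]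
  exact h2

theorem tree_lo {l F : ℝ} (h1 : (707105700 : ℝ) ≤ 1000000000 * l) (h2 : 1000000000 * l ≤ 707107800)
    (ak x b : ℤ) (hx : (x : ℝ) ≤ 1000000000 * F) :
    ((treeLo ak x b : ℤ) : ℝ) ≤ 1000000000 * (l * (b + F) - ak) := by
  unfold treeLo
  have hl : 0 < l := by linarith
  have hg : l * ((b : ℝ) * 1000000000 + x) ≤ l * (b * 1000000000 + 1000000000 * F) :=
    mul_le_mul_of_nonneg_left (by linarith) hl.le
  push_cast
  split_ifs with h
  · have h3 := tree_div_le (707105700 * (b * 1000000000 + x))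
    have h4 : (0 : ℝ) ≤ (b : ℝ) * 1000000000 + x := by exact_mod_cast h
    push_cast at h3
    have h5 : 707105700 * ((b : ℝ) * 1000000000 + x) / 1000000000 ≤
        l * ((b : ℝ) * 1000000000 + x) := by
      rw [div_le_iff₀ (by norm_num)]
      nlinarith
    linarith
  · have h3 := tree_div_le (707107800 * (b * 1000000000 + x))
    have h4 : (b : ℝ) * 1000000000 + x ≤ 0 := by
      rw [not_le] at h
      exact_mod_cast h.le
    push_cast at h3
    have h5 : 707107800 * ((b : ℝ) * 1000000000 + x) / 1000000000 ≤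
        l * ((b : ℝ) * 1000000000 + x) := by
      rw [div_le_iff₀ (by norm_num)]
      nlinarith
    linarith

theorem tree_hi {l F : ℝ} (h1 : (707105700 : ℝ) ≤ 1000000000 * l) (h2 : 1000000000 * l ≤ 707107800)
    (ak y b : ℤ) (hy : 1000000000 * F ≤ (y : ℝ)) :
    1000000000 * (l * (b + F) - ak) ≤ ((treeHi ak y b : ℤ) : ℝ) := by
  unfold treeHi
  have hl : 0 < l := by linarith
  have hg : l * (b * 1000000000 + 1000000000 * F) ≤ l * ((b : ℝ) * 1000000000 + y) :=
    mul_le_mul_of_nonneg_left (by linarith) hl.le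
  push_cast
  split_ifs with h
  · have h3 := tree_div_le (-(707107800 * (b * 1000000000 + y)))
    have h4 : (0 : ℝ) ≤ (b : ℝ) * 1000000000 + y := by exact_mod_cast h
    push_cast at h3
    have h5 : l * ((b : ℝ) * 1000000000 + y) ≤
        707107800 * ((b : ℝ) * 1000000000 + y) / 1000000000 := by
      rw [le_div_iff₀ (by norm_num)]
      nlinarith
    rw [neg_div] at h3
    linarith
  · have h3 := tree_div_le (-(707105700 * (b * 1000000000 + y)))
    have h4 : (b : ℝ) * 1000000000 + y ≤ 0 := by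
      rw [not_le] at h
      exact_mod_cast h.le
    push_cast at h3
    have h5 : l * ((b : ℝ) * 1000000000 + y) ≤
        707105700 * ((b : ℝ) * 1000000000 + y) / 1000000000 := by
      rw [le_div_iff₀ (by norm_num)]
      nlinarith
    rw [neg_div] at h3
    linarith

theorem tree_sq {F : ℝ} (x y : ℤ) (hx : (x : ℝ) ≤ 1000000000 * F) (hy : 1000000000 * F ≤ (y : ℝ)) :
    ((treeSq x y : ℤ) : ℝ) ≤ 1000000000 * F ^ 2 := by
  unfold treeSq
  split_ifs with h h'
  · have h3 := tree_div_le (x * x)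
    have h4 : (0 : ℝ) < x := by exact_mod_cast h
    push_cast at h3
    have h5 : (x : ℝ) * x / 1000000000 ≤ 1000000000 * F ^ 2 := by
      rw [div_le_iff₀ (by norm_num)]
      nlinarith
    linarith
  · have h3 := tree_div_le (y * y)
    have h4 : (y : ℝ) < 0 := by exact_mod_cast h'
    push_cast at h3
    have h5 : (y : ℝ) * y / 1000000000 ≤ 1000000000 * F ^ 2 := by
      rw [div_le_iff₀ (by norm_num)]
      nlinarith
    linarith
  · push_cast
    positivity

/-- the window of the next integer -/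
theorem tree_win {l F F' : ℝ} (h1 : (707105700 : ℝ) ≤ 1000000000 * l)
    (h2 : 1000000000 * l ≤ 707107800) (ak b : ℤ) (ha : -20 ≤ ak) (ha' : ak ≤ 20)
    (hF : F ^ 2 ≤ 101 / 100) (hF' : F' ^ 2 ≤ 101 / 100) (he : F' = l * (b + F) - ak) :
    ak * 1414214 / 1000000 - 2 ≤ b ∧ b ≤ ak * 1414214 / 1000000 + 3 := by
  have hl : 0 < l := by linarith
  have f1 : F ≤ 1.005 := by nlinarith
  have f2 : -1.005 ≤ F := by nlinarith
  have f3 : F' ≤ 1.005 := by nlinarith
  have f4 : -1.005 ≤ F' := by nlinarith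
  set c : ℤ := ak * 1414214 / 1000000 with hc
  have c1 : c * 1000000 ≤ ak * 1414214 := Int.ediv_mul_le _ (by norm_num)
  have c2 : ak * 1414214 < (c + 1) * 1000000 := Int.lt_ediv_add_one_mul_self _ (by norm_num)
  have c1' : (c : ℝ) * 1000000 ≤ ak * 1414214 := by exact_mod_cast c1
  have c2' : (ak : ℝ) * 1414214 < (c + 1) * 1000000 := by exact_mod_cast c2
  have a1 : (-20 : ℝ) ≤ ak := by exact_mod_cast ha
  have a2 : (ak : ℝ) ≤ 20 := by exact_mod_cast ha'
  -- the error of `1 / l`
  have hm1 : |1.414214 * l - 1| ≤ 0.00001 := by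
    rw [abs_le]; constructor <;> linarith
  have hm2 : |(ak : ℝ)| ≤ 20 := abs_le.2 ⟨a1, a2⟩
  have hm3 : |(ak : ℝ) * (1.414214 * l - 1)| ≤ 0.0002 := by
    rw [abs_mul]
    calc |(ak : ℝ)| * |1.414214 * l - 1| ≤ 20 * 0.00001 :=
          mul_le_mul hm2 hm1 (abs_nonneg _) (by norm_num)
      _ = 0.0002 := by norm_num
  have hm4 := abs_le.1 hm3
  constructor
  · by_contra hcon
    rw [not_le] at hcon
    have hb : b ≤ c - 3 := by omega
    have hb' : (b : ℝ) ≤ c - 3 := by exact_mod_cast hb
    have h5 : l * (b + F) ≤ l * (ak * 1.414214 - 3 + 1.005) :=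
      mul_le_mul_of_nonneg_left (by linarith) hl.le
    nlinarith
  · by_contra hcon
    rw [not_le] at hcon
    have hb : c + 4 ≤ b := by omega
    have hb' : (c : ℝ) + 4 ≤ b := by exact_mod_cast hb
    have h5 : l * (ak * 1.414214 + 3 - 1.005) ≤ l * (b + F) :=
      mul_le_mul_of_nonneg_left (by linarith) hl.le
    nlinarith

theorem tree_main {l : ℝ} (h1 : (707105700 : ℝ) ≤ 1000000000 * l)
    (h2 : 1000000000 * l ≤ 707107800) (a : ℕ → ℤ) (F : ℕ → ℝ)
    (hF : ∀ k, F (k + 1) = l * (a (k + 1) + F k) - a k) :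
    ∀ (n k : ℕ) (x y e : ℤ) (z : Bool), treeSrch n (a k) x y e z = true →
      (x : ℝ) ≤ 1000000000 * F k → 1000000000 * F k ≤ (y : ℝ) →
      (e : ℝ) ≤ 1000000000 * ∑ j ∈ range (k + 1), F j ^ 2 →
      ∑ j ∈ range (k + n + 1), F j ^ 2 ≤ 101 / 100 →
      z = true ∧ ∀ j, k < j → j ≤ k + n → a j = 0 := by
  intro n
  induction n with
  | zero =>
    intro k x y e z hs _ _ _ _
    rw [treeSrch] at hs
    exact ⟨hs, fun j hj hj' => by omega⟩
  | succ n ih =>
    intro k x y e z hs hx hy he hE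
    rw [treeSrch, Bool.and_eq_true, Bool.and_eq_true, decide_eq_true_eq, decide_eq_true_eq,
      List.all_eq_true] at hs
    obtain ⟨⟨ha, ha'⟩, hall⟩ := hs
    have hmono : ∀ m m' : ℕ, m ≤ m' → ∑ j ∈ range m, F j ^ 2 ≤ ∑ j ∈ range m', F j ^ 2 := by
      intro m m' hm
      exact Finset.sum_le_sum_of_subset_of_nonneg (Finset.range_mono hm)
        (fun _ _ _ => sq_nonneg _)
    have hone : ∀ m : ℕ, m < k + (n + 1) + 1 → F m ^ 2 ≤ 101 / 100 := by
      intro m hm
      refine le_trans ?_ hE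
      exact Finset.single_le_sum (f := fun j => F j ^ 2) (fun _ _ => sq_nonneg _)
        (Finset.mem_range.2 hm)
    obtain ⟨w1, w2⟩ := tree_win h1 h2 (a k) (a (k + 1)) ha ha' (hone k (by omega))
      (hone (k + 1) (by omega)) (hF k)
    set c : ℤ := a k * 1414214 / 1000000 with hc
    have hi : ∃ i : ℤ, i ∈ [0, 1, 2, 3, 4, 5] ∧ c - 2 + i = a (k + 1) := by
      refine ⟨a (k + 1) - (c - 2), ?_, by ring⟩
      simp only [List.mem_cons, List.not_mem_nil, or_false]
      omega
    obtain ⟨i, hi1, hi2⟩ := hi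
    have h3 := hall i hi1
    rw [hi2, Bool.or_eq_true, decide_eq_true_eq] at h3
    have hx' := tree_lo h1 h2 (a k) x (a (k + 1)) hx
    have hy' := tree_hi h1 h2 (a k) y (a (k + 1)) hy
    rw [← hF k] at hx' hy'
    have hsq := tree_sq _ _ hx' hy'
    have he' : ((e + treeSq (treeLo (a k) x (a (k + 1))) (treeHi (a k) y (a (k + 1))) : ℤ) : ℝ) ≤
        1000000000 * ∑ j ∈ range (k + 1 + 1), F j ^ 2 := by
      rw [Finset.sum_range_succ, mul_add]
      push_cast
      linarith
    rcases h3 with h3 | h3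
    · exfalso
      have h4 : (1010000000 : ℝ) <
          ((e + treeSq (treeLo (a k) x (a (k + 1))) (treeHi (a k) y (a (k + 1))) : ℤ) : ℝ) := by
        exact_mod_cast h3
      have h5 := hmono (k + 1 + 1) (k + (n + 1) + 1) (by omega)
      linarith
    · have hE' : ∑ j ∈ range (k + 1 + n + 1), F j ^ 2 ≤ 101 / 100 := by
        have e2 : k + 1 + n + 1 = k + (n + 1) + 1 := by omega
        rw [e2]; exact hE
      obtain ⟨z1, z2⟩ := ih (k + 1) _ _ _ _ h3 hx' hy' he' hE'
      rw [Bool.and_eq_true, decide_eq_true_eq] at z1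
      refine ⟨z1.1, fun j hj hj' => ?_⟩
      rcases Nat.lt_or_ge (k + 1) j with h | h
      · exact z2 j h (by omega)
      · have : j = k + 1 := by omega
        rw [this]; exact z1.2

theorem tree {l : ℝ} (hl : |l - l0| < 1 / 10 ^ 6) (a : ℕ → ℤ) (ha : a 0 = 1) (F : ℕ → ℝ) (h0 : F 0 = l)
    (hF : ∀ k, F (k + 1) = l * (a (k + 1) + F k) - a k) (hE : ∑ k ∈ range 12, F k ^ 2 ≤ 101 / 100) :
    ∀ k, 1 ≤ k → k ≤ 11 → a k = 0 := by
  have hb := l0_bounds
  have hl2 := abs_lt.1 hl
  have h1 : (707105700 : ℝ) ≤ 1000000000 * l := by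
    have := hl2.1
    norm_num at this hb
    linarith [hb.1]
  have h2 : 1000000000 * l ≤ 707107800 := by
    have := hl2.2
    norm_num at this hb
    linarith [hb.2]
  have hsq : ((treeSq 707105700 707107800 : ℤ) : ℝ) ≤ 1000000000 * F 0 ^ 2 :=
    tree_sq 707105700 707107800 (by rw [h0]; push_cast; linarith) (by rw [h0]; push_cast; linarith)
  have hrun := tree_run
  have h := tree_main h1 h2 a F hF 11 0 707105700 707107800 (treeSq 707105700 707107800) true
    (by rw [ha]; exact hrun) (by rw [h0]; push_cast; linarith) (by rw [h0]; push_cast; linarith)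
    (by simpa using hsq) (by simpa using hE)
  intro k hk1 hk2
  exact h.2 k (by omega) (by omega)

end Pool.Agent.H76.BC
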