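import Pool.Agent.H76.BC.PSF
import Pool.Agent.H76.BC.Tree

/-!
# The arithmetic gap

Suppose `MM P < (1 + 1e-6) / l`.  `quot` gives `a`, `B`; let `B0 = coeff 0 B`, `‖B0‖ = 1 / (l * MM P) > 1 / (1 + 1e-6) ≥ 1 - 1e-6`.  `nrm K (B * 1) ≤ nrm K 1 = 1`, so `∑_{1 ≤ k ≤ K} ‖B_k‖² ≤ 1 - ‖B0‖² ≤ 2e-6`; `η = √(2e-6) ≤ 0.0015`.
Changing the sign of `a` we may assume `a 0 = 1`.  `F` the (real) power series with `(1 - l X) F = (l - X) f`, `f = mk a`: `F_0 = l a_0`, `F_{k+1} = l F_k + l a_{k+1} - a_k`.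

1. `‖·‖_K = √(nrm K ·)` is a seminorm.  `B F = B0 F + (B - B0) F`; `‖(B - C B0) F‖_{11} ≤ ∑_{i=1}^{11} ‖B_i‖ ‖F‖_{11} ≤ √11 η ‖F‖_{11}` (`√11 η = √(22e-6) ≤ 0.0046905`), and `‖B F‖_{11} ≤ 1` (`quot`), so
   `‖F‖²_{11} ≤ 1 / (1 - 1e-6 - 0.0046905)² ≤ 1.0095 ≤ 1.01`.  By `tree`: `a 1 = ... = a 11 = 0`.
2. Let `K ≥ 12` be the first index `≥ 1` with `a K ≠ 0`.  Let `g` be the power series with `(1 - l X) g = l - X` (`g_0 = l`, `g_k = -(1 - l²) l^{k-1}`), so `F = g + l a_K X^K` modulo `X^{K+1}`, `coeff k (B F) = coeff k (B g)` for `k < K` and `coeff K (B F) = coeff K (B g) + B0 l a_K`.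
   `nrm (K-1) g = 1 - (1 - l²) l^{2(K-1)} ≥ 1 - 0.51 * 0.51^{11} ≥ 0.9996`.  `‖(B - C B0) g‖_{K-1} = ‖g (B - C B0)‖_{K-1} ≤ ‖B - C B0‖_{K-1} ≤ η` by `nrm_in` (with `c = l`, up to the sign).  So `‖B g‖_{K-1} ≥ ‖B0‖ * 0.9998 - 0.0015 ≥ 0.998`, `nrm (K-1) (B g) ≥ 0.996`.
   `nrm K (B F) ≤ 1` gives `‖coeff K (B F)‖ ≤ √0.004 ≤ 0.064` and `nrm K (B g) ≤ nrm K g ≤ 1` gives `‖coeff K (B g)‖ ≤ 0.064`, so `‖B0‖ l |a_K| ≤ 0.128`, but it is `≥ 0.9 * 0.7 * 1`.
-/

set_option autoImplicit false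

open Finset

namespace Pool.Agent.H76.BC

private noncomputable def gvec (K : ℕ) (F : PowerSeries ℂ) : EuclideanSpace ℂ (Fin (K + 1)) :=
  WithLp.toLp 2 (fun k => PowerSeries.coeff (k : ℕ) F)

private theorem gvec_sq (K : ℕ) (F : PowerSeries ℂ) : ‖gvec K F‖ ^ 2 = nrm K F := by
  rw [EuclideanSpace.norm_sq_eq, nrm, Finset.sum_range]
  rfl

private theorem gvec_sub (K : ℕ) (F G : PowerSeries ℂ) : gvec K (F - G) = gvec K F - gvec K G := by
  ext k
  simp [gvec]

private theorem gvec_C_mul (K : ℕ) (c : ℂ) (F : PowerSeries ℂ) :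
    gvec K (PowerSeries.C c * F) = c • gvec K F := by
  ext k
  simp [gvec]

private theorem nrm_X_pow (K i : ℕ) (F : PowerSeries ℂ) :
    nrm K (PowerSeries.X ^ i * F) ≤ nrm K F := by
  induction i with
  | zero => simp
  | succ i ih =>
    refine le_trans ?_ ih
    rw [pow_succ', mul_assoc]
    generalize PowerSeries.X ^ i * F = G
    unfold nrm
    rw [Finset.sum_range_succ']
    rw [Finset.sum_range_succ (fun k => ‖(PowerSeries.coeff k) G‖ ^ 2) K]
    simp [PowerSeries.coeff_succ_X_mul]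

private theorem gvec_X_pow (K i : ℕ) (F : PowerSeries ℂ) :
    ‖gvec K (PowerSeries.X ^ i * F)‖ ≤ ‖gvec K F‖ := by
  refine le_of_sq_le_sq ?_ (norm_nonneg _)
  rw [gvec_sq, gvec_sq]
  exact nrm_X_pow K i F

private theorem gvec_mul (K : ℕ) (D F : PowerSeries ℂ) :
    gvec K (D * F) = ∑ i ∈ range (K + 1), PowerSeries.coeff i D • gvec K (PowerSeries.X ^ i * F) := by
  ext k
  have hk := k.2
  simp only [gvec, WithLp.ofLp_sum, WithLp.ofLp_smul, Finset.sum_apply, Pi.smul_apply, smul_eq_mul]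
  rw [PowerSeries.coeff_mul, Finset.Nat.sum_antidiagonal_eq_sum_range_succ
    (fun i j => PowerSeries.coeff i D * PowerSeries.coeff j F) (k : ℕ)]
  have hsub : range ((k : ℕ) + 1) ⊆ range (K + 1) := Finset.range_subset_range.2 (by omega)
  rw [← Finset.sum_subset hsub]
  · refine Finset.sum_congr rfl fun i hi => ?_
    rw [PowerSeries.coeff_X_pow_mul', if_pos (by have := Finset.mem_range.1 hi; omega)]
  · intro i _ hi
    rw [PowerSeries.coeff_X_pow_mul', if_neg (by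
      intro h
      exact hi (Finset.mem_range.2 (by omega))), mul_zero]

private theorem gvec_mul_le (K : ℕ) (D F : PowerSeries ℂ) :
    ‖gvec K (D * F)‖ ≤ (∑ i ∈ range (K + 1), ‖PowerSeries.coeff i D‖) * ‖gvec K F‖ := by
  rw [gvec_mul, Finset.sum_mul]
  refine (norm_sum_le _ _).trans (Finset.sum_le_sum fun i _ => ?_)
  rw [norm_smul]
  exact mul_le_mul_of_nonneg_left (gvec_X_pow K i F) (norm_nonneg _)

private theorem MM_pos {P : Polynomial ℤ} (h0 : P.coeff 0 = 1 ∨ P.coeff 0 = -1) : 0 < MM P := by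
  unfold MM
  refine Multiset.prod_pos fun x hx => ?_
  obtain ⟨r, hr, rfl⟩ := Multiset.mem_map.1 hx
  have h1 := (Multiset.mem_filter.1 hr).1
  have h2 : (P.map (Int.castRingHom ℂ)).IsRoot r := Polynomial.isRoot_of_mem_roots h1
  refine inv_pos.2 (norm_pos_iff.2 ?_)
  rintro rfl
  have h3 : (P.map (Int.castRingHom ℂ)).coeff 0 = 0 := by
    rw [Polynomial.coeff_zero_eq_eval_zero]
    exact h2
  rw [Polynomial.coeff_map] at h3
  rcases h0 with h | h <;> rw [h] at h3 <;> simp at h3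

private noncomputable def Fr (l : ℝ) (a : ℕ → ℤ) : ℕ → ℝ
  | 0 => l * a 0
  | k + 1 => l * (a (k + 1) + Fr l a k) - a k

private theorem Fr_series (l : ℝ) (a : ℕ → ℤ) :
    (1 - PowerSeries.C (l : ℂ) * PowerSeries.X) * PowerSeries.mk (fun k => ((Fr l a k : ℝ) : ℂ)) =
      (PowerSeries.C (l : ℂ) - PowerSeries.X) * PowerSeries.mk (fun k => (a k : ℂ)) := by
  ext k
  rw [sub_mul, sub_mul, one_mul, mul_assoc, map_sub, map_sub, PowerSeries.coeff_C_mul,
    PowerSeries.coeff_C_mul]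
  cases k with
  | zero => simp [Fr]
  | succ k =>
    rw [PowerSeries.coeff_succ_X_mul, PowerSeries.coeff_succ_X_mul]
    simp only [PowerSeries.coeff_mk, Fr]
    push_cast
    ring

/-- the coefficients of `(l - X) / (1 - l X)` -/
private noncomputable def gc (l : ℝ) : ℕ → ℝ
  | 0 => l
  | k + 1 => -((1 - l ^ 2) * l ^ k)

private theorem gc_series (l : ℝ) :
    (1 - PowerSeries.C (l : ℂ) * PowerSeries.X) * PowerSeries.mk (fun k => ((gc l k : ℝ) : ℂ)) =
      PowerSeries.C (l : ℂ) - PowerSeries.X := by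
  ext k
  rw [sub_mul, one_mul, mul_assoc, map_sub, map_sub, PowerSeries.coeff_C_mul]
  rcases k with _ | _ | k
  · simp [gc]
  · rw [PowerSeries.coeff_succ_X_mul, PowerSeries.coeff_C, PowerSeries.coeff_X]
    simp [gc]
    ring
  · rw [PowerSeries.coeff_succ_X_mul, PowerSeries.coeff_C, PowerSeries.coeff_X]
    simp [gc]
    ring

private theorem nrm_gc (l : ℝ) (K : ℕ) :
    nrm K (PowerSeries.mk (fun k => ((gc l k : ℝ) : ℂ))) = 1 - (1 - l ^ 2) * l ^ (2 * K) := by
  unfold nrm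
  simp only [PowerSeries.coeff_mk, Complex.norm_real, Real.norm_eq_abs, sq_abs]
  induction K with
  | zero => simp [gc]
  | succ K ih =>
    rw [Finset.sum_range_succ, ih]
    simp only [gc]
    ring

theorem gap {l : ℝ} (hl : |l - l0| < 1 / 10 ^ 6) {P : Polynomial ℤ} (hm : P.Monic) (h0 : P.coeff 0 = 1 ∨ P.coeff 0 = -1)
    (hr : Polynomial.aeval l P = 0) (hrec : Polynomial.aeval l⁻¹ P ≠ 0) : (1 + 1 / 10 ^ 6) / l ≤ MM P := by
  obtain ⟨hb1, hb2⟩ := l0_bounds
  obtain ⟨hl1, hl2⟩ := abs_lt.1 hl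
  have hlo : 0.7071 < l := by norm_num at hl1 hb1 ⊢; linarith
  have hhi : l < 0.70711 := by norm_num at hl2 hb2 ⊢; linarith
  have hlp : 0 < l := by linarith
  have hl1' : l < 1 := by linarith
  by_contra hcon
  rw [not_le] at hcon
  have hMp := MM_pos h0
  obtain ⟨a, B, ha0, ⟨k0, hk0, hk0'⟩, hB0, hBG, hBF⟩ := quot hlp hl1' hm h0 hr hrec
  set b : ℂ := PowerSeries.coeff 0 B with hb
  have hb1 : 1 - 1 / 10 ^ 6 ≤ ‖b‖ := by
    rw [hB0]
    have h1 : l * MM P < 1 + 1 / 10 ^ 6 := by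
      rw [lt_div_iff₀ hlp] at hcon
      linarith
    have h2 : 0 < l * MM P := mul_pos hlp hMp
    rw [le_inv_comm₀ (by norm_num) h2]
    refine h1.le.trans ?_
    norm_num
  -- sign
  have hsq : ((a 0 : ℤ) : ℂ) * (a 0 : ℂ) = 1 := by
    rcases ha0 with h | h <;> rw [h] <;> norm_num
  have hsn : ‖((a 0 : ℤ) : ℂ)‖ = 1 := by
    rcases ha0 with h | h <;> rw [h] <;> norm_num
  set a' : ℕ → ℤ := fun k => a 0 * a k with ha'
  have ha'0 : a' 0 = 1 := by
    rcases ha0 with h | h <;> simp [ha', h]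
  have hex : ∃ k, 1 ≤ k ∧ a' k ≠ 0 := by
    refine ⟨k0, hk0, mul_ne_zero ?_ hk0'⟩
    rcases ha0 with h | h <;> rw [h] <;> norm_num
  have hBF' : ∀ K, nrm K (B * PowerSeries.mk (fun k => ((Fr l a' k : ℝ) : ℂ))) ≤ 1 := by
    intro K
    have h1 := hBF (PowerSeries.C ((a 0 : ℤ) : ℂ) * PowerSeries.mk (fun k => ((Fr l a' k : ℝ) : ℂ))) (by
      rw [mul_left_comm, Fr_series, mul_left_comm]
      congr 1
      ext k
      simp only [ha', PowerSeries.coeff_C_mul, PowerSeries.coeff_mk]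
      push_cast
      rw [← mul_assoc, hsq, one_mul]) K
    rw [mul_left_comm, ← gvec_sq, gvec_C_mul, norm_smul, hsn, one_mul, gvec_sq] at h1
    exact h1
  -- norms of the coefficients of B
  have hBn : ∀ K, nrm K B ≤ 1 := by
    intro K
    have h1 := hBG K 1
    rw [mul_one] at h1
    refine h1.trans ?_
    unfold nrm
    rw [Finset.sum_range_succ']
    simp [PowerSeries.coeff_one]
  set D : PowerSeries ℂ := B - PowerSeries.C b with hD
  have hD0 : PowerSeries.coeff 0 D = 0 := by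
    rw [hD, map_sub, PowerSeries.coeff_C]
    simp [hb]
  have hDs : ∀ k, PowerSeries.coeff (k + 1) D = PowerSeries.coeff (k + 1) B := by
    intro k
    rw [hD, map_sub, PowerSeries.coeff_C]
    simp
  have hDn : ∀ K, nrm K D ≤ 2 / 10 ^ 6 := by
    intro K
    have h1 := hBn K
    unfold nrm at h1 ⊢
    rw [Finset.sum_range_succ'] at h1 ⊢
    rw [hD0]
    simp only [hDs]
    rw [← hb] at h1
    have h2 : (1 - 1 / 10 ^ 6 : ℝ) ^ 2 ≤ ‖b‖ ^ 2 := by
      exact pow_le_pow_left₀ (by norm_num) hb1 2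
    norm_num at h1 h2 ⊢
    linarith
  -- step 1
  set F : PowerSeries ℂ := PowerSeries.mk (fun k => ((Fr l a' k : ℝ) : ℂ)) with hF
  have hstep1 : nrm 11 F ≤ 101 / 100 := by
    rw [← gvec_sq]
    set N := ‖gvec 11 F‖ with hN
    have hN0 : 0 ≤ N := norm_nonneg _
    have h1 : ‖gvec 11 (B * F)‖ ≤ 1 := by
      have := hBF' 11
      rw [← gvec_sq] at this
      nlinarith [norm_nonneg (gvec 11 (B * F))]
    have h2 : ‖gvec 11 (D * F)‖ ≤ 49 / 10000 * N := by
      refine (gvec_mul_le 11 D F).trans (mul_le_mul_of_nonneg_right ?_ hN0)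
      have h3 := sq_sum_le_card_mul_sum_sq (s := range (11 + 1)) (f := fun i => ‖PowerSeries.coeff i D‖)
      have h4 : ∑ i ∈ range (11 + 1), ‖PowerSeries.coeff i D‖ ^ 2 ≤ 2 / 10 ^ 6 := hDn 11
      rw [Finset.card_range] at h3
      have h5 : 0 ≤ ∑ i ∈ range (11 + 1), ‖PowerSeries.coeff i D‖ :=
        Finset.sum_nonneg fun _ _ => norm_nonneg _
      by_contra h6
      rw [not_le] at h6
      have h7 : (49 / 10000 : ℝ) ^ 2 < (∑ i ∈ range (11 + 1), ‖PowerSeries.coeff i D‖) ^ 2 :=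
        pow_lt_pow_left₀ h6 (by norm_num) (by norm_num)
      have h8 : ((12 : ℕ) : ℝ) * ∑ i ∈ range (11 + 1), ‖PowerSeries.coeff i D‖ ^ 2 ≤ 12 * (2 / 10 ^ 6) := by
        push_cast
        linarith
      have h9 := h7.trans_le (h3.trans h8)
      norm_num at h9
    have h3 : ‖b‖ * N ≤ 1 + 49 / 10000 * N := by
      have h4 : gvec 11 (PowerSeries.C b * F) = gvec 11 (B * F) - gvec 11 (D * F) := by
        rw [← gvec_sub, ← sub_mul, hD, sub_sub_cancel]
      have h5 := norm_sub_le (gvec 11 (B * F)) (gvec 11 (D * F))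
      rw [← h4, gvec_C_mul, norm_smul] at h5
      linarith
    have h4 : (1 - 1 / 10 ^ 6) * N ≤ ‖b‖ * N := mul_le_mul_of_nonneg_right hb1 hN0
    have h5 : N ≤ 100493 / 100000 := by
      norm_num at h4
      nlinarith
    have h6 : N ^ 2 ≤ (100493 / 100000 : ℝ) ^ 2 := pow_le_pow_left₀ hN0 h5 2
    norm_num at h6 ⊢
    linarith
  have htree := tree hl a' ha'0 (Fr l a') (by simp [Fr, ha'0]) (fun k => rfl) (by
    have h1 : nrm 11 F = ∑ k ∈ range 12, Fr l a' k ^ 2 := by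
      unfold nrm
      refine Finset.sum_congr rfl fun k _ => ?_
      rw [hF, PowerSeries.coeff_mk, Complex.norm_real, Real.norm_eq_abs, sq_abs]
    rw [← h1]
    exact hstep1)
  -- step 2
  classical
  set K := Nat.find hex with hK
  obtain ⟨hK1, hKne⟩ := Nat.find_spec hex
  have hKmin : ∀ k, 1 ≤ k → k < K → a' k = 0 := by
    intro k hk1 hk2
    have := Nat.find_min hex hk2
    by_contra h
    exact this ⟨hk1, h⟩
  rw [← hK] at hK1 hKne
  have hK12 : 12 ≤ K := by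
    by_contra h
    exact hKne (htree K hK1 (by omega))
  obtain ⟨m, hm'⟩ : ∃ m, K = m + 1 := ⟨K - 1, by omega⟩
  rw [hm'] at hK1 hKne hK12 hKmin
  clear_value K
  set g : PowerSeries ℂ := PowerSeries.mk (fun k => ((gc l k : ℝ) : ℂ)) with hg
  have hFg : ∀ k, k ≤ m → Fr l a' k = gc l k := by
    intro k
    induction k with
    | zero => intro _; simp [Fr, gc, ha'0]
    | succ k ih =>
      intro hk
      rw [Fr, ih (by omega), hKmin (k + 1) (by omega) (by omega)]
      cases k with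
      | zero => simp [gc, ha'0]; ring
      | succ k => rw [hKmin (k + 1) (by omega) (by omega)]; simp [gc]; ring
  have hFgm : Fr l a' (m + 1) = gc l (m + 1) + l * a' (m + 1) := by
    rw [Fr, hFg m le_rfl, hKmin m (by omega) (by omega)]
    obtain ⟨m', rfl⟩ : ∃ m', m = m' + 1 := ⟨m - 1, by omega⟩
    simp [gc]
    ring
  have hcoe : ∀ k, k ≤ m → PowerSeries.coeff k (B * F) = PowerSeries.coeff k (B * g) := by
    intro k hk
    rw [PowerSeries.coeff_mul, PowerSeries.coeff_mul]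
    refine Finset.sum_congr rfl fun ij hij => ?_
    have := Finset.HasAntidiagonal.mem_antidiagonal.1 hij
    rw [hF, hg, PowerSeries.coeff_mk, PowerSeries.coeff_mk, hFg _ (by omega)]
  have hcoem : PowerSeries.coeff (m + 1) (B * F) =
      PowerSeries.coeff (m + 1) (B * g) + b * ((l * a' (m + 1) : ℝ) : ℂ) := by
    rw [PowerSeries.coeff_mul, PowerSeries.coeff_mul,
      Finset.Nat.sum_antidiagonal_succ, Finset.Nat.sum_antidiagonal_succ]
    have h1 : ∀ ij ∈ antidiagonal m, PowerSeries.coeff (ij.1 + 1) B * PowerSeries.coeff ij.2 F =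
        PowerSeries.coeff (ij.1 + 1) B * PowerSeries.coeff ij.2 g := by
      intro ij hij
      have := Finset.HasAntidiagonal.mem_antidiagonal.1 hij
      rw [hF, hg, PowerSeries.coeff_mk, PowerSeries.coeff_mk, hFg _ (by omega)]
    rw [Finset.sum_congr rfl h1]
    simp only [hF, hg, PowerSeries.coeff_mk, hFgm]
    rw [← hb]
    push_cast
    ring
  have hlsq : l ^ 2 ≤ 0.51 := by nlinarith
  have hng : 0.9996 ≤ nrm m g := by
    rw [hg, nrm_gc]
    have h1 : l ^ (2 * m) ≤ 0.51 ^ m := by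
      rw [pow_mul]
      exact pow_le_pow_left₀ (sq_nonneg l) hlsq m
    have h2 : (0.51 : ℝ) ^ m ≤ 0.51 ^ 11 :=
      pow_le_pow_of_le_one (by norm_num) (by norm_num) (by omega)
    have h3 : 1 - l ^ 2 ≤ 0.51 := by nlinarith
    have h4 : 0 ≤ 1 - l ^ 2 := by nlinarith
    have h5 : (1 - l ^ 2) * l ^ (2 * m) ≤ 0.51 * 0.51 ^ 11 :=
      mul_le_mul h3 (h1.trans h2) (by positivity) (by norm_num)
    norm_num at h5 ⊢
    linarith
  have hngK : nrm (m + 1) g ≤ 1 := by
    rw [hg, nrm_gc]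
    have h4 : 0 ≤ 1 - l ^ 2 := by nlinarith
    have h5 : 0 ≤ (1 - l ^ 2) * l ^ (2 * (m + 1)) := by positivity
    linarith
  have hDg : nrm m (D * g) ≤ 2 / 10 ^ 6 := by
    have hc : ‖(l : ℂ)‖ < 1 := by
      rw [Complex.norm_real, Real.norm_eq_abs, abs_of_pos hlp]
      exact hl1'
    have h1 := nrm_in hc (F := D) (y := -(D * g)) (by
      rw [Complex.conj_ofReal, mul_neg, mul_left_comm, gc_series]
      ring) m
    have h2 : nrm m (-(D * g)) = nrm m (D * g) := by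
      unfold nrm
      simp
    rw [h2] at h1
    exact h1.trans (hDn m)
  have hBg : 0.996 ≤ nrm m (B * g) := by
    rw [← gvec_sq]
    have h1 : ‖b‖ * ‖gvec m g‖ ≤ ‖gvec m (B * g)‖ + ‖gvec m (D * g)‖ := by
      have h4 : gvec m (PowerSeries.C b * g) = gvec m (B * g) - gvec m (D * g) := by
        rw [← gvec_sub, ← sub_mul, hD, sub_sub_cancel]
      have h5 := norm_sub_le (gvec m (B * g)) (gvec m (D * g))
      rw [← h4, gvec_C_mul, norm_smul] at h5
      exact h5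
    rw [← gvec_sq] at hng hDg
    have h2 : ‖gvec m (D * g)‖ ≤ 0.0015 := by
      by_contra h
      rw [not_le] at h
      have := pow_lt_pow_left₀ h (by norm_num) (n := 2) (by norm_num)
      norm_num at this hDg
      linarith
    have h3 : 0.9997 ≤ ‖gvec m g‖ := by
      by_contra h
      rw [not_le] at h
      have := pow_lt_pow_left₀ h (norm_nonneg _) (n := 2) (by norm_num)
      norm_num at this hng
      linarith
    have h4 : (1 - 1 / 10 ^ 6) * 0.9997 ≤ ‖b‖ * ‖gvec m g‖ :=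
      mul_le_mul hb1 h3 (by norm_num) (norm_nonneg _)
    have h5 : 0.998 ≤ ‖gvec m (B * g)‖ := by
      norm_num at h4 h2 ⊢
      linarith
    have h6 := pow_le_pow_left₀ (by norm_num) h5 2
    norm_num at h6 ⊢
    linarith
  have hc1 : ‖PowerSeries.coeff (m + 1) (B * F)‖ ≤ 0.064 := by
    have h1 := hBF' (m + 1)
    have h2 : nrm (m + 1) (B * F) = nrm m (B * g) + ‖PowerSeries.coeff (m + 1) (B * F)‖ ^ 2 := by
      unfold nrm
      rw [Finset.sum_range_succ]
      congr 1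
      refine Finset.sum_congr rfl fun k hk => ?_
      rw [hcoe k (by have := Finset.mem_range.1 hk; omega)]
    rw [h2] at h1
    by_contra h
    rw [not_le] at h
    have := pow_lt_pow_left₀ h (by norm_num) (n := 2) (by norm_num)
    norm_num at this hBg
    linarith
  have hc2 : ‖PowerSeries.coeff (m + 1) (B * g)‖ ≤ 0.064 := by
    have h1 := (hBG (m + 1) g).trans hngK
    have h2 : nrm (m + 1) (B * g) = nrm m (B * g) + ‖PowerSeries.coeff (m + 1) (B * g)‖ ^ 2 := by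
      unfold nrm
      rw [Finset.sum_range_succ]
    rw [h2] at h1
    by_contra h
    rw [not_le] at h
    have := pow_lt_pow_left₀ h (by norm_num) (n := 2) (by norm_num)
    norm_num at this hBg
    linarith
  have hfin : ‖b * ((l * a' (m + 1) : ℝ) : ℂ)‖ ≤ 0.128 := by
    have h1 : b * ((l * a' (m + 1) : ℝ) : ℂ) = PowerSeries.coeff (m + 1) (B * F) -
        PowerSeries.coeff (m + 1) (B * g) := by
      rw [hcoem]
      ring
    rw [h1]
    have := norm_sub_le (PowerSeries.coeff (m + 1) (B * F)) (PowerSeries.coeff (m + 1) (B * g))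
    norm_num at this hc1 hc2 ⊢
    linarith
  rw [norm_mul, Complex.norm_real, Real.norm_eq_abs, abs_mul, abs_of_pos hlp] at hfin
  have h1 : (1 : ℝ) ≤ |(a' (m + 1) : ℝ)| := by
    rw [← Int.cast_abs]
    exact_mod_cast Int.one_le_abs hKne
  have h2 : 0.7 * 1 ≤ l * |(a' (m + 1) : ℝ)| :=
    mul_le_mul (by linarith) h1 (by norm_num) hlp.le
  have h3 : (1 - 1 / 10 ^ 6) * (0.7 * 1) ≤ ‖b‖ * (l * |(a' (m + 1) : ℝ)|) :=
    mul_le_mul hb1 h2 (by norm_num) (norm_nonneg _)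
  norm_num at h3 hfin
  linarith

end Pool.Agent.H76.BC
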