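import Pool.Agent.H76.BC.Defs

/-!
# A coincidence makes `l` a unit

From `psum l a = psum l b`, `a ≠ b`: `Q = ∑ i : Fin n, C (η i) X ^ i`, `η i = ([a i] - [b i]) ∈ {-1, 0, 1}`, `Q ≠ 0`, `Q(l) = 0` (`psum l a - psum l b = 2 Q(l)`).  Let `i1` be the largest and `i0` the smallest index with `η i ≠ 0`: the leading coefficient is `± 1`; divide by `X ^ i0` (`l ≠ 0`): `Q = X ^ i0 * Q'`, `Q'.coeff 0 = ± 1`, `Q'(l) = 0`.
Replace `Q'` by `± Q'` so that it is monic.  `l` is integral over `ℤ`; `P = minpoly ℤ l`: monic, irreducible (`minpoly.irreducible` for integral domains: `minpoly.irreducible (isIntegral)`; for `ℤ` integrally closed), `P ∣ Q'` (`minpoly.isIntegrallyClosed_dvd`), so `P.coeff 0 ∣ Q'.coeff 0 = ± 1`.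
(`Polynomial.mul_coeff_zero`; `Int.isUnit_iff`.)

`MM_eq`: `P` monic, `|P.coeff 0| = 1`: the product of `‖r‖` over all complex roots is `1` (`Polynomial.prod_roots_eq_coeff_zero_of_monic_of_splits` or similar), so `∏ max 1 ‖r‖ = ∏_{‖r‖ ≥ 1} ‖r‖ = ∏_{‖r‖ < 1} ‖r‖⁻¹`; `Polynomial.mahlerMeasure_eq_leadingCoeff_mul_prod_roots`.
-/

set_option autoImplicit false

open Finset

namespace Pool.Agent.H76.BC

private theorem Unit_bd {z : ℤ} (h : |z| ≤ 1) (h0 : z ≠ 0) : z = 1 ∨ z = -1 := by
  rw [abs_le] at h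
  omega

theorem exists_unit_poly {l : ℝ} (hl : l ≠ 0) {n : ℕ} {a b : Fin n → Bool} (hab : a ≠ b) (h : psum l a = psum l b) :
    ∃ P : Polynomial ℤ, Irreducible P ∧ P.Monic ∧ (P.coeff 0 = 1 ∨ P.coeff 0 = -1) ∧ Polynomial.aeval l P = 0 := by
  classical
  let η : Fin n → ℤ := fun i => (if a i then 1 else 0) - (if b i then 1 else 0)
  have hη : ∀ i, |η i| ≤ 1 := by
    intro i
    simp only [η]
    split_ifs <;> simp
  obtain ⟨Q, hQ⟩ : ∃ Q : Polynomial ℤ, Q = ∑ i : Fin n, Polynomial.C (η i) * Polynomial.X ^ (i : ℕ) := ⟨_, rfl⟩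
  have hco : ∀ j : ℕ, Q.coeff j = if h : j < n then η ⟨j, h⟩ else 0 := by
    intro j
    rw [hQ, Polynomial.finsetSum_coeff]
    simp only [Polynomial.coeff_C_mul, Polynomial.coeff_X_pow]
    split_ifs with hj
    · rw [Finset.sum_eq_single ⟨j, hj⟩]
      · simp
      · intro i _ hi
        have : j ≠ (i : ℕ) := fun h => hi (Fin.ext h.symm)
        simp [this]
      · intro h
        exact absurd (Finset.mem_univ _) h
    · refine Finset.sum_eq_zero fun i _ => ?_
      have : j ≠ (i : ℕ) := by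
        have := i.isLt
        omega
      simp [this]
  have hcb : ∀ j : ℕ, |Q.coeff j| ≤ 1 := by
    intro j
    rw [hco]
    split_ifs
    · exact hη _
    · simp
  have hQ0 : Q ≠ 0 := by
    intro h0
    apply hab
    funext i
    have h1 := hco i
    rw [h0, Polynomial.coeff_zero, dif_pos i.isLt] at h1
    simp only [η] at h1
    by_contra hne
    cases ha : a i <;> cases hb : b i
    · exact hne (by rw [ha, hb])
    · rw [ha, hb] at h1
      norm_num at h1
    · rw [ha, hb] at h1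
      norm_num at h1
    · exact hne (by rw [ha, hb])
  have hroot : Polynomial.aeval l Q = 0 := by
    have h1 : Polynomial.aeval l Q = ∑ i : Fin n, (η i : ℝ) * l ^ (i : ℕ) := by
      rw [hQ, map_sum]
      refine Finset.sum_congr rfl fun i _ => ?_
      simp
    have h2 : psum l a - psum l b = 2 * ∑ i : Fin n, (η i : ℝ) * l ^ (i : ℕ) := by
      unfold psum
      rw [← Finset.sum_sub_distrib, Finset.mul_sum]
      refine Finset.sum_congr rfl fun i _ => ?_
      simp only [η]
      split_ifs <;> push_cast <;> ring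
    rw [h1]
    rw [h, sub_self] at h2
    linarith
  obtain ⟨q, hq, hqd⟩ := Polynomial.exists_eq_pow_rootMultiplicity_mul_and_not_dvd Q hQ0 0
  rw [Polynomial.C_0, sub_zero] at hq hqd
  obtain ⟨m, hm⟩ : ∃ m, m = Polynomial.rootMultiplicity 0 Q := ⟨_, rfl⟩
  rw [← hm] at hq
  rw [Polynomial.X_dvd_iff] at hqd
  have hqc : ∀ j : ℕ, |q.coeff j| ≤ 1 := by
    intro j
    have h1 := hcb (j + m)
    rwa [hq, Polynomial.coeff_X_pow_mul] at h1
  have hq0 : q ≠ 0 := by
    intro h0
    rw [h0] at hqd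
    simp at hqd
  have hqroot : Polynomial.aeval l q = 0 := by
    rw [hq, map_mul, map_pow, Polynomial.aeval_X] at hroot
    rcases mul_eq_zero.1 hroot with h1 | h1
    · exact absurd h1 (pow_ne_zero m hl)
    · exact h1
  have hlead : q.leadingCoeff = 1 ∨ q.leadingCoeff = -1 :=
    Unit_bd (hqc _) (Polynomial.leadingCoeff_ne_zero.2 hq0)
  have hint : IsIntegral ℤ l := by
    refine ⟨Polynomial.C q.leadingCoeff * q, ?_, ?_⟩
    · unfold Polynomial.Monic
      rw [Polynomial.leadingCoeff_mul, Polynomial.leadingCoeff_C]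
      rcases hlead with h1 | h1 <;> rw [h1] <;> norm_num
    · have : Polynomial.aeval l (Polynomial.C q.leadingCoeff * q) = 0 := by
        rw [map_mul, hqroot, mul_zero]
      simpa [Polynomial.aeval_def] using this
  refine ⟨minpoly ℤ l, minpoly.irreducible hint, minpoly.monic hint, ?_, minpoly.aeval ℤ l⟩
  obtain ⟨s, hs⟩ := minpoly.isIntegrallyClosed_dvd hint hqroot
  have h1 : q.coeff 0 = (minpoly ℤ l).coeff 0 * s.coeff 0 := by
    rw [← Polynomial.mul_coeff_zero, ← hs]
  rcases Unit_bd (hqc 0) hqd with h2 | h2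
  · rw [h2] at h1
    exact Int.isUnit_iff.1 (IsUnit.of_mul_eq_one _ h1.symm)
  · rw [h2] at h1
    refine Int.isUnit_iff.1 (IsUnit.of_mul_eq_one (-s.coeff 0) ?_)
    rw [mul_neg, ← h1, neg_neg]

private theorem Unit_prod (s : Multiset ℂ) (hs : ∀ r ∈ s, r ≠ 0) :
    (s.map fun r => max 1 ‖r‖).prod =
      (s.map fun r => ‖r‖).prod * ((s.filter fun r => ‖r‖ < 1).map fun r => ‖r‖⁻¹).prod := by
  classical
  induction s using Multiset.induction_on with
  | empty => simp
  | cons r s ih =>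
    have h1 := ih fun r' hr' => hs r' (Multiset.mem_cons_of_mem hr')
    have hr : ‖r‖ ≠ 0 := norm_ne_zero_iff.2 (hs r (Multiset.mem_cons_self r s))
    by_cases h : ‖r‖ < 1
    · rw [Multiset.filter_cons_of_pos (p := fun r : ℂ => ‖r‖ < 1) s h, Multiset.map_cons, Multiset.map_cons, Multiset.map_cons,
        Multiset.prod_cons, Multiset.prod_cons, Multiset.prod_cons, h1, max_eq_left h.le]
      field_simp
    · rw [Multiset.filter_cons_of_neg (p := fun r : ℂ => ‖r‖ < 1) s h, Multiset.map_cons, Multiset.map_cons,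
        Multiset.prod_cons, Multiset.prod_cons, h1, max_eq_right (not_lt.1 h)]
      ring

theorem MM_eq {P : Polynomial ℤ} (hm : P.Monic) (h0 : P.coeff 0 = 1 ∨ P.coeff 0 = -1) :
    (P.map (Int.castRingHom ℂ)).mahlerMeasure = MM P := by
  classical
  obtain ⟨p, hp⟩ : ∃ p, p = P.map (Int.castRingHom ℂ) := ⟨_, rfl⟩
  have hpm : p.Monic := by
    rw [hp]
    exact hm.map _
  have hc := (IsAlgClosed.splits p).coeff_zero_eq_prod_roots_of_monic hpm
  have hn : (p.roots.map fun r => ‖r‖).prod = 1 := by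
    have h1 : ‖p.coeff 0‖ = 1 := by
      rw [hp, Polynomial.coeff_map]
      rcases h0 with h | h <;> rw [h] <;> simp
    rw [hc, norm_mul, norm_pow, norm_neg, norm_one, one_pow, one_mul] at h1
    have h2 : ‖p.roots.prod‖ = (p.roots.map fun r => ‖r‖).prod :=
      map_multiset_prod (normHom : ℂ →*₀ ℝ) p.roots
    rw [← h2, h1]
  have hne : ∀ r ∈ p.roots, r ≠ 0 := by
    intro r hr h
    have h1 : (0 : ℝ) ∈ p.roots.map fun r => ‖r‖ := by
      rw [Multiset.mem_map]
      exact ⟨r, hr, by rw [h, norm_zero]⟩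
    rw [Multiset.prod_eq_zero h1] at hn
    exact absurd hn zero_ne_one
  rw [← hp, Polynomial.mahlerMeasure_eq_leadingCoeff_mul_prod_roots, hpm.leadingCoeff, norm_one,
    one_mul, Unit_prod _ hne, hn, one_mul]
  unfold MM rin
  rw [hp]

theorem irr_ne {l : ℝ} (hl : l ≠ 0) {P : Polynomial ℤ} (hP : Irreducible P) (hr : Polynomial.aeval l P = 0) : P.coeff 0 ≠ 0 := by
  intro h
  obtain ⟨s, hs⟩ := Polynomial.X_dvd_iff.2 h
  rcases hP.isUnit_or_isUnit hs with h1 | h1
  · exact Polynomial.not_isUnit_X h1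
  · rw [hs, map_mul, Polynomial.aeval_X] at hr
    rcases mul_eq_zero.1 hr with h2 | h2
    · exact hl h2
    · exact (h1.map (Polynomial.aeval l)).ne_zero h2

end Pool.Agent.H76.BC
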