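import Pool.Agent.H76.BC.Par
import Pool.Agent.H76.BC.Gap
import Pool.Agent.H76.BC.Ent
import Pool.Agent.H76.BC.Unit

/-!
# The theorem

Let `ε`, `c`, `C` be as in `main_unit`; take `c' = min c (1/4)`, `C' = max C 1`, and `ε' = min ε 1e-6`.
Let `|l - 1/√2| < ε'`.  If for some length there is a coincidence, let `P` be as in `exists_unit_poly`.  If `aeval l⁻¹ P ≠ 0` then `gap`; otherwise the hypothesis together with `MM_eq` gives `(1 + 1e-6) / l ≤ MM P`.  So `main_unit` applies to all `N`.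
Otherwise `coll l N = 2 ^ N` for all `N` and `2 ≤ 4 l exp (-1/4)` (`4 * 0.707 * 0.7788 = 2.2`).
The entropy: `entropy ≥ - log (coll / 4 ^ n) ≥ - log (C' (l exp (-c')) ^ n) = n (log (1/l) + c') - log C'`.
-/

set_option autoImplicit false

open Finset

namespace Pool.Agent.H76.BC

theorem final : ∃ ε > 0, ∃ c > 0, ∃ C : ℝ, ∀ l : ℝ, |l - 1 / √2| < ε →
    (∀ P : Polynomial ℤ, Irreducible P → Polynomial.aeval l P = 0 → Polynomial.aeval l⁻¹ P = 0 →
      (1 + 1 / 10 ^ 6) / l ≤ (P.map (Int.castRingHom ℂ)).mahlerMeasure) →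
    ∀ n : ℕ, (coll l n : ℝ) ≤ C * (4 * l * Real.exp (-c)) ^ n ∧ n * (Real.log (1 / l) + c) - C ≤ entropy l n := by
  obtain ⟨ε, hε, hε6, c, hc, C, hC, H⟩ := main_unit
  refine ⟨ε, hε, min c (1 / 4), lt_min hc (by norm_num), max C 1, ?_⟩
  intro l hl hyp n
  have hl' : |l - l0| < ε := by rwa [l0, ← one_div]
  have hl6 : |l - l0| < 1 / 10 ^ 6 := hl'.trans_le hε6
  have hb := l0_bounds
  have hlb : 0.707 < l := by
    have := (abs_lt.1 hl6).1
    norm_num at this hb ⊢
    linarith [hb.1]
  have hl0 : 0 < l := by linarith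
  have hC0 : (0 : ℝ) < max C 1 := lt_max_of_lt_right one_pos
  have hC1 : (1 : ℝ) ≤ max C 1 := le_max_right _ _
  have hcoll : (coll l n : ℝ) ≤ max C 1 * (4 * l * Real.exp (-min c (1 / 4))) ^ n := by
    by_cases hco : ∃ a b : Fin n → Bool, psum l a = psum l b ∧ a ≠ b
    · obtain ⟨a, b, hab, hne⟩ := hco
      obtain ⟨P, hP, hm, h0, hr⟩ := exists_unit_poly hl0.ne' hne hab
      have hMM : (1 + 1 / 10 ^ 6) / l ≤ MM P := by
        by_cases hrec : Polynomial.aeval l⁻¹ P = 0
        · rw [← MM_eq hm h0]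
          exact hyp P hP hr hrec
        · exact gap hl6 hm h0 hr hrec
      have h1 := H l hl' P hP hm h0 hr hMM n
      refine h1.trans ?_
      have h2 : Real.exp (-c) ≤ Real.exp (-min c (1 / 4)) :=
        Real.exp_le_exp.2 (neg_le_neg (min_le_left _ _))
      have h3 : (4 * l * Real.exp (-c)) ^ n ≤ (4 * l * Real.exp (-min c (1 / 4))) ^ n := by
        gcongr
      exact mul_le_mul (le_max_left _ _) h3 (by positivity) hC0.le
    · have h1 : coll l n = 2 ^ n := by
        refine coll_triv fun a b hab => ?_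
        by_contra hne
        exact hco ⟨a, b, hab, hne⟩
      rw [h1]
      push_cast
      have h2 : (3 : ℝ) / 4 ≤ Real.exp (-min c (1 / 4)) := by
        have h3 : (-(1 / 4) : ℝ) ≤ -min c (1 / 4) := neg_le_neg (min_le_right _ _)
        have h4 := Real.add_one_le_exp (-min c (1 / 4))
        linarith
      have h5 : (2 : ℝ) ≤ 4 * l * Real.exp (-min c (1 / 4)) := by
        have h6 : (0.707 : ℝ) * (3 / 4) ≤ l * Real.exp (-min c (1 / 4)) :=
          mul_le_mul hlb.le h2 (by norm_num) hl0.le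
        norm_num at h6
        linarith
      calc (2 : ℝ) ^ n ≤ (4 * l * Real.exp (-min c (1 / 4))) ^ n := by gcongr
        _ ≤ max C 1 * (4 * l * Real.exp (-min c (1 / 4))) ^ n :=
          le_mul_of_one_le_left (by positivity) hC1
  refine ⟨hcoll, ?_⟩
  refine le_trans ?_ (entropy_ge l n)
  have hcp : (0 : ℝ) < coll l n := by exact_mod_cast coll_pos l n
  have h4n : (0 : ℝ) < 4 ^ n := by positivity
  have hE : (coll l n : ℝ) / 4 ^ n ≤ max C 1 * (l * Real.exp (-min c (1 / 4))) ^ n := by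
    rw [div_le_iff₀ h4n]
    refine hcoll.trans (le_of_eq ?_)
    rw [mul_assoc 4 l, mul_pow 4]
    ring
  have hlog : Real.log ((coll l n : ℝ) / 4 ^ n) ≤
      Real.log (max C 1) + n * (Real.log l - min c (1 / 4)) := by
    refine (Real.log_le_log (by positivity) hE).trans (le_of_eq ?_)
    rw [Real.log_mul hC0.ne' (by positivity), Real.log_pow, Real.log_mul hl0.ne' (Real.exp_ne_zero _),
      Real.log_exp]
    ring
  have hlC : Real.log (max C 1) ≤ max C 1 := by
    have := Real.log_le_sub_one_of_pos hC0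
    linarith
  have hl1 : Real.log (1 / l) = -Real.log l := by
    rw [one_div, Real.log_inv]
  rw [hl1]
  have e : (n : ℝ) * (-Real.log l + min c (1 / 4)) = -(n * (Real.log l - min c (1 / 4))) := by ring
  rw [e]
  linarith

end Pool.Agent.H76.BC
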