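import Pool.Agent.H76.BC.Pois

/-!
# The mean value of the Gaussian majorant

Let `g k = exp (- k² / (2 v))` for `k : ℤ`, `G k = ∏ j : Fin n, g (k j)` for `k : Fin n → ℤ`, `y k = α ∑ j, k j * l ^ j`.

1. `∏ j : Fin n, (∑' k : ℤ, g k * cos (k θ_j)) = ∑' k : Fin n → ℤ, G k * cos (∑ j, k j * θ_j)`: over `ℂ` with `exp (i k θ)` (the imaginary parts of the one-dimensional sums vanish by `k ↦ -k`), product of absolutely summable series, by induction on `n`
   (`Fin.consEquiv` / `Fin.cons`, `tsum_mul_tsum_of_summable_norm`); summability of `G` also by induction.  (Alternatively prove directly by induction on `n` the statement: for all `φ : ℝ`, `(∏ j : Fin n, ∑' k, g k cos (k θ_j)) * cos φ = ∑' k, G k cos (φ + ∑ k j θ_j)`;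
   `∑' k, g k sin (k θ) = 0`.)
2. With `poisson_ge`: `exp (-(π² v / 4) ∑ j < n, (1 - cos (α x l ^ j))) ≤ (√(2πv))⁻¹ ^ n * ∑' k, G k * cos (x * y k)`.
3. `∫ x in 0..T` of the right side is `∑' k, G k * ∫ x in 0..T, cos (x * y k)` (`hasSum_integral_of_summable_norm` for interval integrals: `intervalIntegral.hasSum_integral_of_summable_norm` or `MeasureTheory.hasSum_integral_of_summable_integral_norm`); divided by `T` it tends for `T → ∞` to
   `∑' k, if y k = 0 then G k else 0` (`tendsto_tsum_of_dominated_convergence`; `|∫ cos (x y)| ≤ T` and `= sin (T y) / y` for `y ≠ 0`).  `y k = 0` iff `∑ j, k j * l ^ j = 0` because `α ≠ 0`.  The limit is at most `B < 2 B`, so for `T ≥ T0`, `T > 0`, the quotient is at most `2 B`.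
-/

set_option autoImplicit false

open Finset

namespace Pool.Agent.H76.BC

private theorem mean_odd (g : ℤ → ℝ) (hg : ∀ k, g (-k) = g k) (θ : ℝ) : ∑' k : ℤ, g k * Real.sin (k * θ) = 0 := by
  have h1 := (Equiv.neg ℤ).tsum_eq fun k : ℤ => g k * Real.sin (k * θ)
  have h2 : ∀ k : ℤ, g ((Equiv.neg ℤ) k) * Real.sin (((Equiv.neg ℤ) k : ℤ) * θ) = -(g k * Real.sin (k * θ)) := fun k => by
    rw [Equiv.neg_apply, hg]
    push_cast
    rw [neg_mul, Real.sin_neg]
    ring
  simp only [h2] at h1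
  rw [tsum_neg] at h1
  linarith

private theorem mean_shift (g : ℤ → ℝ) (hg : ∀ k, g (-k) = g k) (hg0 : ∀ k, 0 ≤ g k) (hs : Summable g) (φ θ : ℝ) :
    ∑' k : ℤ, g k * Real.cos (φ + k * θ) = (∑' k : ℤ, g k * Real.cos (k * θ)) * Real.cos φ := by
  have hc : Summable fun k : ℤ => g k * Real.cos (k * θ) :=
    Summable.of_norm_bounded hs fun k => by
      rw [Real.norm_eq_abs, abs_mul, abs_of_nonneg (hg0 k)]
      exact mul_le_of_le_one_right (hg0 k) (Real.abs_cos_le_one _)
  have hsin : Summable fun k : ℤ => g k * Real.sin (k * θ) :=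
    Summable.of_norm_bounded hs fun k => by
      rw [Real.norm_eq_abs, abs_mul, abs_of_nonneg (hg0 k)]
      exact mul_le_of_le_one_right (hg0 k) (Real.abs_sin_le_one _)
  have h1 : ∀ k : ℤ, g k * Real.cos (φ + k * θ) = (g k * Real.cos (k * θ)) * Real.cos φ - (g k * Real.sin (k * θ)) * Real.sin φ := fun k => by
    rw [Real.cos_add]
    ring
  simp only [h1]
  rw [(hc.mul_right _).tsum_sub (hsin.mul_right _), tsum_mul_right, tsum_mul_right, mean_odd g hg]
  ring

private theorem mean_summable (g : ℤ → ℝ) (hg0 : ∀ k, 0 ≤ g k) (hs : Summable g) (n : ℕ) :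
    Summable fun k : Fin n → ℤ => ∏ j, g (k j) := by
  induction n with
  | zero => exact Summable.of_finite
  | succ n ih =>
    rw [← (Fin.consEquiv fun _ : Fin (n + 1) => ℤ).summable_iff]
    have h1 := hs.mul_of_nonneg ih hg0 (fun k => Finset.prod_nonneg fun j _ => hg0 _)
    refine h1.congr fun k => ?_
    simp [Fin.prod_univ_succ, Fin.consEquiv]

private theorem mean_prod (g : ℤ → ℝ) (hg : ∀ k, g (-k) = g k) (hg0 : ∀ k, 0 ≤ g k) (hs : Summable g) (n : ℕ) (θ : Fin n → ℝ) (φ : ℝ) :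
    ∑' k : Fin n → ℤ, (∏ j, g (k j)) * Real.cos (φ + ∑ j, k j * θ j) = (∏ j, ∑' k : ℤ, g k * Real.cos (k * θ j)) * Real.cos φ := by
  induction n generalizing φ with
  | zero =>
    rw [tsum_eq_single (fun i => i.elim0)]
    · simp
    · intro b hb
      exact absurd (Subsingleton.elim _ _) hb
  | succ n ih =>
    have hsum : Summable fun k : Fin (n + 1) → ℤ => (∏ j, g (k j)) * Real.cos (φ + ∑ j, k j * θ j) :=
      Summable.of_norm_bounded (mean_summable g hg0 hs (n + 1)) fun k => by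
        have h0 : 0 ≤ ∏ j, g (k j) := Finset.prod_nonneg fun j _ => hg0 _
        rw [Real.norm_eq_abs, abs_mul, abs_of_nonneg h0]
        exact mul_le_of_le_one_right h0 (Real.abs_cos_le_one _)
    rw [← (Fin.consEquiv fun _ : Fin (n + 1) => ℤ).tsum_eq]
    rw [← (Fin.consEquiv fun _ : Fin (n + 1) => ℤ).summable_iff] at hsum
    have h1 := Summable.tsum_prod hsum
    simp only [Function.comp] at h1
    rw [h1]
    have h2 : ∀ a : ℤ, ∑' k : Fin n → ℤ, (∏ j, g ((Fin.consEquiv fun _ : Fin (n + 1) => ℤ) (a, k) j)) *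
        Real.cos (φ + ∑ j, ((Fin.consEquiv fun _ : Fin (n + 1) => ℤ) (a, k) j : ℤ) * θ j) =
        (∏ j : Fin n, ∑' k : ℤ, g k * Real.cos (k * θ j.succ)) * (g a * Real.cos (φ + a * θ 0)) := fun a => by
      have h3 := ih (fun j => θ j.succ) (φ + a * θ 0)
      rw [mul_comm (g a), ← mul_assoc, ← h3, ← tsum_mul_right]
      refine tsum_congr fun k => ?_
      simp only [Fin.consEquiv, Equiv.coe_fn_mk, Fin.prod_univ_succ, Fin.sum_univ_succ, Fin.cons_zero, Fin.cons_succ]
      rw [add_assoc]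
      ring
    rw [tsum_congr h2, tsum_mul_left, mean_shift g hg hg0 hs, Fin.prod_univ_succ]
    ring

private theorem mean_avg (y : ℝ) : Filter.Tendsto (fun T : ℝ => T⁻¹ * ∫ x in (0 : ℝ)..T, Real.cos (x * y)) Filter.atTop
    (nhds (if y = 0 then 1 else 0)) := by
  split_ifs with h
  · refine tendsto_const_nhds.congr' ?_
    filter_upwards [Filter.eventually_gt_atTop 0] with T hT
    simp [h, hT.ne']
  · have h1 : ∀ T : ℝ, ∫ x in (0 : ℝ)..T, Real.cos (x * y) = Real.sin (T * y) / y := fun T => by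
      rw [intervalIntegral.integral_comp_mul_right (fun x => Real.cos x) h, integral_cos]
      simp
      ring
    simp only [h1]
    refine squeeze_zero_norm' (a := fun T : ℝ => T⁻¹ * |y|⁻¹) ?_ ?_
    · filter_upwards [Filter.eventually_gt_atTop 0] with T hT
      rw [Real.norm_eq_abs, abs_mul, abs_div, abs_of_pos (inv_pos.2 hT)]
      refine mul_le_mul_of_nonneg_left ?_ (inv_pos.2 hT).le
      rw [div_eq_mul_inv]
      exact mul_le_of_le_one_left (inv_nonneg.2 (abs_nonneg _)) (Real.abs_sin_le_one _)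
    · have := tendsto_inv_atTop_zero.mul_const (b := |y|⁻¹) (α := ℝ)
      simpa using this

private theorem mean_avg_le {T : ℝ} (hT : 0 < T) (y : ℝ) : |T⁻¹ * ∫ x in (0 : ℝ)..T, Real.cos (x * y)| ≤ 1 := by
  have h1 : ‖∫ x in (0 : ℝ)..T, Real.cos (x * y)‖ ≤ 1 * |T - 0| :=
    intervalIntegral.norm_integral_le_of_norm_le_const fun x _ => Real.abs_cos_le_one _
  rw [sub_zero, one_mul, abs_of_pos hT, Real.norm_eq_abs] at h1
  rw [abs_mul, abs_of_pos (inv_pos.2 hT)]
  calc T⁻¹ * |∫ x in (0 : ℝ)..T, Real.cos (x * y)| ≤ T⁻¹ * T := mul_le_mul_of_nonneg_left h1 (inv_pos.2 hT).le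
    _ = 1 := inv_mul_cancel₀ hT.ne'

theorem mean_bound {l α v : ℝ} (hα : α ≠ 0) (hv : 0 < v) (n : ℕ) {B : ℝ} (hB0 : 0 < B)
    (hB : ∑' k : Fin n → ℤ, (if ∑ j, (k j : ℝ) * l ^ (j : ℕ) = 0 then Real.exp (-(∑ j, (k j : ℝ) ^ 2) / (2 * v)) else 0) ≤ B) :
    ∃ T0 : ℝ, 0 < T0 ∧ ∀ T : ℝ, T0 ≤ T →
      ∫ x in (0 : ℝ)..T, Real.exp (-(Real.pi ^ 2 * v / 4 * ∑ j ∈ range n, (1 - Real.cos (α * x * l ^ j)))) ≤
        T * (2 * ((√(2 * Real.pi * v))⁻¹ ^ n * B)) := by
  obtain ⟨g, hg⟩ : ∃ g : ℤ → ℝ, ∀ k, g k = Real.exp (-(k : ℝ) ^ 2 / (2 * v)) := ⟨_, fun k => rfl⟩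
  have hg0 : ∀ k, 0 ≤ g k := fun k => by rw [hg]; exact (Real.exp_pos _).le
  have hgs : ∀ k, g (-k) = g k := fun k => by
    rw [hg, hg]
    push_cast
    rw [neg_sq]
  have hs : Summable g := (summable_gauss hv).congr fun k => (hg k).symm
  obtain ⟨G, hG⟩ : ∃ G : (Fin n → ℤ) → ℝ, ∀ k, G k = ∏ j, g (k j) := ⟨_, fun k => rfl⟩
  have hG0 : ∀ k, 0 ≤ G k := fun k => by rw [hG]; exact Finset.prod_nonneg fun j _ => hg0 _
  have hGs : Summable G := (mean_summable g hg0 hs n).congr fun k => (hG k).symm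
  obtain ⟨y, hy⟩ : ∃ y : (Fin n → ℤ) → ℝ, ∀ k, y k = α * ∑ j, (k j : ℝ) * l ^ (j : ℕ) := ⟨_, fun k => rfl⟩
  -- the pointwise bound
  have hpt : ∀ x : ℝ, Real.exp (-(Real.pi ^ 2 * v / 4 * ∑ j ∈ range n, (1 - Real.cos (α * x * l ^ j)))) ≤
      (√(2 * Real.pi * v))⁻¹ ^ n * ∑' k, G k * Real.cos (x * y k) := fun x => by
    have h1 : Real.exp (-(Real.pi ^ 2 * v / 4 * ∑ j ∈ range n, (1 - Real.cos (α * x * l ^ j)))) =
        ∏ j : Fin n, Real.exp (-(Real.pi ^ 2 * v / 4 * (1 - Real.cos (α * x * l ^ (j : ℕ))))) := by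
      rw [← Real.exp_sum, Finset.sum_neg_distrib, ← Finset.mul_sum, Finset.sum_range]
    have h2 : ∏ j : Fin n, Real.exp (-(Real.pi ^ 2 * v / 4 * (1 - Real.cos (α * x * l ^ (j : ℕ))))) ≤
        ∏ j : Fin n, ((√(2 * Real.pi * v))⁻¹ * ∑' k : ℤ, g k * Real.cos (k * (α * x * l ^ (j : ℕ)))) := by
      refine Finset.prod_le_prod (fun j _ => (Real.exp_pos _).le) fun j _ => ?_
      have h3 := poisson_ge hv (α * x * l ^ (j : ℕ))
      simp only [← hg] at h3
      exact h3
    have h3 := mean_prod g hgs hg0 hs n (fun j => α * x * l ^ (j : ℕ)) 0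
    rw [Real.cos_zero, mul_one] at h3
    rw [h1]
    refine h2.trans (le_of_eq ?_)
    rw [Finset.prod_mul_distrib, Finset.prod_const, Finset.card_univ, Fintype.card_fin, ← h3]
    congr 1
    refine tsum_congr fun k => ?_
    rw [hG, hy, zero_add, Finset.mul_sum, Finset.mul_sum]
    congr 2
    exact Finset.sum_congr rfl fun j _ => by ring
  -- the mean value
  have hint : ∀ T : ℝ, ∫ x in (0 : ℝ)..T, ∑' k, G k * Real.cos (x * y k) = ∑' k, G k * ∫ x in (0 : ℝ)..T, Real.cos (x * y k) := fun T => by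
    have h1 : HasSum (fun k => ∫ x in (0 : ℝ)..T, G k * Real.cos (x * y k)) (∫ x in (0 : ℝ)..T, ∑' k, G k * Real.cos (x * y k)) := by
      refine intervalIntegral.hasSum_integral_of_dominated_convergence (fun k _ => G k) ?_ ?_ ?_ ?_ ?_
      · intro k
        exact (by fun_prop : Continuous fun x : ℝ => G k * Real.cos (x * y k)).aestronglyMeasurable
      · intro k
        refine Filter.Eventually.of_forall fun x _ => ?_
        rw [Real.norm_eq_abs, abs_mul, abs_of_nonneg (hG0 k)]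
        exact mul_le_of_le_one_right (hG0 k) (Real.abs_cos_le_one _)
      · exact Filter.Eventually.of_forall fun x _ => hGs
      · exact intervalIntegrable_const
      · refine Filter.Eventually.of_forall fun x _ => ?_
        refine Summable.hasSum ?_
        refine Summable.of_norm_bounded hGs fun k => ?_
        rw [Real.norm_eq_abs, abs_mul, abs_of_nonneg (hG0 k)]
        exact mul_le_of_le_one_right (hG0 k) (Real.abs_cos_le_one _)
    rw [← h1.tsum_eq]
    exact tsum_congr fun k => intervalIntegral.integral_const_mul _ _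
  have hlim : Filter.Tendsto (fun T : ℝ => ∑' k, G k * (T⁻¹ * ∫ x in (0 : ℝ)..T, Real.cos (x * y k))) Filter.atTop
      (nhds (∑' k, G k * (if y k = 0 then 1 else 0))) := by
    refine tendsto_tsum_of_dominated_convergence hGs (fun k => (mean_avg (y k)).const_mul (G k)) ?_
    filter_upwards [Filter.eventually_gt_atTop 0] with T hT k
    rw [Real.norm_eq_abs, abs_mul, abs_of_nonneg (hG0 k)]
    exact mul_le_of_le_one_right (hG0 k) (mean_avg_le hT _)
  have hB2 : ∑' k, G k * (if y k = 0 then (1 : ℝ) else 0) ≤ B := by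
    refine le_of_eq_of_le (tsum_congr fun k => ?_) hB
    have h1 : (y k = 0) ↔ (∑ j, (k j : ℝ) * l ^ (j : ℕ) = 0) := by
      rw [hy, mul_eq_zero]
      exact ⟨fun h => h.resolve_left hα, Or.inr⟩
    have h2 : G k = Real.exp (-(∑ j, (k j : ℝ) ^ 2) / (2 * v)) := by
      rw [hG]
      simp only [hg]
      rw [← Real.exp_sum, ← Finset.sum_div, Finset.sum_neg_distrib]
    by_cases h : y k = 0
    · rw [if_pos h, if_pos (h1.1 h), mul_one, h2]
    · rw [if_neg h, if_neg fun h' => h (h1.2 h'), mul_zero]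
  have hev := hlim.eventually_lt_const (lt_of_le_of_lt hB2 (by linarith : B < 2 * B))
  obtain ⟨T1, hT1⟩ := Filter.eventually_atTop.1 hev
  refine ⟨max T1 1, lt_max_of_lt_right one_pos, fun T hT => ?_⟩
  have hT0 : 0 < T := lt_of_lt_of_le one_pos ((le_max_right _ _).trans hT)
  have h1 := hT1 T ((le_max_left _ _).trans hT)
  have hcont : Continuous fun x : ℝ => ∑' k, G k * Real.cos (x * y k) := by
    refine continuous_tsum (fun k => by fun_prop) hGs fun k x => ?_
    rw [Real.norm_eq_abs, abs_mul, abs_of_nonneg (hG0 k)]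
    exact mul_le_of_le_one_right (hG0 k) (Real.abs_cos_le_one _)
  have h2 : ∫ x in (0 : ℝ)..T, ∑' k, G k * Real.cos (x * y k) ≤ T * (2 * B) := by
    rw [hint]
    have h3 : ∑' k, G k * ∫ x in (0 : ℝ)..T, Real.cos (x * y k) = T * ∑' k, G k * (T⁻¹ * ∫ x in (0 : ℝ)..T, Real.cos (x * y k)) := by
      rw [← tsum_mul_left]
      refine tsum_congr fun k => ?_
      generalize ∫ x in (0 : ℝ)..T, Real.cos (x * y k) = I
      rw [show T * (G k * (T⁻¹ * I)) = (T * T⁻¹) * (G k * I) by ring, mul_inv_cancel₀ hT0.ne', one_mul]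
    rw [h3]
    exact mul_le_mul_of_nonneg_left h1.le hT0.le
  have hc0 : 0 ≤ (√(2 * Real.pi * v))⁻¹ ^ n := by positivity
  calc ∫ x in (0 : ℝ)..T, Real.exp (-(Real.pi ^ 2 * v / 4 * ∑ j ∈ range n, (1 - Real.cos (α * x * l ^ j))))
      ≤ ∫ x in (0 : ℝ)..T, (√(2 * Real.pi * v))⁻¹ ^ n * ∑' k, G k * Real.cos (x * y k) := by
        refine intervalIntegral.integral_mono_on hT0.le ?_ ?_ fun x _ => hpt x
        · exact Continuous.intervalIntegrable (by fun_prop) _ _
        · exact Continuous.intervalIntegrable (continuous_const.mul hcont) _ _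
    _ = (√(2 * Real.pi * v))⁻¹ ^ n * ∫ x in (0 : ℝ)..T, ∑' k, G k * Real.cos (x * y k) := intervalIntegral.integral_const_mul _ _
    _ ≤ (√(2 * Real.pi * v))⁻¹ ^ n * (T * (2 * B)) := mul_le_mul_of_nonneg_left h2 hc0
    _ = T * (2 * ((√(2 * Real.pi * v))⁻¹ ^ n * B)) := by ring

end Pool.Agent.H76.BC
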