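import Pool.Agent.H76.BC.Defs

/-!
# Truncated norms of power series and Blaschke factors

`nrm K F = ∑ k ≤ K, ‖coeff k F‖²`.

* `nrm_in`: `(1 - conj c X) y = (X - c) F`, `‖c‖ < 1`.  Coefficients: `y_k - conj c y_{k-1} = F_{k-1} - c F_k` (`F_{-1} = y_{-1} = 0`).  `t_k := y_k + c F_k = F_{k-1} + conj c y_{k-1}`, `t_0 = 0`; `t_{k+1} = F_k + conj c y_k`.
  `‖t_{k+1}‖² - ‖t_k‖² = ‖F_k + conj c y_k‖² - ‖y_k + c F_k‖² = (1 - ‖c‖²)(‖F_k‖² - ‖y_k‖²)`; sum over `k ≤ K`: `(1 - ‖c‖²) (nrm K F - nrm K y) = ‖t_{K+1}‖² ≥ 0`.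
* `nrm_out`: `(X - r) y = (1 - conj r X) F`, `1 ≤ ‖r‖`.  `y_{k-1} - r y_k = F_k - conj r F_{k-1}`, `t_k := F_k + r y_k = y_{k-1} + conj r F_{k-1}`, `t_0 = 0`, `‖t_{k+1}‖² - ‖t_k‖² = ‖y_k + conj r F_k‖² - ‖F_k + r y_k‖² = (‖r‖² - 1)(‖F_k‖² - ‖y_k‖²)`.
  For `‖r‖ > 1` as before.  For `‖r‖ = 1`: `t_k = 0` for all `k`, so `‖y_k‖ = ‖F_k‖`.
-/

set_option autoImplicit false

open Finset PowerSeries

namespace Pool.Agent.H76.BC

/-- the squared norm of the first coefficients -/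
noncomputable def nrm (K : ℕ) (F : PowerSeries ℂ) : ℝ := ∑ k ∈ range (K + 1), ‖coeff k F‖ ^ 2

private lemma PS_id (c a b : ℂ) : ‖a + (starRingEnd ℂ) c * b‖ ^ 2 - ‖b + c * a‖ ^ 2 =
    (1 - ‖c‖ ^ 2) * (‖a‖ ^ 2 - ‖b‖ ^ 2) := by
  simp only [← Complex.normSq_eq_norm_sq, Complex.normSq_apply, Complex.add_re, Complex.add_im,
    Complex.mul_re, Complex.mul_im, Complex.conj_re, Complex.conj_im]
  ring

private lemma PS_sum (c : ℂ) (a b : ℕ → ℂ) (h0 : b 0 + c * a 0 = 0)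
    (h : ∀ k, b (k + 1) + c * a (k + 1) = a k + (starRingEnd ℂ) c * b k) (K : ℕ) :
    (1 - ‖c‖ ^ 2) * (∑ k ∈ range (K + 1), ‖a k‖ ^ 2 - ∑ k ∈ range (K + 1), ‖b k‖ ^ 2) =
      ‖a K + (starRingEnd ℂ) c * b K‖ ^ 2 := by
  induction K with
  | zero =>
    have h1 := PS_id c (a 0) (b 0)
    rw [h0, norm_zero] at h1
    simp only [zero_add, sum_range_one]
    linarith
  | succ K ih =>
    have h1 := PS_id c (a (K + 1)) (b (K + 1))
    rw [h K] at h1
    rw [sum_range_succ _ (K + 1), sum_range_succ _ (K + 1)]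
    linarith

theorem nrm_in {c : ℂ} (hc : ‖c‖ < 1) {F y : PowerSeries ℂ} (h : (1 - C ((starRingEnd ℂ) c) * X) * y = (X - C c) * F) (K : ℕ) :
    nrm K y ≤ nrm K F := by
  have h0 : coeff 0 y + c * coeff 0 F = 0 := by
    have h1 := congrArg (coeff 0) h
    rw [sub_mul, sub_mul, one_mul, mul_assoc, map_sub, map_sub, coeff_C_mul, coeff_C_mul,
      coeff_zero_X_mul, coeff_zero_X_mul] at h1
    linear_combination h1
  have h1 : ∀ k, coeff (k + 1) y + c * coeff (k + 1) F = coeff k F + (starRingEnd ℂ) c * coeff k y := by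
    intro k
    have h1 := congrArg (coeff (k + 1)) h
    rw [sub_mul, sub_mul, one_mul, mul_assoc, map_sub, map_sub, coeff_C_mul, coeff_C_mul,
      coeff_succ_X_mul, coeff_succ_X_mul] at h1
    linear_combination h1
  have h2 := PS_sum c (fun k => coeff k F) (fun k => coeff k y) h0 h1 K
  have h3 : 0 < 1 - ‖c‖ ^ 2 := by nlinarith [norm_nonneg c]
  have h4 : 0 ≤ (1 - ‖c‖ ^ 2) * (nrm K F - nrm K y) := h2.symm ▸ sq_nonneg _
  have := nonneg_of_mul_nonneg_right h4 h3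
  linarith

theorem nrm_out {r : ℂ} (hr : 1 ≤ ‖r‖) {F y : PowerSeries ℂ} (h : (X - C r) * y = (1 - C ((starRingEnd ℂ) r) * X) * F) (K : ℕ) :
    nrm K y ≤ nrm K F := by
  have h0 : coeff 0 F + r * coeff 0 y = 0 := by
    have h1 := congrArg (coeff 0) h
    rw [sub_mul, sub_mul, one_mul, mul_assoc, map_sub, map_sub, coeff_C_mul, coeff_C_mul,
      coeff_zero_X_mul, coeff_zero_X_mul] at h1
    linear_combination -h1
  have h1 : ∀ k, coeff (k + 1) F + r * coeff (k + 1) y = coeff k y + (starRingEnd ℂ) r * coeff k F := by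
    intro k
    have h1 := congrArg (coeff (k + 1)) h
    rw [sub_mul, sub_mul, one_mul, mul_assoc, map_sub, map_sub, coeff_C_mul, coeff_C_mul,
      coeff_succ_X_mul, coeff_succ_X_mul] at h1
    linear_combination -h1
  have h2 := fun K => PS_sum r (fun k => coeff k y) (fun k => coeff k F) h0 h1 K
  rcases hr.lt_or_eq with hr | hr
  · have h3 : 0 < ‖r‖ ^ 2 - 1 := by nlinarith
    have h4 : 0 ≤ (‖r‖ ^ 2 - 1) * (nrm K F - nrm K y) := by
      have h5 : (‖r‖ ^ 2 - 1) * (nrm K F - nrm K y) = (1 - ‖r‖ ^ 2) * (nrm K y - nrm K F) := by ring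
      rw [h5]
      exact (h2 K).symm ▸ sq_nonneg _
    have := nonneg_of_mul_nonneg_right h4 h3
    linarith
  · have h3 : ∀ k, coeff k y + (starRingEnd ℂ) r * coeff k F = 0 := by
      intro k
      have h4 := h2 k
      rw [← hr] at h4
      have h5 : ‖coeff k y + (starRingEnd ℂ) r * coeff k F‖ ^ 2 = 0 := by
        rw [← h4]
        norm_num
      rwa [sq_eq_zero_iff, norm_eq_zero] at h5
    apply le_of_eq
    unfold nrm
    apply sum_congr rfl
    intro k _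
    have h4 : coeff k y = -((starRingEnd ℂ) r * coeff k F) := eq_neg_of_add_eq_zero_left (h3 k)
    rw [h4, norm_neg, norm_mul, RCLike.norm_conj, ← hr, one_mul]

end Pool.Agent.H76.BC
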