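import Pool.Agent.H76.BC.PS

/-!
# The quotient of a polynomial and its reciprocal

`P` monic with `P.coeff 0 = ± 1`, `l` real with `0 < |l| < 1`, `P(l) = 0`, `P(1/l) ≠ 0`.  `p = P.map (Int.castRingHom ℂ)`.

1. `f : PowerSeries ℤ` with `P * f = P.reverse` (`P` is a unit of `PowerSeries ℤ` because its constant coefficient is a unit: `PowerSeries.invOfUnit`).  `a k = coeff k f`.  `a 0 = ± 1` (the constant coefficient of `P.reverse` is the leading coefficient `1`).
   If `a k = 0` for all `k ≥ 1` then `P.reverse = ± P`, and `P(1/l) = l^{-d} P.reverse(l) = ± l^{-d} P(l) = 0` (`Polynomial.eval₂_reverse_mul_pow` or `Polynomial.reverse` lemmas), a contradiction.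
2. Over `ℂ`: `p = ∏ (X - C r)` over `r ∈ p.roots` (monic, splits), `p.reverse = ∏ (1 - C r * X) = ∏ (1 - C (conj r) * X)` (the multiset of roots is invariant under conjugation because the coefficients are real: `(p.roots).map conj = p.roots`).
   All roots are `≠ 0`.  Write `p.roots = rin P + out`, `out` the roots with `1 ≤ ‖r‖`, and `rin P = l ::ₘ S` (`l ∈ rin P`).
3. In `PowerSeries ℂ` define `B` by `(∏_{r ∈ S} (1 - C (conj r) X)) * B = ∏_{r ∈ S} (X - C r)` (all constant coefficients `≠ 0`; `B` is the product of the power series `b_r`, `(1 - conj r X) b_r = X - r`).  `constantCoeff B = ∏ (-r)`, so its norm is `∏_{S} ‖r‖ = 1 / (l * MM P)` for `l > 0`.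
   `nrm K (B * G) ≤ nrm K G` for every `G` (`nrm_in`, induction over `S`).
4. `F := b_l * f` over `ℂ` (`(1 - l X) b_l = X - l`, real coefficients; we use `- b_l`, i.e. `(1 - l X) F = (l - X) f`).  `B * F = ± (product over out of o_r)`, `(X - r) o_r = 1 - conj r X`: multiply by `∏_{out} (X - r) * ∏_{rin} (1 - conj r X)` and use `p f = p.reverse`; cancel (domain).  So `nrm K (B * F) ≤ nrm K 1 = 1` (`nrm_out`).
-/

set_option autoImplicit false

open Finset

namespace Pool.Agent.H76.BC

theorem psf_rev_lin (r : ℂ) : (Polynomial.X - Polynomial.C r).reverse = 1 - Polynomial.C r * Polynomial.X := by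
  ext n
  rw [Polynomial.coeff_reverse, Polynomial.natDegree_X_sub_C]
  rcases n with _ | _ | n
  · rw [Polynomial.revAt_le (by omega)]
    simp
  · rw [Polynomial.revAt_le (by omega)]
    simp [Polynomial.coeff_one]
  · rw [Polynomial.revAt_eq_self_of_lt (by omega)]
    simp [Polynomial.coeff_one, Polynomial.coeff_X]

theorem psf_rev (s : Multiset ℂ) : ((s.map fun r => Polynomial.X - Polynomial.C r).prod).reverse =
    (s.map fun r => 1 - Polynomial.C r * Polynomial.X).prod := by
  induction s using Multiset.induction with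
  | empty => simpa using Polynomial.reverse_C (1 : ℂ)
  | cons r s ih =>
    rw [Multiset.map_cons, Multiset.prod_cons, Multiset.map_cons, Multiset.prod_cons, Polynomial.reverse_mul_of_domain, ih, psf_rev_lin]

/-- the Blaschke factor of an inner root -/
noncomputable def bfac (r : ℂ) : PowerSeries ℂ :=
  (PowerSeries.X - PowerSeries.C r) * (1 - PowerSeries.C ((starRingEnd ℂ) r) * PowerSeries.X)⁻¹

theorem bfac_mul (r : ℂ) : (1 - PowerSeries.C ((starRingEnd ℂ) r) * PowerSeries.X) * bfac r = PowerSeries.X - PowerSeries.C r := by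
  have h := PowerSeries.mul_inv_cancel (1 - PowerSeries.C ((starRingEnd ℂ) r) * PowerSeries.X) (by simp)
  rw [bfac, mul_comm (PowerSeries.X - PowerSeries.C r), ← mul_assoc, h, one_mul]

theorem bfac_coeff (r : ℂ) : PowerSeries.constantCoeff (bfac r) = -r := by
  have h := congrArg PowerSeries.constantCoeff (bfac_mul r)
  simpa using h

/-- the factor of an outer root -/
noncomputable def ofac (r : ℂ) : PowerSeries ℂ :=
  (1 - PowerSeries.C ((starRingEnd ℂ) r) * PowerSeries.X) * (PowerSeries.X - PowerSeries.C r)⁻¹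

theorem ofac_mul {r : ℂ} (hr : r ≠ 0) : (PowerSeries.X - PowerSeries.C r) * ofac r = 1 - PowerSeries.C ((starRingEnd ℂ) r) * PowerSeries.X := by
  have h := PowerSeries.mul_inv_cancel (PowerSeries.X - PowerSeries.C r) (by simpa using hr)
  rw [ofac, mul_comm (1 - PowerSeries.C ((starRingEnd ℂ) r) * PowerSeries.X), ← mul_assoc, h, one_mul]

theorem psf_bprod (S : Multiset ℂ) : (S.map fun r => 1 - PowerSeries.C ((starRingEnd ℂ) r) * PowerSeries.X).prod * (S.map bfac).prod =
    (S.map fun r => PowerSeries.X - PowerSeries.C r).prod := by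
  rw [← Multiset.prod_map_mul]
  congr 1
  exact Multiset.map_congr rfl fun r _ => bfac_mul r

theorem psf_oprod (S : Multiset ℂ) (hS : ∀ r ∈ S, r ≠ 0) : (S.map fun r => PowerSeries.X - PowerSeries.C r).prod * (S.map ofac).prod =
    (S.map fun r => 1 - PowerSeries.C ((starRingEnd ℂ) r) * PowerSeries.X).prod := by
  rw [← Multiset.prod_map_mul]
  congr 1
  exact Multiset.map_congr rfl fun r hr => ofac_mul (hS r hr)

theorem psf_in (S : Multiset ℂ) : ∀ (_ : ∀ r ∈ S, ‖r‖ < 1) (K : ℕ) (G : PowerSeries ℂ), nrm K ((S.map bfac).prod * G) ≤ nrm K G := by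
  induction S using Multiset.induction with
  | empty => intro _ K G; simp
  | cons r s ih =>
    intro h K G
    rw [Multiset.map_cons, Multiset.prod_cons, mul_assoc]
    refine le_trans (nrm_in (h r (Multiset.mem_cons_self _ _)) (F := (s.map bfac).prod * G) ?_ K) (ih (fun r hr => h r (Multiset.mem_cons_of_mem hr)) K G)
    rw [← mul_assoc, bfac_mul]

theorem psf_out (S : Multiset ℂ) : ∀ (_ : ∀ r ∈ S, 1 ≤ ‖r‖) (K : ℕ) (G : PowerSeries ℂ), nrm K ((S.map ofac).prod * G) ≤ nrm K G := by
  induction S using Multiset.induction with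
  | empty => intro _ K G; simp
  | cons r s ih =>
    intro h K G
    rw [Multiset.map_cons, Multiset.prod_cons, mul_assoc]
    refine le_trans (nrm_out (h r (Multiset.mem_cons_self _ _)) (F := (s.map ofac).prod * G) ?_ K) (ih (fun r hr => h r (Multiset.mem_cons_of_mem hr)) K G)
    have hr0 : r ≠ 0 := by
      intro h0
      have := h r (Multiset.mem_cons_self _ _)
      rw [h0, norm_zero] at this
      linarith
    rw [← mul_assoc, ofac_mul hr0]

theorem psf_nrm_one (K : ℕ) : nrm K 1 = 1 := by
  rw [nrm, Finset.sum_eq_single 0]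
  · simp
  · intro k _ hk
    rw [PowerSeries.coeff_one, if_neg hk]
    simp
  · intro h
    simp at h

theorem psf_nrm_neg (K : ℕ) (F : PowerSeries ℂ) : nrm K (-F) = nrm K F := by
  simp [nrm]

theorem psf_norm (S : Multiset ℂ) : ‖PowerSeries.constantCoeff (S.map bfac).prod‖ = (S.map fun r => ‖r‖).prod := by
  induction S using Multiset.induction with
  | empty => simp
  | cons r s ih =>
    rw [Multiset.map_cons, Multiset.prod_cons, Multiset.map_cons, Multiset.prod_cons, map_mul, norm_mul, ih, bfac_coeff, norm_neg]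

theorem psf_inv (S : Multiset ℂ) : (S.map fun r => ‖r‖⁻¹).prod⁻¹ = (S.map fun r => ‖r‖).prod := by
  induction S using Multiset.induction with
  | empty => simp
  | cons r s ih =>
    rw [Multiset.map_cons, Multiset.prod_cons, Multiset.map_cons, Multiset.prod_cons, mul_inv, ih, inv_inv]

theorem psf_conj (P : Polynomial ℤ) : (P.map (Int.castRingHom ℂ)).roots.map (starRingEnd ℂ) = (P.map (Int.castRingHom ℂ)).roots := by
  have h1 : (P.map (Int.castRingHom ℂ)).Splits := IsAlgClosed.splits _
  have h2 := h1.roots_map (starRingEnd ℂ)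
  rw [← h2, Polynomial.map_map]
  congr 2
  exact RingHom.ext_int _ _

theorem psf_f {P : Polynomial ℤ} (h0 : P.coeff 0 = 1 ∨ P.coeff 0 = -1) : ∃ f : PowerSeries ℤ, (P : PowerSeries ℤ) * f = (P.reverse : PowerSeries ℤ) := by
  have hu : IsUnit (P.coeff 0) := by
    rcases h0 with h | h <;> rw [h]
    · exact isUnit_one
    · exact isUnit_one.neg
  obtain ⟨u, hu⟩ := hu
  refine ⟨PowerSeries.invOfUnit (P : PowerSeries ℤ) u * (P.reverse : PowerSeries ℤ), ?_⟩
  rw [← mul_assoc, PowerSeries.mul_invOfUnit, one_mul]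
  rw [hu, ← PowerSeries.coeff_zero_eq_constantCoeff_apply, Polynomial.coeff_coe]

theorem psf_prodX {P : Polynomial ℤ} (hm : P.Monic) : ((P.map (Int.castRingHom ℂ) : Polynomial ℂ) : PowerSeries ℂ) =
    ((P.map (Int.castRingHom ℂ)).roots.map fun r => PowerSeries.X - PowerSeries.C r).prod := by
  have h1 : (P.map (Int.castRingHom ℂ)).Splits := IsAlgClosed.splits _
  have h2 := h1.eq_prod_roots_of_monic (hm.map _)
  have h3 := congrArg (Polynomial.coeToPowerSeries.ringHom (R := ℂ)) h2
  rw [map_multiset_prod, Multiset.map_map] at h3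
  rw [Polynomial.coeToPowerSeries.ringHom_apply] at h3
  rw [h3]
  congr 1
  refine Multiset.map_congr rfl fun r _ => ?_
  simp

theorem psf_prodrev {P : Polynomial ℤ} (hm : P.Monic) : ((P.map (Int.castRingHom ℂ)).reverse : PowerSeries ℂ) =
    ((P.map (Int.castRingHom ℂ)).roots.map fun r => 1 - PowerSeries.C ((starRingEnd ℂ) r) * PowerSeries.X).prod := by
  have h1 : (P.map (Int.castRingHom ℂ)).Splits := IsAlgClosed.splits _
  have h2 := congrArg Polynomial.reverse (h1.eq_prod_roots_of_monic (hm.map _))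
  rw [psf_rev] at h2
  have h3 := congrArg (Polynomial.coeToPowerSeries.ringHom (R := ℂ)) h2
  rw [map_multiset_prod, Multiset.map_map] at h3
  rw [Polynomial.coeToPowerSeries.ringHom_apply] at h3
  rw [h3]
  conv_lhs => rw [← psf_conj P, Multiset.map_map]
  congr 1
  refine Multiset.map_congr rfl fun r _ => ?_
  simp

theorem psf_split (P : Polynomial ℤ) : ∃ out : Multiset ℂ, (∀ r ∈ out, 1 ≤ ‖r‖) ∧ (P.map (Int.castRingHom ℂ)).roots = rin P + out :=
  ⟨(P.map (Int.castRingHom ℂ)).roots.filter fun r => ¬ ‖r‖ < 1, fun _ hr => not_lt.1 (Multiset.mem_filter.1 hr).2,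
    (Multiset.filter_add_not _ _).symm⟩

theorem psf_ne (S : Multiset ℂ) : (S.map fun r => 1 - PowerSeries.C ((starRingEnd ℂ) r) * PowerSeries.X).prod ≠ 0 := by
  rw [Ne, Multiset.prod_eq_zero_iff, Multiset.mem_map]
  rintro ⟨r, _, hr⟩
  have := congrArg PowerSeries.constantCoeff hr
  simp at this

theorem psf_ne' (S : Multiset ℂ) : (S.map fun r => PowerSeries.X - PowerSeries.C r).prod ≠ 0 := by
  rw [Ne, Multiset.prod_eq_zero_iff, Multiset.mem_map]
  rintro ⟨r, _, hr⟩
  have := congrArg (PowerSeries.coeff 1) hr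
  simp at this

theorem quot {l : ℝ} (hl0 : 0 < l) (hl1 : l < 1) {P : Polynomial ℤ} (hm : P.Monic) (h0 : P.coeff 0 = 1 ∨ P.coeff 0 = -1)
    (hr : Polynomial.aeval l P = 0) (hrec : Polynomial.aeval l⁻¹ P ≠ 0) :
    ∃ (a : ℕ → ℤ) (B : PowerSeries ℂ), (a 0 = 1 ∨ a 0 = -1) ∧ (∃ k, 1 ≤ k ∧ a k ≠ 0) ∧
      ‖PowerSeries.coeff 0 B‖ = (l * MM P)⁻¹ ∧ (∀ K G, nrm K (B * G) ≤ nrm K G) ∧
      ∀ F : PowerSeries ℂ, (1 - PowerSeries.C (l : ℂ) * PowerSeries.X) * F =
        (PowerSeries.C (l : ℂ) - PowerSeries.X) * PowerSeries.mk (fun k => (a k : ℂ)) → ∀ K, nrm K (B * F) ≤ 1 := by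
  obtain ⟨f, hf⟩ := psf_f h0
  obtain ⟨out, hout, hsplit⟩ := psf_split P
  have hmem : (l : ℂ) ∈ rin P := by
    rw [rin, Multiset.mem_filter, Polynomial.mem_roots (hm.map _).ne_zero, Polynomial.IsRoot.def]
    refine ⟨?_, ?_⟩
    · have h1 : Polynomial.aeval (l : ℂ) P = ((Polynomial.aeval l P : ℝ) : ℂ) := by
        have := Polynomial.aeval_algebraMap_apply ℂ l P
        simpa using this
      rw [Polynomial.eval_map, ← algebraMap_int_eq, ← Polynomial.aeval_def, h1, hr, Complex.ofReal_zero]
    · rw [Complex.norm_real, Real.norm_eq_abs, abs_of_pos hl0]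
      exact hl1
  obtain ⟨S, hS⟩ := Multiset.exists_cons_of_mem hmem
  have hSin : ∀ r ∈ S, ‖r‖ < 1 := by
    intro r hr
    have h1 : r ∈ rin P := by
      rw [hS]
      exact Multiset.mem_cons_of_mem hr
    exact (Multiset.mem_filter.1 h1).2
  have hout0 : ∀ r ∈ out, r ≠ 0 := by
    intro r hr h
    have := hout r hr
    rw [h, norm_zero] at this
    linarith
  have ha0 : PowerSeries.coeff 0 f = 1 ∨ PowerSeries.coeff 0 f = -1 := by
    have h1 := congrArg (PowerSeries.coeff 0) hf
    rw [PowerSeries.coeff_zero_eq_constantCoeff_apply, map_mul, ← PowerSeries.coeff_zero_eq_constantCoeff_apply, Polynomial.coeff_coe,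
      ← PowerSeries.coeff_zero_eq_constantCoeff_apply, Polynomial.coeff_coe,
      Polynomial.coeff_zero_reverse, hm.leadingCoeff] at h1
    rcases h0 with h | h
    · left
      rw [h] at h1
      linarith
    · right
      rw [h] at h1
      linarith
  refine ⟨fun k => PowerSeries.coeff k f, (S.map bfac).prod, ha0, ?_, ?_, fun K G => psf_in S hSin K G, ?_⟩
  · by_contra hcon
    push Not at hcon
    have hfC : f = ((Polynomial.C (PowerSeries.coeff 0 f) : Polynomial ℤ) : PowerSeries ℤ) := by
      ext k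
      rw [Polynomial.coeff_coe, Polynomial.coeff_C]
      by_cases hk : k = 0
      · rw [if_pos hk, hk]
      · rw [if_neg hk]
        exact hcon k (Nat.one_le_iff_ne_zero.2 hk)
    have hrev : P.reverse = P * Polynomial.C (PowerSeries.coeff 0 f) := by
      apply Polynomial.coe_injective
      rw [Polynomial.coe_mul, ← hfC, hf]
    have hinv : Invertible l := invertibleOfNonzero hl0.ne'
    have h1 := (Polynomial.eval₂_reverse_eq_zero_iff (algebraMap ℤ ℝ) l P).2 (by rw [← Polynomial.aeval_def]; exact hr)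
    rw [invOf_eq_inv, ← Polynomial.aeval_def, hrev, map_mul, Polynomial.aeval_C] at h1
    rcases mul_eq_zero.1 h1 with h2 | h2
    · exact hrec h2
    · rcases ha0 with h3 | h3 <;> rw [h3] at h2 <;> simp at h2
  · rw [PowerSeries.coeff_zero_eq_constantCoeff_apply, psf_norm, MM, hS, Multiset.map_cons, Multiset.prod_cons, Complex.norm_real,
      Real.norm_eq_abs, abs_of_pos hl0, ← mul_assoc, mul_inv_cancel₀ hl0.ne', one_mul, psf_inv]
  · intro F hF K
    have hfC : ((P.map (Int.castRingHom ℂ) : Polynomial ℂ) : PowerSeries ℂ) * PowerSeries.mk (fun k => ((PowerSeries.coeff k f : ℤ) : ℂ)) =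
        ((P.map (Int.castRingHom ℂ)).reverse : PowerSeries ℂ) := by
      have hmk : PowerSeries.mk (fun k => ((PowerSeries.coeff k f : ℤ) : ℂ)) = PowerSeries.map (Int.castRingHom ℂ) f := by
        ext k
        simp
      have hrv : (P.map (Int.castRingHom ℂ)).reverse = P.reverse.map (Int.castRingHom ℂ) := by
        ext k
        rw [Polynomial.coeff_map, Polynomial.coeff_reverse, Polynomial.coeff_reverse, Polynomial.coeff_map, hm.natDegree_map]
      rw [hmk, hrv, Polynomial.polynomial_map_coe, Polynomial.polynomial_map_coe, ← map_mul, hf]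
    have key : (S.map bfac).prod * F = -(out.map ofac).prod := by
      refine mul_left_cancel₀ (mul_ne_zero (psf_ne (rin P)) (psf_ne' out)) ?_
      have e1 := psf_bprod S
      have e2 := psf_oprod out hout0
      rw [psf_prodX hm, psf_prodrev hm, hsplit, Multiset.map_add, Multiset.prod_add, Multiset.map_add, Multiset.prod_add, hS,
        Multiset.map_cons, Multiset.prod_cons, Multiset.map_cons, Multiset.prod_cons, Complex.conj_ofReal] at hfC
      rw [hS, Multiset.map_cons, Multiset.prod_cons, Complex.conj_ofReal]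
      generalize (S.map fun r => 1 - PowerSeries.C ((starRingEnd ℂ) r) * PowerSeries.X).prod = A1 at *
      generalize (S.map fun r => PowerSeries.X - PowerSeries.C r).prod = A2 at *
      generalize (out.map fun r => 1 - PowerSeries.C ((starRingEnd ℂ) r) * PowerSeries.X).prod = A3 at *
      generalize (out.map fun r => PowerSeries.X - PowerSeries.C r).prod = A4 at *
      generalize (S.map bfac).prod = B at *
      generalize (out.map ofac).prod = O at *
      generalize (1 - PowerSeries.C (l : ℂ) * PowerSeries.X) = L at *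
      linear_combination (L * F * A4) * e1 + (A2 * A4) * hF - hfC + (L * A1) * e2
    rw [key, psf_nrm_neg]
    have h1 := psf_out out hout K 1
    rwa [mul_one, psf_nrm_one] at h1

end Pool.Agent.H76.BC
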