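import Pool.Agent.H76.BC.Pois

/-!
# The sum over a triangular lattice

* `one_dim`: for `M > 0`, `v > 0`, `t : ℂ`, `‖t‖ = M`, `c : ℂ`: `∑' k : ℤ, exp (- ‖t k + c‖² / (2v)) ≤ 1 + √(2πv) / M` (and summable): `‖t k + c‖ = M ‖k + c/t‖ ≥ M |k + x|`, `x = Re (c/t)`; and `∑' k, exp (- a (k + x)²) ≤ 1 + ∫ exp (- a t²) dt = 1 + √(π/a)`, `a = M² / (2v)`:
  we may assume `|x| ≤ 1/2` (shift `k` by `round x`); for `k ≥ 1` the term is at most the integral over `[k - 1 + x, k + x]`, for `k ≤ -1` at most the integral over `[k + x, k + 1 + x]`; the intervals are disjoint, and the term `k = 0` is at most `1`.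
* `theta_sum`: induction on `n`, for `Fin (n + 1) → ℤ` use `Fin.snocEquiv`: the sum over the last coordinate of the factor `j = n` is at most `1 + √(2πv)/M` by `one_dim` with `t = θ 0`, `c = ∑ i < n, θ (n - i) k i`; the other factors do not depend on it.
-/

set_option autoImplicit false

open Finset

namespace Pool.Agent.H76.BC

/-- extension of a finite sequence by `0` -/
def ext {n : ℕ} (k : Fin n → ℤ) (i : ℕ) : ℤ := if h : i < n then k ⟨i, h⟩ else 0

private theorem ThetaB_unit {a x : ℝ} (ha : 0 < a) (hx : |x| ≤ 1 / 2) {k : ℤ} (hk : k ≠ 0) :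
    Real.exp (-a * (x + k) ^ 2) ≤
      ∫ u in Set.Ioc (x + (if 0 < k then k - 1 else k : ℤ)) (x + (if 0 < k then k - 1 else k : ℤ) + 1), Real.exp (-a * u ^ 2) := by
  have hint := integrable_exp_neg_mul_sq ha
  rw [abs_le] at hx
  have h1 : ∫ _u in Set.Ioc (x + (if 0 < k then k - 1 else k : ℤ)) (x + (if 0 < k then k - 1 else k : ℤ) + 1),
      Real.exp (-a * (x + k) ^ 2) = Real.exp (-a * (x + k) ^ 2) := by
    rw [MeasureTheory.setIntegral_const, Real.volume_real_Ioc_of_le (by linarith), smul_eq_mul]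
    ring
  rw [← h1]
  apply MeasureTheory.setIntegral_mono_on
  · exact MeasureTheory.integrableOn_const (by rw [Real.volume_Ioc]; exact ENNReal.ofReal_ne_top) (by simp)
  · exact hint.integrableOn
  · exact measurableSet_Ioc
  · intro u hu
    apply Real.exp_le_exp.2
    have h2 : u ^ 2 ≤ (x + k) ^ 2 := by
      rw [sq_le_sq]
      rcases lt_or_gt_of_ne hk with h | h
      · rw [if_neg (by omega)] at hu
        have hk1 : (k : ℝ) ≤ -1 := by exact_mod_cast (show k ≤ -1 by omega)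
        rw [abs_of_nonpos (show x + (k : ℝ) ≤ 0 by linarith), abs_le]
        exact ⟨by linarith [hu.1], by linarith [hu.2]⟩
      · rw [if_pos h] at hu
        have hk1 : (1 : ℝ) ≤ k := by exact_mod_cast (show 1 ≤ k by omega)
        rw [abs_of_nonneg (show 0 ≤ x + (k : ℝ) by linarith), abs_le]
        have hu1 := hu.1
        have hu2 := hu.2
        push_cast at hu1 hu2
        exact ⟨by linarith, by linarith⟩
    nlinarith

private theorem ThetaB_fin {a x : ℝ} (ha : 0 < a) (hx : |x| ≤ 1 / 2) (s : Finset ℤ) :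
    ∑ k ∈ s, Real.exp (-a * (x + k) ^ 2) ≤ 1 + √(Real.pi / a) := by
  have hint := integrable_exp_neg_mul_sq ha
  have h0 : ∑ k ∈ s, Real.exp (-a * (x + k) ^ 2) ≤ 1 + ∑ k ∈ s.erase 0, Real.exp (-a * (x + k) ^ 2) := by
    have h1 : Real.exp (-a * (x + (0 : ℤ)) ^ 2) ≤ 1 := by
      apply Real.exp_le_one_iff.2
      nlinarith [sq_nonneg (x + ((0 : ℤ) : ℝ))]
    by_cases hs : (0 : ℤ) ∈ s
    · rw [← add_sum_erase s _ hs]
      linarith
    · rw [erase_eq_of_notMem hs]
      linarith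
  refine h0.trans ?_
  have h2 : ∑ k ∈ s.erase 0, Real.exp (-a * (x + k) ^ 2) ≤ ∑ k ∈ s.erase 0,
      ∫ u in Set.Ioc (x + (if 0 < k then k - 1 else k : ℤ)) (x + (if 0 < k then k - 1 else k : ℤ) + 1), Real.exp (-a * u ^ 2) :=
    sum_le_sum (fun k hk => ThetaB_unit ha hx (ne_of_mem_erase hk))
  have h3 : ∑ k ∈ s.erase 0,
      ∫ u in Set.Ioc (x + (if 0 < k then k - 1 else k : ℤ)) (x + (if 0 < k then k - 1 else k : ℤ) + 1), Real.exp (-a * u ^ 2) =
      ∫ u in ⋃ k ∈ s.erase 0, Set.Ioc (x + (if 0 < k then k - 1 else k : ℤ)) (x + (if 0 < k then k - 1 else k : ℤ) + 1),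
        Real.exp (-a * u ^ 2) := by
    rw [MeasureTheory.integral_biUnion_finset]
    · intro k _
      exact measurableSet_Ioc
    · intro k hk k' hk' hne
      have hk1 := ne_of_mem_erase hk
      have hk1' := ne_of_mem_erase hk'
      have hne2 : (if 0 < k then k - 1 else k) ≠ (if 0 < k' then k' - 1 else k') := by
        split_ifs <;> omega
      exact Set.pairwise_disjoint_Ioc_add_intCast x hne2
    · intro k _
      exact hint.integrableOn
  have h4 : ∫ u in ⋃ k ∈ s.erase 0, Set.Ioc (x + (if 0 < k then k - 1 else k : ℤ)) (x + (if 0 < k then k - 1 else k : ℤ) + 1),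
        Real.exp (-a * u ^ 2) ≤ ∫ u : ℝ, Real.exp (-a * u ^ 2) :=
    MeasureTheory.setIntegral_le_integral hint (Filter.Eventually.of_forall (fun u => (Real.exp_pos _).le))
  rw [integral_gaussian] at h4
  linarith

private theorem ThetaB_shift {a : ℝ} (ha : 0 < a) (x : ℝ) :
    Summable (fun k : ℤ => Real.exp (-a * (x + k) ^ 2)) ∧ ∑' k : ℤ, Real.exp (-a * (x + k) ^ 2) ≤ 1 + √(Real.pi / a) := by
  have hy : |x - round x| ≤ 1 / 2 := abs_sub_round x
  have h1 : Summable (fun k : ℤ => Real.exp (-a * ((x - round x) + k) ^ 2)) :=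
    summable_of_sum_le (fun k => (Real.exp_pos _).le) (ThetaB_fin ha hy)
  have h2 : ∑' k : ℤ, Real.exp (-a * ((x - round x) + k) ^ 2) ≤ 1 + √(Real.pi / a) :=
    Real.tsum_le_of_sum_le (fun k => (Real.exp_pos _).le) (ThetaB_fin ha hy)
  have h3 : (fun k : ℤ => Real.exp (-a * (x + k) ^ 2)) =
      (fun k : ℤ => Real.exp (-a * ((x - round x) + k) ^ 2)) ∘ (Equiv.addRight (round x)) := by
    funext k
    simp only [Function.comp_apply, Equiv.coe_addRight, Int.cast_add]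
    congr 2
    ring
  rw [h3]
  refine ⟨(Equiv.summable_iff _).2 h1, ?_⟩
  have h4 := Equiv.tsum_eq (Equiv.addRight (round x)) (fun k : ℤ => Real.exp (-a * ((x - round x) + k) ^ 2))
  exact h4.le.trans h2

theorem one_dim {M v : ℝ} (hM : 0 < M) (hv : 0 < v) {t : ℂ} (ht : ‖t‖ = M) (c : ℂ) :
    Summable (fun k : ℤ => Real.exp (-‖t * k + c‖ ^ 2 / (2 * v))) ∧
      ∑' k : ℤ, Real.exp (-‖t * k + c‖ ^ 2 / (2 * v)) ≤ 1 + √(2 * Real.pi * v) / M := by
  have ht0 : t ≠ 0 := by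
    intro h
    rw [h, norm_zero] at ht
    linarith
  have ha : 0 < M ^ 2 / (2 * v) := by positivity
  obtain ⟨h1, h2⟩ := ThetaB_shift ha (c / t).re
  have hpt : ∀ k : ℤ, Real.exp (-‖t * k + c‖ ^ 2 / (2 * v)) ≤ Real.exp (-(M ^ 2 / (2 * v)) * ((c / t).re + k) ^ 2) := by
    intro k
    apply Real.exp_le_exp.2
    have h3 : t * k + c = t * ((k : ℂ) + c / t) := by
      rw [mul_add, mul_div_cancel₀ _ ht0]
    have h4 : |(c / t).re + k| ≤ ‖(k : ℂ) + c / t‖ := by
      have := Complex.abs_re_le_norm ((k : ℂ) + c / t)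
      rw [Complex.add_re, Complex.intCast_re, add_comm] at this
      exact this
    have h5 : ((c / t).re + k) ^ 2 ≤ ‖(k : ℂ) + c / t‖ ^ 2 := by
      rw [← sq_abs]
      exact pow_le_pow_left₀ (abs_nonneg _) h4 2
    rw [h3, norm_mul, ht, mul_pow]
    have h6 : M ^ 2 * ((c / t).re + k) ^ 2 ≤ M ^ 2 * ‖(k : ℂ) + c / t‖ ^ 2 := mul_le_mul_of_nonneg_left h5 (sq_nonneg _)
    have h7 : -(M ^ 2 / (2 * v)) * ((c / t).re + k) ^ 2 = -(M ^ 2 * ((c / t).re + k) ^ 2) / (2 * v) := by ring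
    rw [h7]
    apply div_le_div_of_nonneg_right _ (by positivity)
    linarith
  have h3 : √(Real.pi / (M ^ 2 / (2 * v))) = √(2 * Real.pi * v) / M := by
    rw [show Real.pi / (M ^ 2 / (2 * v)) = (2 * Real.pi * v) / M ^ 2 by field_simp, Real.sqrt_div (by positivity),
      Real.sqrt_sq hM.le]
  rw [h3] at h2
  have h4 := Summable.of_nonneg_of_le (fun k => (Real.exp_pos _).le) hpt h1
  exact ⟨h4, (h4.tsum_le_tsum hpt h1).trans h2⟩

theorem theta_sum {M v : ℝ} (hM : 0 < M) (hv : 0 < v) (θ : ℕ → ℂ) (hθ : ‖θ 0‖ = M) (n : ℕ) :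
    Summable (fun k : Fin n → ℤ => Real.exp (-(∑ j ∈ range n, ‖∑ i ∈ range (j + 1), θ (j - i) * (ext k i : ℂ)‖ ^ 2) / (2 * v))) ∧
      ∑' k : Fin n → ℤ, Real.exp (-(∑ j ∈ range n, ‖∑ i ∈ range (j + 1), θ (j - i) * (ext k i : ℂ)‖ ^ 2) / (2 * v)) ≤
        (1 + √(2 * Real.pi * v) / M) ^ n := by
  induction n with
  | zero =>
    constructor
    · exact Summable.of_finite
    · rw [tsum_fintype]
      simp
  | succ n ih =>
    obtain ⟨ih1, ih2⟩ := ih
    set B : ℝ := 1 + √(2 * Real.pi * v) / M with hB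
    have hB0 : 0 ≤ B := by positivity
    set F : (Fin n → ℤ) → ℝ := fun k =>
      Real.exp (-(∑ j ∈ range n, ‖∑ i ∈ range (j + 1), θ (j - i) * (ext k i : ℂ)‖ ^ 2) / (2 * v)) with hF
    set cc : (Fin n → ℤ) → ℂ := fun k => ∑ i ∈ range n, θ (n - i) * (ext k i : ℂ) with hcc
    set E : (Fin n → ℤ) × ℤ → ℝ := fun p => F p.1 * Real.exp (-‖θ 0 * p.2 + cc p.1‖ ^ 2 / (2 * v)) with hE
    let e : (Fin n → ℤ) × ℤ ≃ (Fin (n + 1) → ℤ) := (Equiv.prodComm _ _).trans (Fin.snocEquiv (fun _ : Fin (n + 1) => ℤ))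
    have hext1 : ∀ (k : Fin n → ℤ) (m : ℤ) (i : ℕ), i < n → ext (e (k, m)) i = ext k i := by
      intro k m i hi
      unfold ext
      rw [dif_pos (by omega : i < n + 1), dif_pos hi]
      have h1 : (⟨i, by omega⟩ : Fin (n + 1)) = Fin.castSucc ⟨i, hi⟩ := rfl
      rw [h1]
      show Fin.snoc (α := fun _ : Fin (n + 1) => ℤ) k m (Fin.castSucc ⟨i, hi⟩) = k ⟨i, hi⟩
      rw [Fin.snoc_castSucc]
    have hext2 : ∀ (k : Fin n → ℤ) (m : ℤ), ext (e (k, m)) n = m := by
      intro k m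
      unfold ext
      rw [dif_pos (by omega : n < n + 1)]
      have h1 : (⟨n, by omega⟩ : Fin (n + 1)) = Fin.last n := rfl
      rw [h1]
      show Fin.snoc (α := fun _ : Fin (n + 1) => ℤ) k m (Fin.last n) = m
      rw [Fin.snoc_last]
    have hcomp : (fun k : Fin (n + 1) → ℤ =>
        Real.exp (-(∑ j ∈ range (n + 1), ‖∑ i ∈ range (j + 1), θ (j - i) * (ext k i : ℂ)‖ ^ 2) / (2 * v))) ∘ e = E := by
      funext p
      obtain ⟨k, m⟩ := p
      simp only [Function.comp_apply, hE, hF]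
      rw [← Real.exp_add, sum_range_succ]
      congr 1
      have h1 : ∀ j ∈ range n, ‖∑ i ∈ range (j + 1), θ (j - i) * (ext (e (k, m)) i : ℂ)‖ ^ 2 =
          ‖∑ i ∈ range (j + 1), θ (j - i) * (ext k i : ℂ)‖ ^ 2 := by
        intro j hj
        rw [mem_range] at hj
        congr 2
        refine sum_congr rfl (fun i hi => ?_)
        rw [mem_range] at hi
        rw [hext1 k m i (by omega)]
      rw [sum_congr rfl h1]
      have h2 : ∑ i ∈ range (n + 1), θ (n - i) * (ext (e (k, m)) i : ℂ) = θ 0 * m + cc k := by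
        rw [sum_range_succ, hext2, Nat.sub_self, add_comm, hcc]
        congr 1
        refine sum_congr rfl (fun i hi => ?_)
        rw [mem_range] at hi
        rw [hext1 k m i hi]
      rw [h2]
      ring
    have hone := fun k : Fin n → ℤ => one_dim hM hv hθ (cc k)
    have hE0 : 0 ≤ E := fun p => mul_nonneg (Real.exp_pos _).le (Real.exp_pos _).le
    have hin : ∀ k : Fin n → ℤ, ∑' m : ℤ, E (k, m) ≤ F k * B := by
      intro k
      simp only [hE]
      rw [tsum_mul_left]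
      exact mul_le_mul_of_nonneg_left (hone k).2 (Real.exp_pos _).le
    have hin0 : ∀ k : Fin n → ℤ, 0 ≤ ∑' m : ℤ, E (k, m) := fun k => tsum_nonneg (fun m => hE0 (k, m))
    have hs2 : Summable (fun k : Fin n → ℤ => ∑' m : ℤ, E (k, m)) :=
      Summable.of_nonneg_of_le hin0 hin (ih1.mul_right B)
    have hsE : Summable E := by
      rw [summable_prod_of_nonneg hE0]
      exact ⟨fun k => (hone k).1.mul_left (F k), hs2⟩
    refine ⟨(Equiv.summable_iff e).1 (by rw [hcomp]; exact hsE), ?_⟩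
    rw [← Equiv.tsum_eq e]
    have h5 : ∑' p : (Fin n → ℤ) × ℤ, (fun k : Fin (n + 1) → ℤ =>
        Real.exp (-(∑ j ∈ range (n + 1), ‖∑ i ∈ range (j + 1), θ (j - i) * (ext k i : ℂ)‖ ^ 2) / (2 * v))) (e p) = ∑' p, E p :=
      tsum_congr (fun p => congrFun hcomp p)
    rw [h5, hsE.tsum_prod]
    calc ∑' k : Fin n → ℤ, ∑' m : ℤ, E (k, m) ≤ ∑' k : Fin n → ℤ, F k * B := hs2.tsum_le_tsum hin (ih1.mul_right B)
      _ = (∑' k : Fin n → ℤ, F k) * B := tsum_mul_right
      _ ≤ B ^ n * B := mul_le_mul_of_nonneg_right ih2 hB0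
      _ = B ^ (n + 1) := (pow_succ B n).symm

end Pool.Agent.H76.BC
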