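import Pool.Agent.H76.BC.ThetaA
import Pool.Agent.H76.BC.ThetaB

/-!
# The theta bound

If `∑ j : Fin n, k j * l ^ j = 0` then `∑ j ∈ range n, ext k j * l ^ j = 0` (`Fin.sum_univ_eq_sum_range`), so by `tri` `exp (- ∑ (k j)² / (2v)) ≤ exp (- (∑ ‖..‖²) / (2v))`; compare the sums (`tsum_le_tsum`, summability by comparison) and use `theta_sum` with `M = MM P > 0`
(all factors `‖r‖⁻¹` of `MM P` are positive since `0` is not a root).
-/

set_option autoImplicit false

open Finset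

namespace Pool.Agent.H76.BC

theorem MM_pos {P : Polynomial ℤ} (hm : P.Monic) (h0 : P.coeff 0 ≠ 0) : 0 < MM P := by
  unfold MM
  apply Multiset.prod_pos
  intro a ha
  rw [Multiset.mem_map] at ha
  obtain ⟨r, hr, rfl⟩ := ha
  unfold rin at hr
  rw [Multiset.mem_filter] at hr
  have h1 : (P.map (Int.castRingHom ℂ)).IsRoot r := Polynomial.isRoot_of_mem_roots hr.1
  have h2 : r ≠ 0 := by
    rintro rfl
    have h3 : (P.map (Int.castRingHom ℂ)).coeff 0 = 0 := by
      rw [Polynomial.coeff_zero_eq_eval_zero]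
      exact h1
    rw [Polynomial.coeff_map] at h3
    simp only [eq_intCast, Int.cast_eq_zero] at h3
    exact h0 h3
  have h3 := hm.ne_zero
  exact inv_pos.2 (norm_pos_iff.2 h2)

private theorem Theta_ext {n : ℕ} (k : Fin n → ℤ) (f : ℤ → ℕ → ℝ) :
    ∑ j ∈ range n, f (ext k j) j = ∑ j : Fin n, f (k j) (j : ℕ) := by
  rw [← Fin.sum_univ_eq_sum_range (fun j => f (ext k j) j) n]
  refine sum_congr rfl (fun j _ => ?_)
  unfold ext
  rw [dif_pos j.2]

theorem theta_bound {l : ℝ} {P : Polynomial ℤ} (hP : Irreducible P) (hm : P.Monic) (h0 : P.coeff 0 ≠ 0)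
    (hr : Polynomial.aeval l P = 0) {v : ℝ} (hv : 0 < v) (n : ℕ) :
    ∑' k : Fin n → ℤ, (if ∑ j, (k j : ℝ) * l ^ (j : ℕ) = 0 then Real.exp (-(∑ j, (k j : ℝ) ^ 2) / (2 * v)) else 0) ≤
      (1 + √(2 * Real.pi * v) / MM P) ^ n := by
  obtain ⟨θ, hθ, htri⟩ := tri hP hm h0 hr
  obtain ⟨hs, hle⟩ := theta_sum (MM_pos hm h0) hv θ hθ n
  have hpt : ∀ k : Fin n → ℤ,
      (if ∑ j, (k j : ℝ) * l ^ (j : ℕ) = 0 then Real.exp (-(∑ j, (k j : ℝ) ^ 2) / (2 * v)) else 0) ≤
        Real.exp (-(∑ j ∈ range n, ‖∑ i ∈ range (j + 1), θ (j - i) * (ext k i : ℂ)‖ ^ 2) / (2 * v)) := by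
    intro k
    split_ifs with h
    · apply Real.exp_le_exp.2
      apply div_le_div_of_nonneg_right _ (by positivity)
      apply neg_le_neg
      have h1 : ∑ j ∈ range n, (ext k j : ℝ) * l ^ j = 0 := by
        rw [Theta_ext k (fun z j => (z : ℝ) * l ^ j)]
        exact h
      have h2 := htri n (ext k) h1
      rw [Theta_ext k (fun z _ => (z : ℝ) ^ 2)] at h2
      exact h2
    · exact (Real.exp_pos _).le
  have hnn : ∀ k : Fin n → ℤ, 0 ≤
      (if ∑ j, (k j : ℝ) * l ^ (j : ℕ) = 0 then Real.exp (-(∑ j, (k j : ℝ) ^ 2) / (2 * v)) else 0) := by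
    intro k
    split_ifs
    · exact (Real.exp_pos _).le
    · exact le_rfl
  exact ((Summable.of_nonneg_of_le hnn hpt hs).tsum_le_tsum hpt hs).trans hle

end Pool.Agent.H76.BC
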