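import Pool.Agent.H76.BC.BlkL
import Pool.Agent.H76.BC.Comb
import Pool.Agent.H76.BC.Mean
import Pool.Agent.H76.BC.Theta

/-!
# The choice of the parameters

Let `M1 = 1 + 1e-6`.  Choose `v ≥ 1` with `2 / √(2 π v) ≤ 1e-7` and `τ = π² v / 4 ≥ 1`; `q0 = 1 / M1 + 2 / √(2 π v) < 1`, `ρ = q0 ^ (1 / (64 τ)) < 1` (real power).  Choose `n ≥ 1` with `200 ρ ^ (2 n) ≤ 1 / 2`.  Let `ε = min δ 1e-6` with the `δ` of `blk_near n`; `c = log 2 / (2 n)`.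
Let `|l - l0| < ε`, `P` as in the statement, `m = 2 n K`, `q = 1 / MM P + 1 / √(2 π v)`; `l⁻¹ q ≤ l⁻¹ * l / M1 + 2 / √(2 π v) = q0` (as `l⁻¹ ≤ 2`).
If `1 - 2 l² = 0` then `l = l0`; then `P` irreducible and monic with `P(l0) = 0`, `P.coeff 0 = ± 1` is impossible (`2 X² - 1` is primitive and irreducible; or: `l0` is not an algebraic integer since `l0² = 1/2` is not), so `α = 1 - 2 l² ≠ 0`.
`theta_bound` (`v`, `m`) and `mean_bound` with `B = (1 + √(2πv) / MM P) ^ m`: for `T ≥ T0`: `∫ x in 0..T, exp (- τ En l m x) ≤ T * Q`, `Q = 2 (√(2πv))⁻¹ ^ m B = 2 q ^ m`.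
For `N : ℕ` let `K = N / (2 n)`, so `m ≤ N < m + 2 n`.  `comb`: `coll l N ≤ 4 ^ N * (2 l ^ m 200 ^ K (exp τ (l⁻¹) ^ m 2 q ^ m) ^ (1 / (64 τ))) ≤ 4 ^ N * 2 l ^ m 200 ^ K (2 exp τ) ^ (1 / (64 τ)) * ρ ^ m` and `200 ^ K ρ ^ (2 n K) ≤ 2 ^ (-K)`, `l ^ m ≤ l ^ N * 2 ^ (2 n)`,
`2 ^ (-K) ≤ 2 * exp (- c N)` (as `K + 1 ≥ N / (2 n)`).  So `C = 4 * 2 ^ (2 n) * (2 exp τ) ^ (1 / (64 τ))`.
-/

set_option autoImplicit false

open Finset

namespace Pool.Agent.H76.BC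

private lemma l0_not_root {P : Polynomial ℤ} (hm : P.Monic) (hr : Polynomial.aeval l0 P = 0) : False := by
  have h1 : IsIntegral ℤ l0 := ⟨P, hm, by rwa [← Polynomial.aeval_def]⟩
  have h2 : IsIntegral ℤ (l0 ^ 2) := h1.pow 2
  rw [l0_sq] at h2
  have h3 : IsIntegral ℤ (algebraMap ℚ ℝ (1 / 2)) := by
    have e : algebraMap ℚ ℝ (1 / 2) = 1 / 2 := by simp
    rw [e]; exact h2
  have h4 : IsIntegral ℤ (1 / 2 : ℚ) := (isIntegral_algebraMap_iff (algebraMap ℚ ℝ).injective).1 h3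
  obtain ⟨y, hy⟩ := IsIntegrallyClosed.isIntegral_iff.1 h4
  have h5 : (2 : ℚ) * y = 1 := by
    have : (y : ℚ) = 1 / 2 := by simpa using hy
    rw [this]; norm_num
  have h6 : (2 : ℤ) * y = 1 := by exact_mod_cast h5
  omega

private lemma pow_le_shift {l : ℝ} (h0 : 1 / 2 < l) {m N k : ℕ} (h1 : m ≤ N) (h2 : N ≤ m + k) :
    l ^ m ≤ l ^ N * 2 ^ k := by
  obtain ⟨d, rfl⟩ := Nat.exists_eq_add_of_le h1
  have hl : 0 < l := by linarith
  have hd : d ≤ k := by omega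
  have h3 : (1 : ℝ) ≤ l ^ d * 2 ^ k := by
    calc (1 : ℝ) ≤ (l * 2) ^ d := one_le_pow₀ (by linarith)
      _ = l ^ d * 2 ^ d := mul_pow _ _ _
      _ ≤ l ^ d * 2 ^ k := by
        apply mul_le_mul_of_nonneg_left _ (by positivity)
        exact pow_le_pow_right₀ (by norm_num) hd
  calc l ^ m = l ^ m * 1 := (mul_one _).symm
    _ ≤ l ^ m * (l ^ d * 2 ^ k) := mul_le_mul_of_nonneg_left h3 (by positivity)
    _ = l ^ (m + d) * 2 ^ k := by rw [pow_add]; ring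

private lemma half_pow_le {n N : ℕ} (hn : 1 ≤ n) :
    (1 / 2 : ℝ) ^ (N / (2 * n)) ≤ 2 * Real.exp (-(Real.log 2 / (2 * n))) ^ N := by
  set K := N / (2 * n) with hK
  have hlog : 0 < Real.log 2 := Real.log_pos (by norm_num)
  have hn' : (0 : ℝ) < 2 * n := by positivity
  have hlt : N < 2 * n * (K + 1) := by
    rw [hK]; exact Nat.lt_mul_div_succ N (by omega)
  have h1 : (N : ℝ) ≤ 2 * n * (K + 1) := by exact_mod_cast hlt.le
  have h2 : (1 / 2 : ℝ) ^ (K + 1) ≤ Real.exp (-(Real.log 2 / (2 * n))) ^ N := by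
    have e1 : (1 / 2 : ℝ) = Real.exp (-Real.log 2) := by
      rw [Real.exp_neg, Real.exp_log (by norm_num)]; norm_num
    rw [e1, ← Real.exp_nat_mul, ← Real.exp_nat_mul, Real.exp_le_exp]
    push_cast
    have : Real.log 2 / (2 * n) * N ≤ (K + 1) * Real.log 2 := by
      rw [div_mul_eq_mul_div, div_le_iff₀ hn']
      nlinarith
    linarith
  calc (1 / 2 : ℝ) ^ K = 2 * (1 / 2 : ℝ) ^ (K + 1) := by rw [pow_succ]; ring
    _ ≤ _ := by linarith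

theorem main_unit : ∃ ε > 0, ε ≤ 1 / 10 ^ 6 ∧ ∃ c > 0, ∃ C > 0, ∀ l : ℝ, |l - l0| < ε → ∀ P : Polynomial ℤ, Irreducible P → P.Monic →
    (P.coeff 0 = 1 ∨ P.coeff 0 = -1) → Polynomial.aeval l P = 0 → (1 + 1 / 10 ^ 6) / l ≤ MM P →
    ∀ N : ℕ, (coll l N : ℝ) ≤ C * (4 * l * Real.exp (-c)) ^ N := by
  obtain ⟨v, hvpos, hv⟩ : ∃ v : ℝ, 0 < v ∧ v = 10 ^ 14 := ⟨10 ^ 14, by positivity, rfl⟩
  obtain ⟨s, hs⟩ : ∃ s : ℝ, s = √(2 * Real.pi * v) := ⟨_, rfl⟩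
  have hs1 : 2 * 10 ^ 7 ≤ s := by
    rw [hs]
    apply Real.le_sqrt_of_sq_le
    have := Real.pi_gt_three
    rw [hv]
    norm_num
    linarith
  have hs0 : 0 < s := by linarith
  obtain ⟨τ, hτ⟩ : ∃ τ : ℝ, τ = Real.pi ^ 2 * v / 4 := ⟨_, rfl⟩
  have hτ1 : 1 ≤ τ := by
    rw [hτ, hv]
    have := Real.pi_gt_three
    nlinarith
  obtain ⟨q0, hq0⟩ : ∃ q0 : ℝ, q0 = 1 / (1 + 1 / 10 ^ 6) + 2 / s := ⟨_, rfl⟩
  have hq0pos : 0 < q0 := by rw [hq0]; positivity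
  have hq0lt : q0 < 1 := by
    have h1 : 2 / s ≤ 1 / 10 ^ 7 := by
      rw [div_le_iff₀ hs0]; linarith
    rw [hq0]
    have h2 : (1 : ℝ) / (1 + 1 / 10 ^ 6) + 1 / 10 ^ 7 < 1 := by norm_num
    linarith
  obtain ⟨p, hp⟩ : ∃ p : ℝ, p = 1 / (64 * τ) := ⟨_, rfl⟩
  have hp0 : 0 < p := by rw [hp]; positivity
  obtain ⟨ρ, hρ⟩ : ∃ ρ : ℝ, ρ = q0 ^ p := ⟨_, rfl⟩
  have hρ0 : 0 < ρ := by rw [hρ]; exact Real.rpow_pos_of_pos hq0pos p
  have hρ1 : ρ < 1 := by rw [hρ]; exact Real.rpow_lt_one hq0pos.le hq0lt hp0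
  obtain ⟨n, hn, hnρ⟩ : ∃ n : ℕ, 1 ≤ n ∧ 200 * ρ ^ (2 * n) ≤ 1 / 2 := by
    obtain ⟨n, hn⟩ := exists_pow_lt_of_lt_one (show (0 : ℝ) < 1 / 400 by norm_num) hρ1
    refine ⟨n + 1, by omega, ?_⟩
    have : ρ ^ (2 * (n + 1)) ≤ ρ ^ n := pow_le_pow_of_le_one hρ0.le hρ1.le (by omega)
    linarith
  obtain ⟨δ, hδ, hblk⟩ := blk_near hn
  refine ⟨min δ (1 / 10 ^ 6), by positivity, min_le_right _ _, Real.log 2 / (2 * n),
    div_pos (Real.log_pos (by norm_num)) (by positivity),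
    4 * 2 ^ (2 * n) * (2 * Real.exp τ) ^ p, by positivity, ?_⟩
  intro l hl P hP hPm h0 hr hMM N
  have hB := hblk l (lt_of_lt_of_le hl (min_le_left _ _))
  have hl1 : 1 / 2 < l := hB.1
  have hl0 : 0 < l := by linarith
  have hc0 : P.coeff 0 ≠ 0 := by rcases h0 with h | h <;> rw [h] <;> norm_num
  have hα : (1 - 2 * l ^ 2) ≠ 0 := by
    intro h
    have h2 : l ^ 2 = l0 ^ 2 := by rw [l0_sq]; linarith
    have h3 : l = l0 := by
      rcases sq_eq_sq_iff_eq_or_eq_neg.1 h2 with h4 | h4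
      · exact h4
      · have := l0_pos; linarith
    rw [h3] at hr
    exact l0_not_root hPm hr
  have hMMpos := MM_pos hPm hc0
  obtain ⟨K, hK⟩ : ∃ K : ℕ, K = N / (2 * n) := ⟨_, rfl⟩
  have hKN : 2 * n * K ≤ N := by rw [hK]; exact Nat.mul_div_le N (2 * n)
  have hNK : N ≤ 2 * n * K + 2 * n := by
    have := Nat.lt_mul_div_succ N (show 0 < 2 * n by omega)
    rw [← hK] at this
    have e : 2 * n * (K + 1) = 2 * n * K + 2 * n := by ring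
    omega
  obtain ⟨m, hm⟩ : ∃ m : ℕ, m = 2 * n * K := ⟨_, rfl⟩
  have hth := theta_bound hP hPm hc0 hr hvpos m
  have hmean := mean_bound (l := l) hα hvpos m
    (B := (1 + √(2 * Real.pi * v) / MM P) ^ m) (by positivity) hth
  rw [← hs] at hmean
  have hmean' : ∃ T0 : ℝ, 0 < T0 ∧ ∀ T : ℝ, T0 ≤ T →
      ∫ x in (0 : ℝ)..T, Real.exp (-(τ * En l (2 * n * K) x)) ≤
        T * (2 * (s⁻¹ ^ m * (1 + s / MM P) ^ m)) := by
    obtain ⟨T0, hT0, H⟩ := hmean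
    refine ⟨T0, hT0, fun T hT => ?_⟩
    have := H T hT
    rw [← hτ, hm] at this
    rw [hm]
    exact this
  have hQpos : 0 < 2 * (s⁻¹ ^ m * (1 + s / MM P) ^ m) := by positivity
  have hc := comb hB K (by linarith : 1 / 64 ≤ τ) hQpos hmean' hKN
  rw [← hm, ← hp] at hc
  -- the bound for the base of the power
  have hbase : l⁻¹ * (s⁻¹ * (1 + s / MM P)) ≤ q0 := by
    have e1 : l⁻¹ * (s⁻¹ * (1 + s / MM P)) = l⁻¹ * (MM P)⁻¹ + l⁻¹ / s := by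
      have e2 : s⁻¹ * s = 1 := inv_mul_cancel₀ hs0.ne'
      calc l⁻¹ * (s⁻¹ * (1 + s / MM P)) = l⁻¹ * (s⁻¹ * s) * (MM P)⁻¹ + l⁻¹ / s := by
            rw [div_eq_mul_inv, div_eq_mul_inv]; ring
        _ = l⁻¹ * (MM P)⁻¹ + l⁻¹ / s := by rw [e2, mul_one]
    rw [e1, hq0]
    have h1 : l⁻¹ * (MM P)⁻¹ ≤ 1 / (1 + 1 / 10 ^ 6) := by
      rw [← mul_inv, ← one_div]
      apply one_div_le_one_div_of_le (by positivity)
      rw [div_le_iff₀ hl0] at hMM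
      linarith
    have h2 : l⁻¹ / s ≤ 2 / s := by
      apply div_le_div_of_nonneg_right _ hs0.le
      rw [inv_le_comm₀ hl0 (by norm_num)]
      linarith
    linarith
  have hpow : Real.exp τ * (l⁻¹) ^ m * (2 * (s⁻¹ ^ m * (1 + s / MM P) ^ m)) ≤ 2 * Real.exp τ * q0 ^ m := by
    have e : Real.exp τ * (l⁻¹) ^ m * (2 * (s⁻¹ ^ m * (1 + s / MM P) ^ m)) =
        2 * Real.exp τ * (l⁻¹ * (s⁻¹ * (1 + s / MM P))) ^ m := by
      rw [mul_pow, mul_pow]; ring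
    rw [e]
    apply mul_le_mul_of_nonneg_left _ (by positivity)
    exact pow_le_pow_left₀ (by positivity) hbase m
  have hrp : (Real.exp τ * (l⁻¹) ^ m * (2 * (s⁻¹ ^ m * (1 + s / MM P) ^ m))) ^ p ≤
      (2 * Real.exp τ) ^ p * ρ ^ m := by
    have h1 := Real.rpow_le_rpow (by positivity) hpow hp0.le
    have e2 : (2 * Real.exp τ * q0 ^ m) ^ p = (2 * Real.exp τ) ^ p * (q0 ^ m) ^ p :=
      Real.mul_rpow (by positivity) (by positivity)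
    rw [e2] at h1
    have e : (q0 ^ m : ℝ) ^ p = ρ ^ m := by
      rw [hρ, ← Real.rpow_natCast q0 m, ← Real.rpow_mul hq0pos.le, mul_comm, Real.rpow_mul hq0pos.le,
        Real.rpow_natCast]
    rw [e] at h1
    exact h1
  have hshift : l ^ m ≤ l ^ N * 2 ^ (2 * n) := pow_le_shift hl1 (by omega) (by omega)
  have hK2 : (200 : ℝ) ^ K * ρ ^ m ≤ (1 / 2) ^ K := by
    rw [hm, pow_mul, ← mul_pow]
    exact pow_le_pow_left₀ (by positivity) hnρ K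
  have hhalf := half_pow_le (N := N) hn
  rw [← hK] at hhalf
  calc (coll l N : ℝ) ≤ _ := hc
    _ ≤ 4 ^ N * (2 * l ^ m * 200 ^ K * ((2 * Real.exp τ) ^ p * ρ ^ m)) := by
      apply mul_le_mul_of_nonneg_left _ (by positivity)
      exact mul_le_mul_of_nonneg_left hrp (by positivity)
    _ = 4 ^ N * (2 * (2 * Real.exp τ) ^ p) * (l ^ m * (200 ^ K * ρ ^ m)) := by ring
    _ ≤ 4 ^ N * (2 * (2 * Real.exp τ) ^ p) *
        ((l ^ N * 2 ^ (2 * n)) * (2 * Real.exp (-(Real.log 2 / (2 * n))) ^ N)) := by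
      apply mul_le_mul_of_nonneg_left _ (by positivity)
      exact mul_le_mul hshift (hK2.trans hhalf) (by positivity) (by positivity)
    _ = 4 * 2 ^ (2 * n) * (2 * Real.exp τ) ^ p *
        (4 * l * Real.exp (-(Real.log 2 / (2 * n)))) ^ N := by
      rw [mul_pow, mul_pow]; ring

end Pool.Agent.H76.BC
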