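import Pool.Agent.H76.BC.TransB

/-!
# The same over a period in the variable `y`

`y = 2 ^ (n - 1) * z / κ`, `l = n - 1 - i`: `s i + y * κ / 2 ^ i = σ l + 2 ^ l * z` with `σ l = s (n - 1 - l)`.  The function of `y` has the period `π 2 ^ n / κ ≥ 2 ^ n + 1` (`n ≥ 1`, `κ ≤ 1`) and is nonnegative, so the integral over `[0, 2 ^ n + 1]` is at most
the one over `[0, π 2 ^ n / κ]` (`intervalIntegral.integral_mono_interval` or split), which is `2 ^ (n - 1) / κ * ∫ z in 0..2π` (`intervalIntegral.integral_comp_mul_left` ...).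
In the exponent: for `l < n - 1` and `i = n - 2 - l`: `2 σ l - σ (l + 1) = 2 s (i + 1) - s i`, `cos` is even; reindex the sum by `Finset.sum_range_reflect`.  In the product reindex by `Finset.prod_range_reflect`; the missing factor `i = k` is `l = n - 1 - k`.
`(∏ psi)² = ∏ qq` (`Finset.prod_pow`).
-/

set_option autoImplicit false

open Finset

namespace Pool.Agent.H76.BC

private theorem per_gen {n : ℕ} (hn : 1 ≤ n) (s : ℕ → ℝ) {κ : ℝ} (hκ : 0 < κ) (hκ1 : κ ≤ 1)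
    (S S' : Finset ℕ) (hS : ∀ i ∈ S, i < n) (hS' : ∀ l ∈ S', l < n) (h1 : ∀ i ∈ S, n - 1 - i ∈ S')
    (h2 : ∀ l ∈ S', n - 1 - l ∈ S) (B : ℝ)
    (hB : ∫ z in (0 : ℝ)..(2 * Real.pi), ∏ l ∈ S', qq (s (n - 1 - l) + 2 ^ l * z) ≤ B) :
    ∫ y in (0 : ℝ)..(2 ^ n + 1), (∏ i ∈ S, psi (s i + y * κ / 2 ^ i)) ^ 2 ≤ 2 ^ (n - 1) / κ * B := by
  obtain ⟨F, hF⟩ : ∃ F : ℝ → ℝ, F = fun z => ∏ l ∈ S', qq (s (n - 1 - l) + 2 ^ l * z) := ⟨_, rfl⟩
  obtain ⟨c, hc⟩ : ∃ c : ℝ, c = κ / 2 ^ (n - 1) := ⟨_, rfl⟩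
  have hc0 : 0 < c := by rw [hc]; positivity
  have h2n : (2 : ℝ) ^ n = 2 * 2 ^ (n - 1) := by
    rw [← pow_succ']
    congr 1
    omega
  have hFy : ∀ y : ℝ, (∏ i ∈ S, psi (s i + y * κ / 2 ^ i)) ^ 2 = F (c * y) := by
    intro y
    rw [hF, ← prod_pow]
    refine prod_nbij' (fun i => n - 1 - i) (fun l => n - 1 - l) h1 h2 ?_ ?_ ?_
    · intro i hi
      have := hS i hi
      change n - 1 - (n - 1 - i) = i
      omega
    · intro l hl
      have := hS' l hl
      change n - 1 - (n - 1 - l) = l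
      omega
    · intro i hi
      have hi' := hS i hi
      have e1 : n - 1 - (n - 1 - i) = i := by omega
      have e2 : (2 : ℝ) ^ (n - 1) = 2 ^ i * 2 ^ (n - 1 - i) := by
        rw [← pow_add]
        congr 1
        omega
      change psi (s i + y * κ / 2 ^ i) ^ 2 = qq (s (n - 1 - (n - 1 - i)) + 2 ^ (n - 1 - i) * (c * y))
      rw [e1, qq]
      congr 3
      rw [hc, e2]
      field_simp
  have hFc : Continuous F := by
    rw [hF]
    refine continuous_finsetProd _ fun l _ => ?_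
    exact continuous_qq.comp (by fun_prop)
  have hf : (fun y : ℝ => (∏ i ∈ S, psi (s i + y * κ / 2 ^ i)) ^ 2) = fun y => F (c * y) :=
    funext hFy
  rw [hf]
  have hG : Continuous fun y : ℝ => F (c * y) := hFc.comp (continuous_const.mul continuous_id)
  obtain ⟨T, hT⟩ : ∃ T : ℝ, T = 2 * Real.pi / c := ⟨_, rfl⟩
  have hT1 : (2 : ℝ) ^ n + 1 ≤ T := by
    have hp : (1 : ℝ) ≤ 2 ^ (n - 1) := one_le_pow₀ (by norm_num)
    have hpi := Real.pi_gt_three
    rw [hT, hc, h2n, le_div_iff₀ (by positivity), ← mul_div_assoc, div_le_iff₀ (by positivity)]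
    nlinarith
  have h3 : ∫ y in (0 : ℝ)..(2 ^ n + 1), F (c * y) ≤ ∫ y in (0 : ℝ)..T, F (c * y) := by
    have hadd := intervalIntegral.integral_add_adjacent_intervals
      (hG.intervalIntegrable (μ := MeasureTheory.volume) 0 (2 ^ n + 1)) (hG.intervalIntegrable (μ := MeasureTheory.volume) (2 ^ n + 1) T)
    have hpos : 0 ≤ ∫ y in ((2 : ℝ) ^ n + 1)..T, F (c * y) := by
      refine intervalIntegral.integral_nonneg hT1 fun y _ => ?_
      rw [← hFy]
      positivity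
    linarith
  refine h3.trans ?_
  rw [intervalIntegral.integral_comp_mul_left F hc0.ne', mul_zero]
  have e3 : c * T = 2 * Real.pi := by
    rw [hT]
    field_simp
  have e4 : c⁻¹ = 2 ^ (n - 1) / κ := by
    rw [hc, inv_div]
  rw [e3, e4, smul_eq_mul]
  refine mul_le_mul_of_nonneg_left ?_ (by positivity)
  rw [hF]
  exact hB

private theorem per_sum {n : ℕ} (s : ℕ → ℝ) :
    ∑ l ∈ range (n - 1), (1 - Real.cos (2 * s (n - 1 - l) - s (n - 1 - (l + 1)))) =
      ∑ i ∈ range (n - 1), (1 - Real.cos (s i - 2 * s (i + 1))) := by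
  rw [← sum_range_reflect (fun i => 1 - Real.cos (s i - 2 * s (i + 1))) (n - 1)]
  refine sum_congr rfl fun l hl => ?_
  rw [mem_range] at hl
  have e1 : n - 1 - (l + 1) = n - 1 - 1 - l := by omega
  have e2 : n - 1 - l = n - 1 - 1 - l + 1 := by omega
  rw [e1, e2, ← Real.cos_neg]
  congr 2
  ring

theorem per_full {n : ℕ} (hn : 1 ≤ n) (s : ℕ → ℝ) {κ : ℝ} (hκ : 0 < κ) (hκ1 : κ ≤ 1) :
    ∫ y in (0 : ℝ)..(2 ^ n + 1), (∏ i ∈ range n, psi (s i + y * κ / 2 ^ i)) ^ 2 ≤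
      Real.pi / κ * Real.exp (-(∑ i ∈ range (n - 1), (1 - Real.cos (s i - 2 * s (i + 1)))) / 32) := by
  have h := trans_full n fun l => s (n - 1 - l)
  beta_reduce at h
  rw [per_sum] at h
  have h2n : (2 : ℝ) ^ n = 2 * 2 ^ (n - 1) := by
    rw [← pow_succ']
    congr 1
    omega
  refine (per_gen hn s hκ hκ1 (range n) (range n) (fun i hi => mem_range.1 hi)
    (fun l hl => mem_range.1 hl) (fun i hi => ?_) (fun l hl => ?_) _ h).trans (le_of_eq ?_)
  · rw [mem_range]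
    omega
  · rw [mem_range]
    omega
  · rw [h2n]
    field_simp

theorem per_miss {n : ℕ} (hn : 1 ≤ n) (s : ℕ → ℝ) {κ : ℝ} (hκ : 0 < κ) (hκ1 : κ ≤ 1) {k : ℕ} (hk : k < n) :
    ∫ y in (0 : ℝ)..(2 ^ n + 1), (∏ i ∈ (range n).erase k, psi (s i + y * κ / 2 ^ i)) ^ 2 ≤
      3 * Real.pi / κ * Real.exp (-(∑ i ∈ range (n - 1), (1 - Real.cos (s i - 2 * s (i + 1)))) / 32) := by
  have h := trans_miss n (fun l => s (n - 1 - l)) (k := n - 1 - k) (by omega)
  beta_reduce at h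
  rw [per_sum] at h
  have h2n : (2 : ℝ) ^ n = 2 * 2 ^ (n - 1) := by
    rw [← pow_succ']
    congr 1
    omega
  refine (per_gen hn s hκ hκ1 ((range n).erase k) ((range n).erase (n - 1 - k))
    (fun i hi => mem_range.1 (mem_of_mem_erase hi)) (fun l hl => mem_range.1 (mem_of_mem_erase hl))
    (fun i hi => ?_) (fun l hl => ?_) _ h).trans (le_of_eq ?_)
  · rw [mem_erase, mem_range] at hi ⊢
    omega
  · rw [mem_erase, mem_range] at hl ⊢
    omega
  · rw [h2n]
    field_simp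
    ring

end Pool.Agent.H76.BC
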