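import Pool.Agent.H76.BC.Defs

/-!
# Poisson summation

`τ = π² v / 4`.  By periodicity (both sides have the period `2π` in `θ`: `cos (k (θ + 2π)) = cos (k θ)`) we may assume `|θ| ≤ π`.  Then `1 - cos θ ≥ 2 θ² / π²` (`Real.cos_le_one_sub_mul_cos_sq` is not it; use `1 - cos θ = 2 sin² (θ/2)` and `|sin (θ/2)| ≥ |θ| / π` from `Real.mul_le_sin`), so the left side is at most
`exp (- v θ² / 2)`.  `Complex.tsum_exp_neg_quadratic` with `a = 1 / (2 π v)`, `b = i θ / (2 π)`: left side there `∑ exp (- n² / (2 v) + i n θ)`, right side `√(2 π v) ∑ exp (- 2 π² v (n - θ / (2 π))²) = √(2 π v) ∑ exp (- v (2 π n - θ)² / 2)`, all terms are positive and the term `n = 0` is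
`exp (- v θ² / 2)`.  Real parts of the left side: `∑ exp (- n² / (2 v)) cos (n θ)`.  Summability from `Real.exp` decay, e.g. `Complex.summable` facts in the same file or comparison with a geometric series.
-/

set_option autoImplicit false

open Finset

namespace Pool.Agent.H76.BC

private theorem Pois_summ (c s : ℝ) (hc : 0 < c) :
    Summable fun n : ℤ => Real.exp (-(c * ((n : ℝ) - s) ^ 2)) := by
  have hpi : (Real.pi : ℂ) ≠ 0 := Complex.ofReal_ne_zero.2 Real.pi_ne_zero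
  have hτ : 0 < (((c / Real.pi : ℝ) : ℂ) * Complex.I).im := by
    rw [Complex.im_ofReal_mul, Complex.I_im, mul_one]
    positivity
  have h := (summable_jacobiTheta₂_term_iff (-(((c * s / Real.pi : ℝ) : ℂ) * Complex.I))
    (((c / Real.pi : ℝ) : ℂ) * Complex.I)).2 hτ
  have h2 := h.norm.mul_left (Real.exp (-(c * s ^ 2)))
  refine h2.congr fun n => ?_
  have e : 2 * (Real.pi : ℂ) * Complex.I * n * (-(((c * s / Real.pi : ℝ) : ℂ) * Complex.I)) +
      Real.pi * Complex.I * (n : ℂ) ^ 2 * (((c / Real.pi : ℝ) : ℂ) * Complex.I) =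
      ((2 * c * s * n - c * (n : ℝ) ^ 2 : ℝ) : ℂ) := by
    push_cast
    field_simp
    ring_nf
    rw [Complex.I_sq]
    ring
  rw [jacobiTheta₂_term, e, Complex.norm_exp, Complex.ofReal_re, ← Real.exp_add]
  congr 1
  ring

theorem summable_gauss {v : ℝ} (hv : 0 < v) : Summable fun k : ℤ => Real.exp (-(k : ℝ) ^ 2 / (2 * v)) := by
  refine (Pois_summ (1 / (2 * v)) 0 (by positivity)).congr fun k => ?_
  congr 1
  field_simp
  ring

private theorem Pois_main {v : ℝ} (hv : 0 < v) (θ : ℝ) :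
    (√(2 * Real.pi * v))⁻¹ * ∑' k : ℤ, Real.exp (-(k : ℝ) ^ 2 / (2 * v)) * Real.cos (k * θ) =
      ∑' k : ℤ, Real.exp (-(2 * Real.pi ^ 2 * v * ((k : ℝ) - θ / (2 * Real.pi)) ^ 2)) := by
  have hpi := Real.pi_pos
  have hpi' : (Real.pi : ℂ) ≠ 0 := Complex.ofReal_ne_zero.2 Real.pi_ne_zero
  have hv' : (v : ℂ) ≠ 0 := Complex.ofReal_ne_zero.2 hv.ne'
  have ha0 : (0 : ℝ) < 1 / (2 * Real.pi * v) := by positivity
  have hP := Complex.tsum_exp_neg_quadratic (a := ((1 / (2 * Real.pi * v) : ℝ) : ℂ))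
    (by rw [Complex.ofReal_re]; exact ha0) (Complex.I * θ / (2 * Real.pi))
  have eL : ∀ n : ℤ, -(Real.pi : ℂ) * ((1 / (2 * Real.pi * v) : ℝ) : ℂ) * (n : ℂ) ^ 2 +
      2 * Real.pi * (Complex.I * θ / (2 * Real.pi)) * n =
      ((-(n : ℝ) ^ 2 / (2 * v) : ℝ) : ℂ) + ((n * θ : ℝ) : ℂ) * Complex.I := by
    intro n
    push_cast
    field_simp
  have eR : ∀ n : ℤ, -(Real.pi : ℂ) / ((1 / (2 * Real.pi * v) : ℝ) : ℂ) *
      ((n : ℂ) + Complex.I * (Complex.I * θ / (2 * Real.pi))) ^ 2 =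
      ((-(2 * Real.pi ^ 2 * v * ((n : ℝ) - θ / (2 * Real.pi)) ^ 2) : ℝ) : ℂ) := by
    intro n
    have e1 : (n : ℂ) + Complex.I * (Complex.I * θ / (2 * Real.pi)) =
        (n : ℂ) - θ / (2 * Real.pi) := by
      rw [← mul_div_assoc, ← mul_assoc, Complex.I_mul_I]
      ring
    rw [e1]
    push_cast
    field_simp
  simp only [eL, eR] at hP
  have hs1 : Summable fun n : ℤ => Complex.exp (((-(n : ℝ) ^ 2 / (2 * v) : ℝ) : ℂ) +
      ((n * θ : ℝ) : ℂ) * Complex.I) := by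
    refine Summable.of_norm ?_
    refine (summable_gauss hv).congr fun n => ?_
    rw [Complex.norm_exp, Complex.add_re, Complex.ofReal_re, Complex.re_ofReal_mul,
      Complex.I_re, mul_zero, add_zero]
  have hre := congrArg Complex.re hP
  rw [Complex.re_tsum hs1] at hre
  have e3 : ∀ n : ℤ, (Complex.exp (((-(n : ℝ) ^ 2 / (2 * v) : ℝ) : ℂ) +
      ((n * θ : ℝ) : ℂ) * Complex.I)).re = Real.exp (-(n : ℝ) ^ 2 / (2 * v)) * Real.cos (n * θ) := by
    intro n
    rw [Complex.exp_re, Complex.add_re, Complex.ofReal_re, Complex.re_ofReal_mul,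
      Complex.I_re, mul_zero, add_zero, Complex.add_im, Complex.ofReal_im, Complex.im_ofReal_mul,
      Complex.I_im, mul_one, zero_add]
  simp only [e3] at hre
  rw [hre]
  have e4 : (1 : ℂ) / ((1 / (2 * Real.pi * v) : ℝ) : ℂ) ^ (1 / 2 : ℂ) =
      ((√(2 * Real.pi * v) : ℝ) : ℂ) := by
    have : ((1 / 2 : ℝ) : ℂ) = (1 / 2 : ℂ) := by push_cast; ring
    rw [← this, ← Complex.ofReal_cpow ha0.le, ← Real.sqrt_eq_rpow, Real.sqrt_div zero_le_one,
      Real.sqrt_one, ← Complex.ofReal_one, ← Complex.ofReal_div, one_div_one_div]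
  rw [e4]
  simp only [← Complex.ofReal_exp]
  rw [← Complex.ofReal_tsum, ← Complex.ofReal_mul, Complex.ofReal_re, inv_mul_cancel_left₀]
  exact (Real.sqrt_pos.2 (by positivity)).ne'

private theorem Pois_small {v : ℝ} (hv : 0 < v) (θ : ℝ) (hθ : |θ| ≤ Real.pi) :
    Real.exp (-(Real.pi ^ 2 * v / 4 * (1 - Real.cos θ))) ≤
      (√(2 * Real.pi * v))⁻¹ * ∑' k : ℤ, Real.exp (-(k : ℝ) ^ 2 / (2 * v)) * Real.cos (k * θ) := by
  have hpi := Real.pi_pos
  rw [Pois_main hv]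
  have hs := Pois_summ (2 * Real.pi ^ 2 * v) (θ / (2 * Real.pi)) (by positivity)
  refine le_trans ?_ (hs.le_tsum 0 fun j _ => (Real.exp_pos _).le)
  apply Real.exp_le_exp.2
  have h1 := Real.cos_le_one_sub_mul_cos_sq hθ
  have h2 : 2 / Real.pi ^ 2 * θ ^ 2 ≤ 1 - Real.cos θ := by linarith
  have h3 : Real.pi ^ 2 * v / 4 * (2 / Real.pi ^ 2 * θ ^ 2) ≤
      Real.pi ^ 2 * v / 4 * (1 - Real.cos θ) := mul_le_mul_of_nonneg_left h2 (by positivity)
  have h4 : Real.pi ^ 2 * v / 4 * (2 / Real.pi ^ 2 * θ ^ 2) =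
      2 * Real.pi ^ 2 * v * (((0 : ℤ) : ℝ) - θ / (2 * Real.pi)) ^ 2 := by
    push_cast
    field_simp
    ring
  linarith

theorem poisson_ge {v : ℝ} (hv : 0 < v) (θ : ℝ) :
    Real.exp (-(Real.pi ^ 2 * v / 4 * (1 - Real.cos θ))) ≤
      (√(2 * Real.pi * v))⁻¹ * ∑' k : ℤ, Real.exp (-(k : ℝ) ^ 2 / (2 * v)) * Real.cos (k * θ) := by
  have hpi := Real.pi_pos
  set m : ℤ := round (θ / (2 * Real.pi)) with hm
  have h1 := abs_sub_round (θ / (2 * Real.pi))
  rw [← hm] at h1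
  have h2 : |θ - m * (2 * Real.pi)| ≤ Real.pi := by
    have e : θ - m * (2 * Real.pi) = (θ / (2 * Real.pi) - m) * (2 * Real.pi) := by
      field_simp
    rw [e, abs_mul, abs_of_pos (by positivity : (0 : ℝ) < 2 * Real.pi)]
    nlinarith
  have h3 := Pois_small hv _ h2
  rw [Real.cos_sub_int_mul_two_pi] at h3
  refine h3.trans (le_of_eq ?_)
  congr 1
  refine tsum_congr fun k => ?_
  have e : (k : ℝ) * (θ - m * (2 * Real.pi)) = k * θ - ((k * m : ℤ) : ℝ) * (2 * Real.pi) := by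
    push_cast
    ring
  rw [e, Real.cos_sub_int_mul_two_pi]

end Pool.Agent.H76.BC
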