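import Pool.Agent.H76.BC.Defs

/-!
# Integer relations: the triangular isometry

Let `p = P.map (Int.castRingHom ℂ)`, `S = rin P` (as a multiset; `P` is irreducible and monic of positive degree, so separable over `ℚ` and `ℂ`: the roots are distinct, `S.Nodup`), all `r ∈ S` have `0 < ‖r‖ < 1` (`P.coeff 0 ≠ 0`).
For a multiset `S` of complex numbers let `R S = ∏ (X - C r)`, `E S = ∏ (1 - C (conj r) * X)` (polynomials).

1. For a polynomial `q` and `c : ℂ`: `∑ ‖coeff ((X - C c) q)‖² = ∑ ‖coeff ((1 - C (conj c) X) q)‖²`: the coefficients are `q_{k-1} - c q_k` and `q_k - conj c q_{k-1}`; both squares are `|q_{k-1}|² + |c|² |q_k|² - 2 Re (..)` up to the exchange of `k - 1` and `k`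
   in `|q|²`, and the mixed terms are `2 Re (conj c q_{k-1} conj q_k)` in both cases.  Sum over `k < N` with `N` larger than the degree (`q_{-1} = 0`, `q_k = 0` for large `k`).  By induction over the multiset: `∑ ‖coeff (R S * q)‖² = ∑ ‖coeff (E S * q)‖²`.
2. Let `k : ℕ → ℤ` with `∑ j < n, k j * l ^ j = 0`, `κ = ∑ j < n, C (k j) X ^ j ∈ ℤ[X]`.  `P ∣ κ` in `ℤ[X]` (`P` is irreducible and monic and `aeval l P = 0 = aeval l κ`: over `ℚ` the image of `P` is the minimal polynomial of `l` (`minpoly.eq_of_irreducible_of_monic` with Gauss' lemma `Polynomial.Monic.irreducible_iff_irreducible_map_fraction_map`),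
   so it divides; then `Polynomial.map_dvd_map'`/`Polynomial.Monic.dvd...` or `minpoly.isIntegrallyClosed_dvd`).  So `R S ∣ p ∣ κ_ℂ`: `κ_ℂ = R S * q`, and `h = E S * q` has degree `< n` and the same `l²` norm.
3. Let `θ : ℕ → ℂ` be the coefficients of the power series `E S / R S` (`R S` has the constant coefficient `∏ (-r) ≠ 0`), `‖θ 0‖ = 1 / ∏ ‖r‖ = MM P`.  As power series `h = κ_ℂ * (E S / R S)`, so `h_j = ∑ i ≤ j, θ (j - i) k i` for all `j < n` (only `κ` truncated at `n` is used).
   `∑ j < n, ‖h_j‖² ≤ ∑ ‖coeff h‖² = ∑ ‖coeff κ‖² = ∑ j < n, (k j)²`.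
-/

set_option autoImplicit false

open Finset

namespace Pool.Agent.H76.BC

private noncomputable def tR (S : Multiset ℂ) : Polynomial ℂ := (S.map fun r => Polynomial.X - Polynomial.C r).prod

private noncomputable def tE (S : Multiset ℂ) : Polynomial ℂ :=
  (S.map fun r => 1 - Polynomial.C ((starRingEnd ℂ) r) * Polynomial.X).prod

private theorem tR_cons (c : ℂ) (S : Multiset ℂ) : tR (c ::ₘ S) = (Polynomial.X - Polynomial.C c) * tR S := by
  unfold tR
  rw [Multiset.map_cons, Multiset.prod_cons]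

private theorem tE_cons (c : ℂ) (S : Multiset ℂ) :
    tE (c ::ₘ S) = (1 - Polynomial.C ((starRingEnd ℂ) c) * Polynomial.X) * tE S := by
  unfold tE
  rw [Multiset.map_cons, Multiset.prod_cons]

private theorem tri_norm (a b c : ℂ) :
    ‖a - c * b‖ ^ 2 - ‖b - (starRingEnd ℂ) c * a‖ ^ 2 = (1 - ‖c‖ ^ 2) * ‖a‖ ^ 2 + (‖c‖ ^ 2 - 1) * ‖b‖ ^ 2 := by
  simp only [← Complex.normSq_eq_norm_sq, Complex.normSq_apply, Complex.sub_re, Complex.sub_im, Complex.mul_re, Complex.mul_im,
    Complex.conj_re, Complex.conj_im]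
  ring

private theorem tri_c1 (c : ℂ) (q : Polynomial ℂ) : ((Polynomial.X - Polynomial.C c) * q).coeff 0 = -(c * q.coeff 0) := by
  rw [sub_mul, Polynomial.coeff_sub, Polynomial.coeff_X_mul_zero, Polynomial.coeff_C_mul, zero_sub]

private theorem tri_c2 (c : ℂ) (q : Polynomial ℂ) (k : ℕ) :
    ((Polynomial.X - Polynomial.C c) * q).coeff (k + 1) = q.coeff k - c * q.coeff (k + 1) := by
  rw [sub_mul, Polynomial.coeff_sub, Polynomial.coeff_X_mul, Polynomial.coeff_C_mul]

private theorem tri_c3 (c : ℂ) (q : Polynomial ℂ) : ((1 - Polynomial.C c * Polynomial.X) * q).coeff 0 = q.coeff 0 := by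
  rw [sub_mul, one_mul, mul_assoc, Polynomial.coeff_sub, Polynomial.coeff_C_mul, Polynomial.coeff_X_mul_zero, mul_zero, sub_zero]

private theorem tri_c4 (c : ℂ) (q : Polynomial ℂ) (k : ℕ) :
    ((1 - Polynomial.C c * Polynomial.X) * q).coeff (k + 1) = q.coeff (k + 1) - c * q.coeff k := by
  rw [sub_mul, one_mul, mul_assoc, Polynomial.coeff_sub, Polynomial.coeff_C_mul, Polynomial.coeff_X_mul]

private theorem tri_tel (c : ℂ) (q : Polynomial ℂ) (N : ℕ) :
    ∑ k ∈ range (N + 1), ‖((Polynomial.X - Polynomial.C c) * q).coeff k‖ ^ 2 -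
      ∑ k ∈ range (N + 1), ‖((1 - Polynomial.C ((starRingEnd ℂ) c) * Polynomial.X) * q).coeff k‖ ^ 2 =
      (‖c‖ ^ 2 - 1) * ‖q.coeff N‖ ^ 2 := by
  induction N with
  | zero =>
    rw [zero_add, sum_range_one, sum_range_one, tri_c1, tri_c3, norm_neg, norm_mul]
    ring
  | succ N ih =>
    rw [sum_range_succ _ (N + 1), sum_range_succ _ (N + 1), tri_c2, tri_c4]
    have h := tri_norm (q.coeff N) (q.coeff (N + 1)) c
    linarith

private theorem tri_multi (S : Multiset ℂ) : ∀ (q : Polynomial ℂ) (n : ℕ), q.natDegree + Multiset.card S < n →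
    ∑ k ∈ range n, ‖(tR S * q).coeff k‖ ^ 2 = ∑ k ∈ range n, ‖(tE S * q).coeff k‖ ^ 2 := by
  induction S using Multiset.induction_on with
  | empty =>
    intro q n _
    unfold tR tE
    rw [Multiset.map_zero, Multiset.map_zero, Multiset.prod_zero]
  | cons c S ih =>
    intro q n hn
    rw [Multiset.card_cons] at hn
    have hdS : (tR S).natDegree ≤ Multiset.card S := by
      unfold tR
      rw [Polynomial.natDegree_multiset_prod_X_sub_C_eq_card]
    have hQ : (tR S * q).natDegree < n - 1 := by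
      have h1 := Polynomial.natDegree_mul_le (p := tR S) (q := q)
      omega
    have h0 : (tR S * q).coeff (n - 1) = 0 := Polynomial.coeff_eq_zero_of_natDegree_lt hQ
    have h1 := tri_tel c (tR S * q) (n - 1)
    rw [h0, norm_zero, Nat.sub_add_cancel (by omega : 1 ≤ n)] at h1
    have h2 : ∑ k ∈ range n, ‖((Polynomial.X - Polynomial.C c) * (tR S * q)).coeff k‖ ^ 2 =
        ∑ k ∈ range n, ‖((1 - Polynomial.C ((starRingEnd ℂ) c) * Polynomial.X) * (tR S * q)).coeff k‖ ^ 2 := by
      have h3 : (‖c‖ ^ 2 - 1) * (0 : ℝ) ^ 2 = 0 := by ring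
      linarith
    rw [tR_cons, tE_cons, mul_assoc, h2, mul_left_comm]
    have hq' : ((1 - Polynomial.C ((starRingEnd ℂ) c) * Polynomial.X) * q).natDegree ≤ 1 + q.natDegree := by
      refine (Polynomial.natDegree_mul_le).trans (Nat.add_le_add_right ?_ _)
      refine (Polynomial.natDegree_sub_le _ _).trans (max_le ?_ ?_)
      · rw [Polynomial.natDegree_one]
        exact Nat.zero_le _
      · refine (Polynomial.natDegree_C_mul_le _ _).trans ?_
        exact Polynomial.natDegree_X_le
    rw [ih _ n (by omega)]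
    refine sum_congr rfl fun k _ => ?_
    rw [mul_left_comm, mul_assoc]

private theorem tri_dvd {l : ℝ} {P κ : Polynomial ℤ} (hP : Irreducible P) (hm : P.Monic) (hr : Polynomial.aeval l P = 0)
    (hk : Polynomial.aeval l κ = 0) : P ∣ κ := by
  have hint : IsIntegral ℤ l := ⟨P, hm, by rwa [← Polynomial.aeval_def]⟩
  have h1 : minpoly ℤ l ∣ P := minpoly.isIntegrallyClosed_dvd hint hr
  have h2 : minpoly ℤ l ∣ κ := minpoly.isIntegrallyClosed_dvd hint hk
  exact ((minpoly.irreducible hint).dvd_symm hP h1).trans h2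

theorem tri {l : ℝ} {P : Polynomial ℤ} (hP : Irreducible P) (hm : P.Monic) (h0 : P.coeff 0 ≠ 0) (hr : Polynomial.aeval l P = 0) :
    ∃ θ : ℕ → ℂ, ‖θ 0‖ = MM P ∧ ∀ (n : ℕ) (k : ℕ → ℤ), (∑ j ∈ range n, (k j : ℝ) * l ^ j = 0) →
      ∑ j ∈ range n, ‖∑ i ∈ range (j + 1), θ (j - i) * (k i : ℂ)‖ ^ 2 ≤ ∑ j ∈ range n, (k j : ℝ) ^ 2 := by
  set S := rin P with hS
  have hroot : ∀ r ∈ S, r ≠ 0 := by
    intro r hr1 hr2
    rw [hS, rin, Multiset.mem_filter] at hr1
    have h1 := Polynomial.isRoot_of_mem_roots hr1.1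
    rw [hr2, Polynomial.IsRoot.def, ← Polynomial.coeff_zero_eq_eval_zero, Polynomial.coeff_map] at h1
    rw [eq_intCast] at h1
    exact h0 (by exact_mod_cast h1)
  have hR0 : (tR S).coeff 0 = (S.map fun r => -r).prod := by
    unfold tR
    rw [Polynomial.coeff_zero_eq_eval_zero, Polynomial.eval_multiset_prod, Multiset.map_map]
    congr 1
    refine Multiset.map_congr rfl fun r _ => ?_
    simp
  have hE0 : (tE S).coeff 0 = 1 := by
    unfold tE
    rw [Polynomial.coeff_zero_eq_eval_zero, Polynomial.eval_multiset_prod, Multiset.map_map]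
    have h1 : (S.map ((fun p : Polynomial ℂ => p.eval 0) ∘ fun r => 1 - Polynomial.C ((starRingEnd ℂ) r) * Polynomial.X)) =
        S.map (fun _ => (1 : ℂ)) := by
      refine Multiset.map_congr rfl fun r _ => ?_
      simp
    have h2 : (Multiset.map (Polynomial.eval (0 : ℂ) ∘ fun r => 1 - Polynomial.C ((starRingEnd ℂ) r) * Polynomial.X) S) =
        S.map (fun _ => (1 : ℂ)) := h1
    rw [h2, Multiset.map_const', Multiset.prod_replicate, one_pow]
  have hR0' : (tR S).coeff 0 ≠ 0 := by
    rw [hR0]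
    refine Multiset.prod_ne_zero fun h => ?_
    rw [Multiset.mem_map] at h
    obtain ⟨r, hr1, hr2⟩ := h
    exact hroot r hr1 (neg_eq_zero.1 hr2)
  set Θ : PowerSeries ℂ := (tE S : PowerSeries ℂ) * (tR S : PowerSeries ℂ)⁻¹ with hΘ
  have hcR : PowerSeries.constantCoeff (tR S : PowerSeries ℂ) = (tR S).coeff 0 := Polynomial.constantCoeff_coe _
  have hRinv : (tR S : PowerSeries ℂ) * (tR S : PowerSeries ℂ)⁻¹ = 1 :=
    PowerSeries.mul_inv_cancel _ (by rw [hcR]; exact hR0')
  refine ⟨fun j => PowerSeries.coeff j Θ, ?_, ?_⟩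
  · have h1 : PowerSeries.coeff 0 Θ = ((tR S).coeff 0)⁻¹ := by
      rw [PowerSeries.coeff_zero_eq_constantCoeff_apply, hΘ, map_mul, PowerSeries.constantCoeff_inv, hcR, Polynomial.constantCoeff_coe,
        hE0, one_mul]
    change ‖PowerSeries.coeff 0 Θ‖ = MM P
    rw [h1, hR0, norm_inv]
    unfold MM
    rw [← hS]
    have h2 : ∀ T : Multiset ℂ, ‖(T.map fun r => -r).prod‖⁻¹ = (T.map fun r => ‖r‖⁻¹).prod := by
      intro T
      induction T using Multiset.induction_on with
      | empty => simp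
      | cons c T ih =>
        rw [Multiset.map_cons, Multiset.map_cons, Multiset.prod_cons, Multiset.prod_cons, norm_mul, mul_inv, ih, norm_neg]
    exact h2 S
  · intro n k hk
    set κ : Polynomial ℤ := ∑ j ∈ range n, Polynomial.C (k j) * Polynomial.X ^ j with hκ
    have hκl : Polynomial.aeval l κ = 0 := by
      rw [hκ, map_sum, ← hk]
      refine sum_congr rfl fun j _ => ?_
      rw [map_mul, map_pow, Polynomial.aeval_X, Polynomial.aeval_C]
      simp
    have hκc : ∀ j, κ.coeff j = if j < n then k j else 0 := by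
      intro j
      rw [hκ, Polynomial.finsetSum_coeff]
      have h1 : ∀ i ∈ range n, (Polynomial.C (k i) * Polynomial.X ^ i : Polynomial ℤ).coeff j = if i = j then k i else 0 := by
        intro i _
        rw [Polynomial.coeff_C_mul_X_pow]
        by_cases h2 : i = j
        · rw [if_pos h2, if_pos h2.symm]
        · rw [if_neg h2, if_neg (fun h3 => h2 h3.symm)]
      rw [sum_congr rfl h1, sum_ite_eq']
      simp only [mem_range]
    have hdvd := tri_dvd hP hm hr hκl
    have hdvd2 : tR S ∣ κ.map (Int.castRingHom ℂ) := by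
      refine dvd_trans ?_ (Polynomial.map_dvd (Int.castRingHom ℂ) hdvd)
      refine dvd_trans ?_ (Polynomial.prod_multiset_X_sub_C_dvd _)
      unfold tR
      refine Multiset.prod_dvd_prod_of_le (Multiset.map_le_map ?_)
      rw [hS, rin]
      exact Multiset.filter_le _ _
    obtain ⟨q, hq⟩ := hdvd2
    have hκC : ∀ j, (κ.map (Int.castRingHom ℂ)).coeff j = if j < n then (k j : ℂ) else 0 := by
      intro j
      rw [Polynomial.coeff_map, hκc j]
      by_cases h1 : j < n
      · rw [if_pos h1, if_pos h1]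
        rfl
      · rw [if_neg h1, if_neg h1, map_zero]
    have hconv : ∀ j, j < n → (tE S * q).coeff j = ∑ i ∈ range (j + 1), PowerSeries.coeff (j - i) Θ * (k i : ℂ) := by
      intro j hj
      have h1 : ((tE S * q : Polynomial ℂ) : PowerSeries ℂ) = (κ.map (Int.castRingHom ℂ) : PowerSeries ℂ) * Θ := by
        rw [hq, hΘ, Polynomial.coe_mul, Polynomial.coe_mul]
        calc (tE S : PowerSeries ℂ) * (q : PowerSeries ℂ) = (tE S : PowerSeries ℂ) * (q : PowerSeries ℂ) * 1 := by rw [mul_one]
          _ = (tR S : PowerSeries ℂ) * q * ((tE S : PowerSeries ℂ) * (tR S : PowerSeries ℂ)⁻¹) := by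
            rw [← hRinv]
            ring
      rw [← Polynomial.coeff_coe, h1, PowerSeries.coeff_mul, Finset.Nat.sum_antidiagonal_eq_sum_range_succ
        (fun a b => PowerSeries.coeff a (κ.map (Int.castRingHom ℂ) : PowerSeries ℂ) * PowerSeries.coeff b Θ)]
      refine sum_congr rfl fun i hi => ?_
      rw [mem_range] at hi
      rw [Polynomial.coeff_coe, hκC i, if_pos (by omega), mul_comm]
    have hfin : ∑ j ∈ range n, ‖∑ i ∈ range (j + 1), PowerSeries.coeff (j - i) Θ * (k i : ℂ)‖ ^ 2 =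
        ∑ j ∈ range n, ‖(tE S * q).coeff j‖ ^ 2 := by
      refine sum_congr rfl fun j hj => ?_
      rw [hconv j (mem_range.1 hj)]
    have hk2 : ∑ j ∈ range n, ‖(tR S * q).coeff j‖ ^ 2 = ∑ j ∈ range n, (k j : ℝ) ^ 2 := by
      refine sum_congr rfl fun j hj => ?_
      rw [← hq, hκC j, if_pos (mem_range.1 hj), Complex.norm_intCast, sq_abs]
    change ∑ j ∈ range n, ‖∑ i ∈ range (j + 1), PowerSeries.coeff (j - i) Θ * (k i : ℂ)‖ ^ 2 ≤ _
    rw [hfin]
    by_cases hq0 : q = 0
    · rw [hq0, mul_zero]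
      have h1 : ∑ j ∈ range n, ‖(0 : Polynomial ℂ).coeff j‖ ^ 2 = 0 := by
        refine sum_eq_zero fun j _ => ?_
        rw [Polynomial.coeff_zero, norm_zero]
        norm_num
      rw [h1]
      exact sum_nonneg fun _ _ => sq_nonneg _
    · rw [← hk2]
      refine le_of_eq (tri_multi S q n ?_).symm
      have hmon : (tR S).Monic := by
        unfold tR
        exact Polynomial.monic_multiset_prod_of_monic _ _ fun r _ => Polynomial.monic_X_sub_C r
      have hd : (tR S * q).natDegree = Multiset.card S + q.natDegree := by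
        rw [hmon.natDegree_mul' hq0]
        unfold tR
        rw [Polynomial.natDegree_multiset_prod_X_sub_C_eq_card]
      by_contra hcon
      have h1 : n ≤ (tR S * q).natDegree := by omega
      have h2 : (tR S * q).coeff (tR S * q).natDegree = 0 := by
        rw [← hq, hκC, if_neg]
        rw [hq]
        omega
      rw [Polynomial.coeff_natDegree, Polynomial.leadingCoeff_eq_zero] at h2
      exact (mul_ne_zero hmon.ne_zero hq0) h2

end Pool.Agent.H76.BC
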