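import Pool.Agent.H76.BC.Defs

/-!
# The transfer operator of the doubling map, exact step

`qq t = psi t ^ 2 = cos⁴ (t / 2) = (3 + 4 cos t + cos 2t) / 8`, `gg a b z = a + Re (b e^{iz})`.

* `gg_step`: write everything with exponentials: with `w = e^{iz/2}` (and `-w` at the other preimage), `qq (s + z/2) = 3/8 + Re (e^{is} w) / 2 + Re (e^{2is} w²) / 8`; the odd powers of `w` cancel in the mean.
  A direct way: put `b = b.re + i b.im`, expand `cos (s + z/2)`, `sin`, ..., and use `cos² + sin² = 1`.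
* `int_step`: `∫_0^{2π} G(z) H(2z) dz = (1/2) ∫_0^{4π} G(w/2) H(w) dw = (1/2) ∫_0^{2π} (G(w/2) + G(w/2 + π)) H(w) dw` for continuous `G`, `H` with `H` of period `2π` (`intervalIntegral.integral_comp_mul_left` or `_comp_div`,
  `integral_add_adjacent_intervals`, `integral_comp_add_right`).  Prove this general formula first.
* `int_skip`: the same with `G = gg a b`: `gg a b (w/2) + gg a b (w/2 + π) = 2 a`.
-/

set_option autoImplicit false

open Finset Complex

namespace Pool.Agent.H76.BC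

/-- `psi ^ 2` -/
noncomputable def qq (t : ℝ) : ℝ := psi t ^ 2

/-- `a + Re (b e^{iz})` -/
noncomputable def gg (a : ℝ) (b : ℂ) (z : ℝ) : ℝ := a + (b * exp (z * I)).re

/-- the new constant coefficient -/
noncomputable def nA (s a : ℝ) (b : ℂ) : ℝ := 3 * a / 8 + (exp (s * I) * (starRingEnd ℂ) b).re / 4

/-- the new first coefficient -/
noncomputable def nB (s a : ℝ) (b : ℂ) : ℂ := exp (2 * s * I) * a / 8 + exp (s * I) * b / 4

theorem continuous_qq : Continuous qq := by
  unfold qq
  exact continuous_psi.pow 2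

theorem continuous_gg (a : ℝ) (b : ℂ) : Continuous (gg a b) := by
  unfold gg
  fun_prop

private theorem Trans_gg (a : ℝ) (b : ℂ) (z : ℝ) : gg a b z = a + (b.re * Real.cos z - b.im * Real.sin z) := by
  unfold gg
  rw [Complex.mul_re, Complex.exp_ofReal_mul_I_re, Complex.exp_ofReal_mul_I_im]

private theorem Trans_qq (t : ℝ) : qq t = ((1 + Real.cos t) / 2) ^ 2 := by
  unfold qq
  rw [psi_eq]

theorem gg_step (s a : ℝ) (b : ℂ) (z : ℝ) :
    (gg a b (z / 2) * qq (s + z / 2) + gg a b (z / 2 + Real.pi) * qq (s + (z / 2 + Real.pi))) / 2 = gg (nA s a b) (nB s a b) z := by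
  obtain ⟨u, hu⟩ : ∃ u, u = z / 2 := ⟨_, rfl⟩
  obtain ⟨t, ht⟩ : ∃ t, t = s + u := ⟨_, rfl⟩
  have hz : z = 2 * u := by rw [hu]; ring
  have hs : s = t - u := by rw [ht]; ring
  have e1 : s + (u + Real.pi) = t + Real.pi := by rw [ht]; ring
  rw [Trans_gg (nA s a b) (nB s a b) z, ← hu, e1, ← ht, Trans_gg, Trans_gg, Trans_qq, Trans_qq, Real.cos_add_pi, Real.cos_add_pi, Real.sin_add_pi]
  have hA : nA s a b = 3 * a / 8 + (b.re * Real.cos s + b.im * Real.sin s) / 4 := by
    unfold nA
    rw [Complex.mul_re, Complex.exp_ofReal_mul_I_re, Complex.exp_ofReal_mul_I_im, Complex.conj_re, Complex.conj_im]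
    ring
  have h2s : exp (2 * s * I) = exp (((2 * s : ℝ) : ℂ) * I) := by push_cast; rfl
  have hBr : (nB s a b).re = Real.cos (2 * s) * a / 8 + (Real.cos s * b.re - Real.sin s * b.im) / 4 := by
    unfold nB
    rw [h2s, Complex.add_re]
    congr 1
    · rw [show (8 : ℂ) = ((8 : ℝ) : ℂ) by push_cast; rfl, Complex.div_ofReal_re, Complex.mul_re, Complex.exp_ofReal_mul_I_re,
        Complex.ofReal_re, Complex.ofReal_im]
      ring
    · rw [show (4 : ℂ) = ((4 : ℝ) : ℂ) by push_cast; rfl, Complex.div_ofReal_re, Complex.mul_re, Complex.exp_ofReal_mul_I_re,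
        Complex.exp_ofReal_mul_I_im]
  have hBi : (nB s a b).im = Real.sin (2 * s) * a / 8 + (Real.cos s * b.im + Real.sin s * b.re) / 4 := by
    unfold nB
    rw [h2s, Complex.add_im]
    congr 1
    · rw [show (8 : ℂ) = ((8 : ℝ) : ℂ) by push_cast; rfl, Complex.div_ofReal_im, Complex.mul_im, Complex.exp_ofReal_mul_I_im,
        Complex.ofReal_re, Complex.ofReal_im]
      ring
    · rw [show (4 : ℂ) = ((4 : ℝ) : ℂ) by push_cast; rfl, Complex.div_ofReal_im, Complex.mul_im, Complex.exp_ofReal_mul_I_re,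
        Complex.exp_ofReal_mul_I_im]
  -- angle sums
  have c1 : Real.cos (2 * s) * Real.cos z - Real.sin (2 * s) * Real.sin z = 2 * Real.cos t ^ 2 - 1 := by
    rw [← Real.cos_add, ← Real.cos_two_mul]
    congr 1
    rw [hz, hs]
    ring
  have c2 : Real.cos s * Real.cos z - Real.sin s * Real.sin z = Real.cos t * Real.cos u - Real.sin t * Real.sin u := by
    rw [← Real.cos_add, ← Real.cos_add]
    congr 1
    rw [hz, hs]
    ring
  have c3 : Real.sin s * Real.cos z + Real.cos s * Real.sin z = Real.sin t * Real.cos u + Real.cos t * Real.sin u := by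
    rw [← Real.sin_add, ← Real.sin_add]
    congr 1
    rw [hz, hs]
    ring
  have c4 : Real.cos s = Real.cos t * Real.cos u + Real.sin t * Real.sin u := by rw [hs, Real.cos_sub]
  have c5 : Real.sin s = Real.sin t * Real.cos u - Real.cos t * Real.sin u := by rw [hs, Real.sin_sub]
  rw [hA, hBr, hBi]
  linear_combination (-(a / 8)) * c1 - b.re / 4 * c2 + b.im / 4 * c3 - b.re / 4 * c4 - b.im / 4 * c5

theorem int_double {G H : ℝ → ℝ} (hG : Continuous G) (hH : Continuous H) (hp : ∀ x, H (x + 2 * Real.pi) = H x) :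
    ∫ z in (0 : ℝ)..(2 * Real.pi), G z * H (2 * z) = ∫ z in (0 : ℝ)..(2 * Real.pi), (G (z / 2) + G (z / 2 + Real.pi)) / 2 * H z := by
  have hF : Continuous fun w => G (w / 2) * H w := (hG.comp (by fun_prop)).mul hH
  have h1 : ∫ z in (0 : ℝ)..(2 * Real.pi), G z * H (2 * z) = ∫ z in (0 : ℝ)..(2 * Real.pi), (fun w => G (w / 2) * H w) (2 * z) := by
    refine intervalIntegral.integral_congr fun z _ => ?_
    show G z * H (2 * z) = G (2 * z / 2) * H (2 * z)
    rw [mul_div_cancel_left₀ z two_ne_zero]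
  rw [h1, intervalIntegral.integral_comp_mul_left (fun w => G (w / 2) * H w) two_ne_zero, mul_zero]
  have hi : ∀ x y : ℝ, IntervalIntegrable (fun w => G (w / 2) * H w) MeasureTheory.volume x y := fun x y => hF.intervalIntegrable x y
  rw [← intervalIntegral.integral_add_adjacent_intervals (hi 0 (2 * Real.pi)) (hi (2 * Real.pi) (2 * (2 * Real.pi)))]
  have h2 : ∫ w in (2 * Real.pi)..(2 * (2 * Real.pi)), G (w / 2) * H w = ∫ w in (0 : ℝ)..(2 * Real.pi), G (w / 2 + Real.pi) * H w := by
    have h3 := intervalIntegral.integral_comp_add_right (a := 0) (b := 2 * Real.pi) (fun w => G (w / 2) * H w) (2 * Real.pi)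
    rw [zero_add, show 2 * Real.pi + 2 * Real.pi = 2 * (2 * Real.pi) by ring] at h3
    rw [← h3]
    refine intervalIntegral.integral_congr fun z _ => ?_
    show G ((z + 2 * Real.pi) / 2) * H (z + 2 * Real.pi) = G (z / 2 + Real.pi) * H z
    rw [hp, show (z + 2 * Real.pi) / 2 = z / 2 + Real.pi by ring]
  have hF2 : Continuous fun w => G (w / 2 + Real.pi) * H w := (hG.comp (by fun_prop)).mul hH
  rw [h2, ← intervalIntegral.integral_add (hi 0 (2 * Real.pi)) (hF2.intervalIntegrable _ _), smul_eq_mul,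
    ← intervalIntegral.integral_const_mul]
  refine intervalIntegral.integral_congr fun z _ => ?_
  show 2⁻¹ * (G (z / 2) * H z + G (z / 2 + Real.pi) * H z) = (G (z / 2) + G (z / 2 + Real.pi)) / 2 * H z
  ring

theorem int_step (s a : ℝ) (b : ℂ) {H : ℝ → ℝ} (hH : Continuous H) (hp : ∀ x, H (x + 2 * Real.pi) = H x) :
    ∫ z in (0 : ℝ)..(2 * Real.pi), gg a b z * qq (s + z) * H (2 * z) =
      ∫ z in (0 : ℝ)..(2 * Real.pi), gg (nA s a b) (nB s a b) z * H z := by
  have hG : Continuous fun z => gg a b z * qq (s + z) := (continuous_gg a b).mul (continuous_qq.comp (by fun_prop))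
  rw [int_double hG hH hp]
  refine intervalIntegral.integral_congr fun z _ => ?_
  show (gg a b (z / 2) * qq (s + z / 2) + gg a b (z / 2 + Real.pi) * qq (s + (z / 2 + Real.pi))) / 2 * H z =
    gg (nA s a b) (nB s a b) z * H z
  rw [gg_step]

theorem int_skip (a : ℝ) (b : ℂ) {H : ℝ → ℝ} (hH : Continuous H) (hp : ∀ x, H (x + 2 * Real.pi) = H x) :
    ∫ z in (0 : ℝ)..(2 * Real.pi), gg a b z * H (2 * z) = ∫ z in (0 : ℝ)..(2 * Real.pi), gg a 0 z * H z := by
  rw [int_double (continuous_gg a b) hH hp]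
  refine intervalIntegral.integral_congr fun z _ => ?_
  show (gg a b (z / 2) + gg a b (z / 2 + Real.pi)) / 2 * H z = gg a 0 z * H z
  rw [Trans_gg, Trans_gg, Trans_gg, Real.cos_add_pi, Real.sin_add_pi, Complex.zero_re, Complex.zero_im]
  ring

end Pool.Agent.H76.BC
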