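import Pool.Agent.H76.BC.TransV

/-!
# The integral of the product over a period

* `trans_bound`: define the states `st 0 = (a, b)`, `st (l + 1) = (nA (σ l) .., nB (σ l) ..)` (a recursive function `ℕ → ℝ × ℂ`), `V l = (st l).1 + ‖(st l).2‖`.  By induction on `n` (`int_step` with `H z = ∏ l ∈ range n, qq (σ (l + 1) + 2 ^ l * z)`, `Finset.prod_range_succ'`;
  state the induction for all `σ`, `a`, `b`) the integral is `∫ gg (st n).1 (st n).2 z = 2π (st n).1 ≤ 2π V n`.  `‖(st l).2‖ ≤ (st l).1` for all `l` (`inv_step`), `V (l + 1) ≤ V l / 2` (`V_step`), `V (l + 2) ≤ V l / 4 * κ l`, `κ l = exp (-(1 - cos (2 σ l - σ (l + 1))) / 16)` (`V_two`).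
  `W l = V l * V (l + 1)`: `W (l + 1) ≤ W l / 4 * κ l`, so `W m ≤ W 0 / 4 ^ m * ∏ l < m, κ l`; for `n ≥ 1`: `(V n)² ≤ V (n - 1) V n / 2 = W (n - 1) / 2 ≤ (V 0)² / 4 ^ n * ∏ l < n - 1, κ l`.  Take the square root.
* `trans_miss`: `k` steps, one `int_skip` (state `(a, b) ↦ (a, 0)`), `n - 1 - k` steps with the phases `σ (k + 1 + ·)`.  First part: `V k ≤ 2 ^ (-k) exp (- (sum over l < k - 1) / 32)`, second part: `trans_bound` for the start `(a, 0)`, `a ≤ V k`.
  The missing terms of the sum are those with `l = k - 1` and `l = k`, they are at most `2` each: `exp (4 / 32) * 2 ≤ 3`.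
  (It may be convenient to prove first the general statement: for all `a b` with `‖b‖ ≤ a`: `∫ gg a b z * (∏ l ∈ range k, qq (σ l + 2 ^ l z)) * H (2 ^ k z) = ∫ gg (st k).1 (st k).2 z * H z` for continuous `2π`-periodic `H`.)
-/

set_option autoImplicit false

open Finset Complex

namespace Pool.Agent.H76.BC

/-- the states -/
noncomputable def st (σ : ℕ → ℝ) (a : ℝ) (b : ℂ) : ℕ → ℝ × ℂ
  | 0 => (a, b)
  | l + 1 => (nA (σ l) (st σ a b l).1 (st σ a b l).2, nB (σ l) (st σ a b l).1 (st σ a b l).2)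

/-- the potential -/
noncomputable def VV (σ : ℕ → ℝ) (a : ℝ) (b : ℂ) (l : ℕ) : ℝ := (st σ a b l).1 + ‖(st σ a b l).2‖

theorem st_inv (σ : ℕ → ℝ) (a : ℝ) (b : ℂ) (h : ‖b‖ ≤ a) (l : ℕ) : ‖(st σ a b l).2‖ ≤ (st σ a b l).1 := by
  induction l with
  | zero => exact h
  | succ l ih => exact inv_step _ _ _ ih

theorem VV_nonneg (σ : ℕ → ℝ) (a : ℝ) (b : ℂ) (h : ‖b‖ ≤ a) (l : ℕ) : 0 ≤ VV σ a b l := by
  have h1 := st_inv σ a b h l
  have h2 := norm_nonneg (st σ a b l).2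
  unfold VV
  linarith

theorem st_le_VV (σ : ℕ → ℝ) (a : ℝ) (b : ℂ) (l : ℕ) : (st σ a b l).1 ≤ VV σ a b l := by
  have h2 := norm_nonneg (st σ a b l).2
  unfold VV
  linarith

theorem VV_succ (σ : ℕ → ℝ) (a : ℝ) (b : ℂ) (h : ‖b‖ ≤ a) (l : ℕ) : VV σ a b (l + 1) ≤ VV σ a b l / 2 :=
  V_step (σ l) _ _ (st_inv σ a b h l)

theorem VV_two (σ : ℕ → ℝ) (a : ℝ) (b : ℂ) (h : ‖b‖ ≤ a) (l : ℕ) :
    VV σ a b (l + 2) ≤ VV σ a b l / 4 * Real.exp (-(1 - Real.cos (2 * σ l - σ (l + 1))) / 16) :=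
  V_two (σ l) (σ (l + 1)) _ _ (st_inv σ a b h l)

theorem VV_mul (σ : ℕ → ℝ) (a : ℝ) (b : ℂ) (h : ‖b‖ ≤ a) (m : ℕ) :
    VV σ a b m * VV σ a b (m + 1) ≤
      (a + ‖b‖) ^ 2 / (2 * 4 ^ m) * Real.exp (-(∑ l ∈ range m, (1 - Real.cos (2 * σ l - σ (l + 1)))) / 16) := by
  induction m with
  | zero =>
    have h1 := VV_succ σ a b h 0
    have h0 := VV_nonneg σ a b h 0
    have e : VV σ a b 0 = a + ‖b‖ := rfl
    rw [e] at h0 h1
    rw [e]
    simp only [zero_add, pow_zero, mul_one, range_zero, sum_empty, neg_zero, zero_div, Real.exp_zero]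
    calc (a + ‖b‖) * VV σ a b (0 + 1) ≤ (a + ‖b‖) * ((a + ‖b‖) / 2) := mul_le_mul_of_nonneg_left h1 h0
      _ = (a + ‖b‖) ^ 2 / 2 := by ring
  | succ m ih =>
    have h1 := VV_two σ a b h m
    have h2 := VV_nonneg σ a b h (m + 1)
    rw [sum_range_succ]
    have e : Real.exp (-(∑ l ∈ range m, (1 - Real.cos (2 * σ l - σ (l + 1))) + (1 - Real.cos (2 * σ m - σ (m + 1)))) / 16) =
        Real.exp (-(∑ l ∈ range m, (1 - Real.cos (2 * σ l - σ (l + 1)))) / 16) *
          Real.exp (-(1 - Real.cos (2 * σ m - σ (m + 1))) / 16) := by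
      rw [← Real.exp_add]
      congr 1
      ring
    rw [e]
    set E := Real.exp (-(∑ l ∈ range m, (1 - Real.cos (2 * σ l - σ (l + 1)))) / 16)
    set K := Real.exp (-(1 - Real.cos (2 * σ m - σ (m + 1))) / 16)
    have hK : 0 < K := Real.exp_pos _
    calc VV σ a b (m + 1) * VV σ a b (m + 1 + 1) ≤ VV σ a b (m + 1) * (VV σ a b m / 4 * K) :=
          mul_le_mul_of_nonneg_left h1 h2
      _ = VV σ a b m * VV σ a b (m + 1) * (K / 4) := by ring
      _ ≤ (a + ‖b‖) ^ 2 / (2 * 4 ^ m) * E * (K / 4) := mul_le_mul_of_nonneg_right ih (by positivity)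
      _ = (a + ‖b‖) ^ 2 / (2 * 4 ^ (m + 1)) * (E * K) := by
          rw [pow_succ]
          field_simp
          ring

theorem VV_bound (σ : ℕ → ℝ) (a : ℝ) (b : ℂ) (h : ‖b‖ ≤ a) (n : ℕ) :
    VV σ a b n ≤ (a + ‖b‖) / 2 ^ n * Real.exp (-(∑ l ∈ range (n - 1), (1 - Real.cos (2 * σ l - σ (l + 1)))) / 32) := by
  have hab : 0 ≤ a + ‖b‖ := VV_nonneg σ a b h 0
  rcases n with _ | m
  · have e : VV σ a b 0 = a + ‖b‖ := rfl
    rw [e]
    simp
  · rw [Nat.add_sub_cancel]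
    set S := ∑ l ∈ range m, (1 - Real.cos (2 * σ l - σ (l + 1))) with hS
    have h1 := VV_mul σ a b h m
    rw [← hS] at h1
    have h2 := VV_succ σ a b h m
    have h3 := VV_nonneg σ a b h (m + 1)
    have h4 : VV σ a b (m + 1) ^ 2 ≤ ((a + ‖b‖) / 2 ^ (m + 1) * Real.exp (-S / 32)) ^ 2 := by
      have e1 : Real.exp (-S / 32) ^ 2 = Real.exp (-S / 16) := by
        rw [← Real.exp_nat_mul]
        congr 1
        push_cast
        ring
      have e2 : ((2 : ℝ) ^ (m + 1)) ^ 2 = 4 * 4 ^ m := by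
        rw [← pow_mul, mul_comm, pow_mul]
        norm_num [pow_succ]
        ring
      rw [mul_pow, div_pow, e1, e2]
      calc VV σ a b (m + 1) ^ 2 = VV σ a b (m + 1) * VV σ a b (m + 1) := sq _
        _ ≤ VV σ a b m / 2 * VV σ a b (m + 1) := mul_le_mul_of_nonneg_right h2 h3
        _ = VV σ a b m * VV σ a b (m + 1) * (1 / 2) := by ring
        _ ≤ (a + ‖b‖) ^ 2 / (2 * 4 ^ m) * Real.exp (-S / 16) * (1 / 2) := mul_le_mul_of_nonneg_right h1 (by norm_num)
        _ = (a + ‖b‖) ^ 2 / (4 * 4 ^ m) * Real.exp (-S / 16) := by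
            field_simp
            ring
    exact le_of_sq_le_sq h4 (by positivity)

theorem qq_periodic (t : ℝ) : qq (t + 2 * Real.pi) = qq t := by
  unfold qq
  rw [psi_eq, psi_eq, Real.cos_add_two_pi]

theorem int_run (σ : ℕ → ℝ) (a : ℝ) (b : ℂ) (k : ℕ) : ∀ {H : ℝ → ℝ}, Continuous H → (∀ x, H (x + 2 * Real.pi) = H x) →
    ∫ z in (0 : ℝ)..(2 * Real.pi), gg a b z * (∏ l ∈ range k, qq (σ l + 2 ^ l * z)) * H (2 ^ k * z) =
      ∫ z in (0 : ℝ)..(2 * Real.pi), gg (st σ a b k).1 (st σ a b k).2 z * H z := by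
  induction k with
  | zero =>
    intro H hH hp
    simp [st]
  | succ k ih =>
    intro H hH hp
    have hc : Continuous fun w => qq (σ k + w) * H (2 * w) :=
      (continuous_qq.comp (continuous_const.add continuous_id)).mul (hH.comp (continuous_const.mul continuous_id))
    have hq : ∀ x, (fun w => qq (σ k + w) * H (2 * w)) (x + 2 * Real.pi) = (fun w => qq (σ k + w) * H (2 * w)) x := by
      intro x
      show qq (σ k + (x + 2 * Real.pi)) * H (2 * (x + 2 * Real.pi)) = qq (σ k + x) * H (2 * x)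
      rw [← add_assoc, qq_periodic, show 2 * (x + 2 * Real.pi) = 2 * x + 2 * Real.pi + 2 * Real.pi by ring, hp, hp]
    have h1 := ih hc hq
    have h2 := int_step (σ k) (st σ a b k).1 (st σ a b k).2 hH hp
    have e1 : ∫ z in (0 : ℝ)..(2 * Real.pi), gg a b z * (∏ l ∈ range (k + 1), qq (σ l + 2 ^ l * z)) * H (2 ^ (k + 1) * z) =
        ∫ z in (0 : ℝ)..(2 * Real.pi), gg a b z * (∏ l ∈ range k, qq (σ l + 2 ^ l * z)) *
          (fun w => qq (σ k + w) * H (2 * w)) (2 ^ k * z) := by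
      congr 1
      funext z
      show gg a b z * (∏ l ∈ range (k + 1), qq (σ l + 2 ^ l * z)) * H (2 ^ (k + 1) * z) =
        gg a b z * (∏ l ∈ range k, qq (σ l + 2 ^ l * z)) * (qq (σ k + 2 ^ k * z) * H (2 * (2 ^ k * z)))
      rw [prod_range_succ, show (2 : ℝ) ^ (k + 1) * z = 2 * (2 ^ k * z) by rw [pow_succ]; ring]
      ring
    rw [e1, h1]
    have e2 : ∫ z in (0 : ℝ)..(2 * Real.pi), gg (st σ a b k).1 (st σ a b k).2 z * (fun w => qq (σ k + w) * H (2 * w)) z =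
        ∫ z in (0 : ℝ)..(2 * Real.pi), gg (st σ a b k).1 (st σ a b k).2 z * qq (σ k + z) * H (2 * z) := by
      congr 1
      funext z
      show gg (st σ a b k).1 (st σ a b k).2 z * (qq (σ k + z) * H (2 * z)) = _
      ring
    rw [e2, h2]
    rfl

theorem int_gg (a : ℝ) (b : ℂ) : ∫ z in (0 : ℝ)..(2 * Real.pi), gg a b z = 2 * Real.pi * a := by
  have e : ∀ z : ℝ, gg a b z = a + (b.re * Real.cos z - b.im * Real.sin z) := by
    intro z
    unfold gg
    rw [mul_re, exp_ofReal_mul_I_re, exp_ofReal_mul_I_im]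
  simp_rw [e]
  rw [intervalIntegral.integral_add, intervalIntegral.integral_sub, intervalIntegral.integral_const_mul,
    intervalIntegral.integral_const_mul, integral_cos, integral_sin, intervalIntegral.integral_const]
  · simp
  · exact (by fun_prop : Continuous fun z : ℝ => b.re * Real.cos z).intervalIntegrable _ _
  · exact (by fun_prop : Continuous fun z : ℝ => b.im * Real.sin z).intervalIntegrable _ _
  · exact (by fun_prop : Continuous fun _ : ℝ => a).intervalIntegrable _ _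
  · exact (by fun_prop : Continuous fun z : ℝ => b.re * Real.cos z - b.im * Real.sin z).intervalIntegrable _ _

theorem trans_bound (n : ℕ) (σ : ℕ → ℝ) (a : ℝ) (b : ℂ) (h : ‖b‖ ≤ a) :
    ∫ z in (0 : ℝ)..(2 * Real.pi), gg a b z * ∏ l ∈ range n, qq (σ l + 2 ^ l * z) ≤
      2 * Real.pi * (a + ‖b‖) / 2 ^ n * Real.exp (-(∑ l ∈ range (n - 1), (1 - Real.cos (2 * σ l - σ (l + 1)))) / 32) := by
  have h1 := int_run σ a b n (H := fun _ => 1) continuous_const (fun _ => rfl)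
  simp only [mul_one] at h1
  rw [h1, int_gg]
  have h2 := (st_le_VV σ a b n).trans (VV_bound σ a b h n)
  have hpi := Real.pi_pos
  calc 2 * Real.pi * (st σ a b n).1 ≤ 2 * Real.pi * ((a + ‖b‖) / 2 ^ n *
        Real.exp (-(∑ l ∈ range (n - 1), (1 - Real.cos (2 * σ l - σ (l + 1)))) / 32)) :=
        mul_le_mul_of_nonneg_left h2 (by positivity)
    _ = _ := by ring

theorem gg_one (z : ℝ) : gg 1 0 z = 1 := by
  simp [gg]

theorem trans_full (n : ℕ) (σ : ℕ → ℝ) :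
    ∫ z in (0 : ℝ)..(2 * Real.pi), ∏ l ∈ range n, qq (σ l + 2 ^ l * z) ≤
      2 * Real.pi / 2 ^ n * Real.exp (-(∑ l ∈ range (n - 1), (1 - Real.cos (2 * σ l - σ (l + 1)))) / 32) := by
  have h := trans_bound n σ 1 0 (by simp)
  simp only [gg_one, one_mul, norm_zero, add_zero, mul_one] at h
  exact h

theorem sum_miss (c : ℕ → ℝ) (hc : ∀ l, c l ≤ 2) (k m : ℕ) :
    ∑ l ∈ range (k + m), c l ≤ ∑ l ∈ range (k - 1), c l + ∑ j ∈ range (m - 1), c (k + 1 + j) + 4 := by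
  rw [sum_range_add]
  have h1 : ∑ l ∈ range k, c l ≤ ∑ l ∈ range (k - 1), c l + 2 := by
    rcases k with _ | k
    · simp
    · rw [sum_range_succ, Nat.add_sub_cancel]
      linarith [hc k]
  have h2 : ∑ j ∈ range m, c (k + j) ≤ ∑ j ∈ range (m - 1), c (k + 1 + j) + 2 := by
    rcases m with _ | m
    · simp
    · rw [sum_range_succ', Nat.add_sub_cancel]
      have : ∑ j ∈ range m, c (k + (j + 1)) = ∑ j ∈ range m, c (k + 1 + j) :=
        sum_congr rfl fun j _ => by rw [show k + (j + 1) = k + 1 + j by ring]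
      rw [this]
      linarith [hc (k + 0)]
  linarith

theorem prod_miss (f : ℕ → ℝ) (k m : ℕ) :
    ∏ l ∈ (range (k + 1 + m)).erase k, f l = (∏ l ∈ range k, f l) * ∏ j ∈ range m, f (k + 1 + j) := by
  have h1 : ∏ l ∈ (range (k + 1 + m)).erase k, f l =
      ∏ l ∈ (range (k + 1 + m)).erase k, (if l = k then 1 else f l) :=
    prod_congr rfl fun l hl => by rw [if_neg (ne_of_mem_erase hl)]
  rw [h1, prod_erase _ (by simp), prod_range_add, prod_range_succ, if_pos rfl, mul_one]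
  congr 1
  · exact prod_congr rfl fun l hl => by rw [if_neg (mem_range.1 hl).ne]
  · exact prod_congr rfl fun j _ => by rw [if_neg (by omega)]

theorem trans_miss (n : ℕ) (σ : ℕ → ℝ) {k : ℕ} (hk : k < n) :
    ∫ z in (0 : ℝ)..(2 * Real.pi), ∏ l ∈ (range n).erase k, qq (σ l + 2 ^ l * z) ≤
      6 * Real.pi / 2 ^ n * Real.exp (-(∑ l ∈ range (n - 1), (1 - Real.cos (2 * σ l - σ (l + 1)))) / 32) := by
  obtain ⟨m, rfl⟩ : ∃ m, n = k + 1 + m := ⟨n - (k + 1), by omega⟩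
  set H : ℝ → ℝ := fun w => ∏ j ∈ range m, qq (σ (k + 1 + j) + 2 ^ j * w) with hHdef
  have hH : Continuous H := by
    rw [hHdef]
    exact continuous_finsetProd _ fun j _ => continuous_qq.comp (by fun_prop)
  have hp : ∀ x, H (x + 2 * Real.pi) = H x := by
    intro x
    show ∏ j ∈ range m, qq (σ (k + 1 + j) + 2 ^ j * (x + 2 * Real.pi)) = ∏ j ∈ range m, qq (σ (k + 1 + j) + 2 ^ j * x)
    refine prod_congr rfl fun j _ => ?_
    have hper : Function.Periodic qq (2 * Real.pi) := qq_periodic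
    have := hper.nat_mul (2 ^ j) (σ (k + 1 + j) + 2 ^ j * x)
    rw [← this]
    congr 1
    push_cast
    ring
  have hH2 : Continuous fun w => H (2 * w) := hH.comp (continuous_const.mul continuous_id)
  have hp2 : ∀ x, (fun w => H (2 * w)) (x + 2 * Real.pi) = (fun w => H (2 * w)) x := by
    intro x
    show H (2 * (x + 2 * Real.pi)) = H (2 * x)
    rw [show 2 * (x + 2 * Real.pi) = 2 * x + 2 * Real.pi + 2 * Real.pi by ring, hp, hp]
  have h1 := int_run σ 1 0 k hH2 hp2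
  have h2 := int_skip (st σ 1 0 k).1 (st σ 1 0 k).2 hH hp
  have e1 : ∫ z in (0 : ℝ)..(2 * Real.pi), ∏ l ∈ (range (k + 1 + m)).erase k, qq (σ l + 2 ^ l * z) =
      ∫ z in (0 : ℝ)..(2 * Real.pi), gg 1 0 z * (∏ l ∈ range k, qq (σ l + 2 ^ l * z)) * (fun w => H (2 * w)) (2 ^ k * z) := by
    congr 1
    funext z
    rw [prod_miss (fun l => qq (σ l + 2 ^ l * z)), gg_one, one_mul]
    congr 1
    show _ = H (2 * (2 ^ k * z))
    rw [hHdef]
    refine prod_congr rfl fun j _ => ?_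
    show qq (σ (k + 1 + j) + 2 ^ (k + 1 + j) * z) = qq (σ (k + 1 + j) + 2 ^ j * (2 * (2 ^ k * z)))
    congr 2
    rw [pow_add, pow_succ]
    ring
  rw [e1, h1]
  have e2 : ∫ z in (0 : ℝ)..(2 * Real.pi), gg (st σ 1 0 k).1 (st σ 1 0 k).2 z * (fun w => H (2 * w)) z =
      ∫ z in (0 : ℝ)..(2 * Real.pi), gg (st σ 1 0 k).1 0 z * H z := h2
  rw [e2]
  have hinv := st_inv σ 1 0 (by simp) k
  have ha : 0 ≤ (st σ 1 0 k).1 := (norm_nonneg _).trans hinv
  have h3 := trans_bound m (fun j => σ (k + 1 + j)) (st σ 1 0 k).1 0 (by simpa using ha)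
  rw [norm_zero, add_zero] at h3
  refine h3.trans ?_
  have h4 := (st_le_VV σ 1 0 k).trans (VV_bound σ 1 0 (by simp) k)
  rw [norm_zero, add_zero] at h4
  have h5 := sum_miss (fun l => 1 - Real.cos (2 * σ l - σ (l + 1))) (fun l => by linarith [Real.neg_one_le_cos (2 * σ l - σ (l + 1))]) k m
  have e3 : k + 1 + m - 1 = k + m := by omega
  rw [e3]
  have e4 : ∑ j ∈ range (m - 1), (fun l => 1 - Real.cos (2 * σ l - σ (l + 1))) (k + 1 + j) =
      ∑ l ∈ range (m - 1), (1 - Real.cos (2 * (fun j => σ (k + 1 + j)) l - (fun j => σ (k + 1 + j)) (l + 1))) :=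
    sum_congr rfl fun j _ => by simp only [add_assoc]
  rw [e4] at h5
  set S1 := ∑ l ∈ range (k - 1), (1 - Real.cos (2 * σ l - σ (l + 1)))
  set S2 := ∑ l ∈ range (m - 1), (1 - Real.cos (2 * (fun j => σ (k + 1 + j)) l - (fun j => σ (k + 1 + j)) (l + 1)))
  set S := ∑ l ∈ range (k + m), (1 - Real.cos (2 * σ l - σ (l + 1)))
  have h6 : Real.exp (-S1 / 32) * Real.exp (-S2 / 32) ≤ Real.exp (1 / 8) * Real.exp (-S / 32) := by
    rw [← Real.exp_add, ← Real.exp_add]
    refine Real.exp_le_exp.2 ?_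
    have : S ≤ S1 + S2 + 4 := h5
    linarith
  have h7 : Real.exp (1 / 8) ≤ 3 / 2 := by
    have h := Real.exp_bound' (x := 1 / 8) (by norm_num) (by norm_num) (n := 2) (by norm_num)
    norm_num [sum_range_succ, Nat.factorial] at h
    linarith
  have hpi := Real.pi_pos
  have hE2 : 0 < Real.exp (-S2 / 32) := Real.exp_pos _
  have hES : 0 < Real.exp (-S / 32) := Real.exp_pos _
  calc 2 * Real.pi * (st σ 1 0 k).1 / 2 ^ m * Real.exp (-S2 / 32)
      ≤ 2 * Real.pi * (1 / 2 ^ k * Real.exp (-S1 / 32)) / 2 ^ m * Real.exp (-S2 / 32) := by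
        gcongr
    _ = 2 * Real.pi / 2 ^ k / 2 ^ m * (Real.exp (-S1 / 32) * Real.exp (-S2 / 32)) := by ring
    _ ≤ 2 * Real.pi / 2 ^ k / 2 ^ m * (Real.exp (1 / 8) * Real.exp (-S / 32)) :=
        mul_le_mul_of_nonneg_left h6 (by positivity)
    _ ≤ 2 * Real.pi / 2 ^ k / 2 ^ m * (3 / 2 * Real.exp (-S / 32)) := by
        gcongr
    _ = 6 * Real.pi / 2 ^ (k + 1 + m) * Real.exp (-S / 32) := by
        rw [pow_add, pow_succ]
        field_simp
        ring

end Pool.Agent.H76.BC
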