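import Pool.Agent.H76.BC.Trans

/-!
# The potential `a + |b|`

Notation: `β = e^{-is} b`, so `nA = 3a/8 + Re β / 4` (note `Re (e^{is} conj b) = Re (e^{-is} b)`), `nB = e^{2is} w`, `w = a/8 + β/4`, `|nB| = |w|`.

* `inv_step` (`|b| ≤ a` is preserved): `(3a/8 + Re β/4)² - |a/8 + β/4|² = a²/8 + a Re β/8 - (Im β)²/16`, and with `β = x + iy`, `x² + y² ≤ a²`: this is at least `(a + x)²/16 ≥ 0`; and `3a/8 + x/4 ≥ a/8 ≥ 0`.
* `V_step`: `nA + |nB| ≤ 3a/8 + Re β/4 + a/8 + |β|/4 ≤ (a + |b|)/2`.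
* `V_two`: two steps with the phases `s`, `s'`.  Let `V = a + |b|`, `V' = nA + |nB|`, `V''` the potential after the second step, `t = 2s - s'`.  Let `L1 = V/2 - V'`, `L2 = V'/2 - V''` (both `≥ 0`).
  `L1 = (|β| - Re β)/4 + (a/8 + |β|/4 - |w|)`; `L2 ≥ (|w| - Re (e^{it} w))/4` because for the second step `β' = e^{-is'} nB = e^{it} w`.
  (i) `|w| - Re w ≤ a/8 + |β|/4 - a/8 - Re β/4 = (|β| - Re β)/4 ≤ L1`.
  (ii) `|w| (1 - cos t) ≤ 2 (|w| - Re (e^{it} w)) + 2 (|w| - Re w)`: write `w = |w| e^{iω}` and use `1 - cos t ≤ 2 (1 - cos (t + ω)) + 2 (1 - cos ω)` (from `|1 - e^{it}|² ≤ 2 |1 - e^{i(t+ω)}|² + 2 |1 - e^{-iω}|²`; or directly: for a complex number `w`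
     and `u = e^{it}`: `|w| |1 - u|² ≤ ...`).  So `|w| (1 - cos t) ≤ 8 L2 + 2 L1`.
  (iii) `|w| ≥ Re w = a/8 + |β|/4 - (|β| - Re β)/4 ≥ V/8 - L1`.
  With `0 ≤ 1 - cos t ≤ 2`: `(1 - cos t) V/8 ≤ 8 L2 + 2 L1 + 2 L1`, so `L2 + L1/2 ≥ (1 - cos t) V/64` and `V'' = V/4 - L1/2 - L2 ≤ V/4 (1 - (1 - cos t)/16) ≤ V/4 exp (- (1 - cos t)/16)`.
-/

set_option autoImplicit false

open Finset Complex

namespace Pool.Agent.H76.BC

private theorem TransV_norm (s : ℝ) : ‖exp (-(s * I))‖ = 1 := by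
  have h := Complex.norm_exp_ofReal_mul_I (-s)
  rw [show ((-s : ℝ) : ℂ) * I = -(s * I) by push_cast; ring] at h
  exact h

private theorem TransV_dec (s a : ℝ) (b : ℂ) :
    nA s a b = 3 * a / 8 + (exp (-(s * I)) * b).re / 4 ∧
      nB s a b = exp (2 * s * I) * ((a : ℂ) / 8 + exp (-(s * I)) * b / 4) ∧
      ‖nB s a b‖ = ‖(a : ℂ) / 8 + exp (-(s * I)) * b / 4‖ ∧ ‖exp (-(s * I)) * b‖ = ‖b‖ := by
  have h1 : exp (s * I) * (starRingEnd ℂ) b = (starRingEnd ℂ) (exp (-(s * I)) * b) := by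
    rw [map_mul, ← Complex.exp_conj, map_neg, map_mul, Complex.conj_ofReal, Complex.conj_I]
    congr 2
    ring
  have h2 : nB s a b = exp (2 * s * I) * ((a : ℂ) / 8 + exp (-(s * I)) * b / 4) := by
    unfold nB
    have h3 : exp (s * I) = exp (2 * s * I) * exp (-(s * I)) := by
      rw [← Complex.exp_add]
      congr 1
      ring
    rw [h3]
    ring
  refine ⟨?_, h2, ?_, ?_⟩
  · unfold nA
    rw [h1, Complex.conj_re]
  · rw [h2, norm_mul]
    have h3 := Complex.norm_exp_ofReal_mul_I (2 * s)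
    rw [show ((2 * s : ℝ) : ℂ) * I = 2 * s * I by push_cast; ring] at h3
    rw [h3, one_mul]
  · rw [norm_mul, TransV_norm, one_mul]

private theorem TransV_re (a : ℝ) (β : ℂ) : ((a : ℂ) / 8 + β / 4).re = a / 8 + β.re / 4 := by
  simp

private theorem TransV_im (a : ℝ) (β : ℂ) : ((a : ℂ) / 8 + β / 4).im = β.im / 4 := by
  simp

private theorem TransV_sq (z : ℂ) : ‖z‖ ^ 2 = z.re ^ 2 + z.im ^ 2 := by
  rw [Complex.sq_norm, Complex.normSq_apply]
  ring

private theorem TransV_tri (a : ℝ) (β : ℂ) (ha : 0 ≤ a) :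
    ‖(a : ℂ) / 8 + β / 4‖ ≤ a / 8 + ‖β‖ / 4 := by
  refine (norm_add_le _ _).trans (le_of_eq ?_)
  rw [norm_div, norm_div, Complex.norm_real, Real.norm_of_nonneg ha]
  norm_num

theorem inv_step (s a : ℝ) (b : ℂ) (h : ‖b‖ ≤ a) : ‖nB s a b‖ ≤ nA s a b := by
  obtain ⟨h1, -, h3, h4⟩ := TransV_dec s a b
  rw [h1, h3]
  rw [← h4] at h
  generalize exp (-(s * I)) * b = β at *
  have ha : 0 ≤ a := (norm_nonneg _).trans h
  have hx := abs_le.1 ((Complex.abs_re_le_norm β).trans h)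
  have hn := TransV_sq β
  have h5 : ‖β‖ ^ 2 ≤ a ^ 2 := pow_le_pow_left₀ (norm_nonneg _) h 2
  have h6 := TransV_sq ((a : ℂ) / 8 + β / 4)
  rw [TransV_re, TransV_im] at h6
  have h7 : |‖(a : ℂ) / 8 + β / 4‖| ≤ 3 * a / 8 + β.re / 4 := by
    apply abs_le_of_sq_le_sq
    · rw [h6]
      nlinarith only [hn, h5, sq_nonneg (a + β.re)]
    · linarith only [hx.1, ha]
  exact (le_abs_self _).trans h7

theorem V_step (s a : ℝ) (b : ℂ) (h : ‖b‖ ≤ a) : nA s a b + ‖nB s a b‖ ≤ (a + ‖b‖) / 2 := by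
  obtain ⟨h1, -, h3, h4⟩ := TransV_dec s a b
  rw [h1, h3]
  rw [← h4] at h ⊢
  generalize exp (-(s * I)) * b = β at *
  have ha : 0 ≤ a := (norm_nonneg _).trans h
  have h5 := TransV_tri a β ha
  have h6 := Complex.re_le_norm β
  linarith only [h5, h6]

private theorem TransV_rot (t : ℝ) (w : ℂ) :
    ‖w‖ * (1 - Real.cos t) ≤ 2 * (‖w‖ - (exp (t * I) * w).re) + 2 * (‖w‖ - w.re) := by
  have h1 : (exp (t * I) * w).re = Real.cos t * w.re - Real.sin t * w.im := by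
    rw [Complex.mul_re, Complex.exp_ofReal_mul_I_re, Complex.exp_ofReal_mul_I_im]
  rw [h1]
  have hn := TransV_sq w
  have hr := norm_nonneg w
  have hcs := Real.sin_sq_add_cos_sq t
  have hc := Real.neg_one_le_cos t
  generalize Real.cos t = c at *
  generalize Real.sin t = σ at *
  generalize w.re = u at *
  generalize w.im = v at *
  generalize ‖w‖ = r at *
  have key : |2 * u * (1 + c) - 2 * σ * v| ≤ r * (3 + c) := by
    apply abs_le_of_sq_le_sq
    · have e1 : (r * (3 + c)) ^ 2 - (2 * u * (1 + c) - 2 * σ * v) ^ 2 =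
          (2 * u * σ + 2 * v * (1 + c)) ^ 2 + r ^ 2 * (1 - c) ^ 2 := by
        linear_combination (8 * (1 + c)) * hn - 4 * (u ^ 2 + v ^ 2) * hcs
      have e2 : 0 ≤ (2 * u * σ + 2 * v * (1 + c)) ^ 2 + r ^ 2 * (1 - c) ^ 2 := by positivity
      linarith only [e1, e2]
    · exact mul_nonneg hr (by linarith only [hc])
  have := (abs_le.1 key).2
  linarith only [this]

theorem V_two (s s' a : ℝ) (b : ℂ) (h : ‖b‖ ≤ a) :
    nA s' (nA s a b) (nB s a b) + ‖nB s' (nA s a b) (nB s a b)‖ ≤ (a + ‖b‖) / 4 * Real.exp (-(1 - Real.cos (2 * s - s')) / 16) := by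
  have hinv := inv_step s a b h
  obtain ⟨h1, h2, h3, h4⟩ := TransV_dec s a b
  obtain ⟨g1, -, g3, g4⟩ := TransV_dec s' (nA s a b) (nB s a b)
  have g5 := TransV_tri (nA s a b) (exp (-(s' * I)) * nB s a b) ((norm_nonneg _).trans hinv)
  rw [g4] at g5
  rw [g1, g3]
  have hrot : exp (-(s' * I)) * nB s a b =
      exp (((2 * s - s' : ℝ) : ℂ) * I) * ((a : ℂ) / 8 + exp (-(s * I)) * b / 4) := by
    rw [h2, ← mul_assoc, ← Complex.exp_add]
    congr 2
    push_cast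
    ring
  have hr := TransV_rot (2 * s - s') ((a : ℂ) / 8 + exp (-(s * I)) * b / 4)
  rw [← hrot] at hr
  rw [h3] at g5 hinv
  rw [← h4] at h ⊢
  generalize exp (-(s' * I)) * nB s a b = β' at *
  generalize exp (-(s * I)) * b = β at *
  have ha : 0 ≤ a := (norm_nonneg _).trans h
  have h5 := TransV_tri a β ha
  have h6 := Complex.re_le_norm β
  have h7 := TransV_re a β
  have hβ := norm_nonneg β
  rw [h7] at hr
  have hrew := Complex.re_le_norm ((a : ℂ) / 8 + β / 4)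
  rw [h7] at hrew
  rw [h1] at g5 ⊢
  have hc1 := Real.neg_one_le_cos (2 * s - s')
  have hc2 := Real.cos_le_one (2 * s - s')
  have hexp := Real.one_sub_le_exp_neg ((1 - Real.cos (2 * s - s')) / 16)
  rw [← neg_div] at hexp
  have hV : 0 ≤ (a + ‖β‖) / 4 := by positivity
  have hfin := mul_le_mul_of_nonneg_left hexp hV
  refine le_trans ?_ hfin
  generalize Real.cos (2 * s - s') = c at *
  generalize ‖(((3 * a / 8 + β.re / 4 : ℝ) : ℂ)) / 8 + β' / 4‖ = n2 at *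
  generalize ‖(a : ℂ) / 8 + β / 4‖ = r at *
  generalize ‖β‖ = m at *
  generalize β.re = x at *
  generalize β'.re = x' at *
  have k1 : (1 - c) * (r - (a / 8 + x / 4)) ≤ 2 * (r - (a / 8 + x / 4)) :=
    mul_le_mul_of_nonneg_right (by linarith only [hc1]) (by linarith only [hrew])
  have k2 : (1 - c) * ((m - x) / 4 - (r - (a / 8 + x / 4))) ≥ 0 :=
    mul_nonneg (by linarith only [hc2]) (by linarith only [h5])
  have k3 : (1 - c) * (m - x) ≤ 2 * (m - x) :=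
    mul_le_mul_of_nonneg_right (by linarith only [hc1]) (by linarith only [h6])
  have k4 : 0 ≤ (1 - c) * m := mul_nonneg (by linarith only [hc2]) hβ
  nlinarith only [hr, g5, h5, h6, hrew, k1, k2, k3, k4, hc1, hc2]

end Pool.Agent.H76.BC
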